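import Pool.Agent.PSD.Defs

/-!
# PSD/Comp: companion automorphisms of `K^i` and polynomials

`comp_card`: for `i ≥ 1`, companion type automorphisms `A` of `K^i` (`A e_a = e_{a+1}` for
`a + 1 < i`) with `Big k A` and `det A = c` correspond bijectively (`A ↦ charpoly A`) to the monic
polynomials in `PS K k i c`.

Let `A` be of companion type.
* `A^a e_0 = e_a` for `a < i`; so a nonzero polynomial `h` of degree `< i` has `h(A) e_0 ≠ 0`
  (its coordinates are the coefficients of `h`), and a linear map commuting with `A` and killing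
  `e_0` is zero.  Hence `minpoly K A` has degree `≥ i`; since it divides the characteristic
  polynomial (monic of degree `i`) it is equal to it; call it `f`.
* `det A = (-1)^i f(0)`: `LinearMap.det_eq_sign_charpoly_coeff`.
* `Big k A` iff all irreducible factors of `f` have degree `> k`:
  (⇒) if `f = p h`, `p` irreducible of degree `≤ k`, then `h(A) e_0 ≠ 0` (degree `< i`) is killed
  by `p(A)`; (⇐) if `φ ≠ 0`, `deg φ ≤ k`, then `φ` and `f` are coprime (an irreducible common
  factor has degree `≤ deg φ ≤ k`), so `u φ + w f = 1` and `u(A) φ(A) = 1`.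
* injectivity: two companion type automorphisms with the same `f` agree on `e_{i-1}` since
  `A e_{i-1} = A^i e_0 = - ∑_{a<i} f_a e_a`.
* surjectivity: given `f` monic of degree `i` with `f(0) ≠ 0` define the linear map on the basis
  by `e_a ↦ e_{a+1}`, `e_{i-1} ↦ - ∑_{a<i} f_a e_a`; it is onto (so bijective) because `f_0 ≠ 0`,
  and `f(A) e_0 = 0`, so `f(A) = 0` and `f` is the minimal polynomial.
`PS` is finite since `K` is (polynomials of bounded degree).
-/

open Polynomial

namespace Pool.Agent.PSD

theorem ee_apply (K : Type) [Field K] (i a : ℕ) (j : Fin i) :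
    ee K i a j = if j.1 = a then 1 else 0 := rfl

private theorem ee_eq_single (K : Type) [Field K] (i : ℕ) (a : Fin i) :
    ee K i a.1 = Pi.basisFun K (Fin i) a := by
  classical
  funext j
  rw [ee_apply, Pi.basisFun_apply, Pi.single_apply]
  simp only [Fin.ext_iff]

/-- companion type for linear maps -/
private def LC {K : Type} [Field K] {i : ℕ} (A : Module.End K (Fin i → K)) : Prop :=
  ∀ a : ℕ, a + 1 < i → A (ee K i a) = ee K i (a + 1)

private theorem lc_pow {K : Type} [Field K] {i : ℕ} {A : Module.End K (Fin i → K)} (hA : LC A) :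
    ∀ a : ℕ, a < i → (A ^ a) (ee K i 0) = ee K i a := by
  intro a
  induction a with
  | zero => intro _; rfl
  | succ a ih =>
    intro h
    rw [pow_succ', Module.End.mul_apply, ih (by omega), hA a h]

private theorem lc_aeval {K : Type} [Field K] {i : ℕ} {A : Module.End K (Fin i → K)} (hA : LC A)
    (h : K[X]) (hd : h.natDegree < i) :
    aeval A h (ee K i 0) = fun j : Fin i => h.coeff j.1 := by
  rw [aeval_eq_sum_range' hd, LinearMap.sum_apply]
  have h1 : ∀ a ∈ Finset.range i, (h.coeff a • A ^ a) (ee K i 0) = h.coeff a • ee K i a := by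
    intro a ha
    rw [LinearMap.smul_apply, lc_pow hA a (Finset.mem_range.mp ha)]
  rw [Finset.sum_congr rfl h1]
  funext j
  rw [Finset.sum_apply, Finset.sum_eq_single j.1]
  · rw [Pi.smul_apply, ee_apply, if_pos rfl, smul_eq_mul, mul_one]
  · intro b _ hb
    rw [Pi.smul_apply, ee_apply, if_neg (fun h => hb h.symm), smul_zero]
  · intro hj
    exact absurd (Finset.mem_range.mpr j.2) hj

private theorem lc_zero {K : Type} [Field K] {i : ℕ} {A : Module.End K (Fin i → K)} (hA : LC A)
    (h : K[X]) (hd : h.natDegree < i) (h0 : aeval A h (ee K i 0) = 0) : h = 0 := by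
  rw [lc_aeval hA h hd] at h0
  ext a
  rw [coeff_zero]
  by_cases ha : a < i
  · exact congrFun h0 ⟨a, ha⟩
  · exact coeff_eq_zero_of_natDegree_lt (by omega)

private theorem charpoly_deg {K : Type} [Field K] {i : ℕ} (A : Module.End K (Fin i → K)) :
    (LinearMap.charpoly A).natDegree = i := by
  rw [LinearMap.charpoly_natDegree, Module.finrank_fin_fun]

private theorem deg_sub_lt' {K : Type} [Field K] {i : ℕ} (hi : 1 ≤ i) (f g : K[X])
    (hf : f.Monic) (hg : g.Monic) (hfd : f.natDegree = i) (hgd : g.natDegree = i) :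
    (f - g).natDegree < i := by
  by_cases h0 : f - g = 0
  · rw [h0, natDegree_zero]
    omega
  · have h1 : degree (f - g) < degree f := by
      refine degree_sub_lt_left ?_ hf.ne_zero ?_
      · rw [degree_eq_natDegree hf.ne_zero, degree_eq_natDegree hg.ne_zero, hfd, hgd]
      · rw [hf.leadingCoeff, hg.leadingCoeff]
    rw [degree_eq_natDegree h0, degree_eq_natDegree hf.ne_zero, hfd] at h1
    exact_mod_cast h1

private theorem lc_uniq {K : Type} [Field K] {i : ℕ} (hi : 1 ≤ i)
    {A : Module.End K (Fin i → K)} (hA : LC A)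
    (g : K[X]) (hm : g.Monic) (hd : g.natDegree = i) (h0 : aeval A g (ee K i 0) = 0) :
    LinearMap.charpoly A = g := by
  have h1 : (LinearMap.charpoly A - g).natDegree < i :=
    deg_sub_lt' hi _ _ (LinearMap.charpoly_monic A) hm (charpoly_deg A) hd
  have h2 : aeval A (LinearMap.charpoly A - g) (ee K i 0) = 0 := by
    rw [map_sub, LinearMap.aeval_self_charpoly, LinearMap.sub_apply, h0]
    simp
  exact sub_eq_zero.mp (lc_zero hA _ h1 h2)

private theorem lc_last {K : Type} [Field K] {i : ℕ} (hi : 1 ≤ i)
    {A : Module.End K (Fin i → K)} (hA : LC A) (g : K[X]) (hm : g.Monic) (hd : g.natDegree = i)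
    (j : Fin i) :
    aeval A g (ee K i 0) j = A (ee K i (i - 1)) j + g.coeff j.1 := by
  have h1 : g = X ^ i + (g - X ^ i) := by ring
  have hlt : (g - X ^ i).natDegree < i :=
    deg_sub_lt' hi _ _ hm (monic_X_pow i) hd (natDegree_X_pow i)
  conv_lhs => rw [h1]
  rw [map_add, LinearMap.add_apply, Pi.add_apply, lc_aeval hA _ hlt, map_pow, aeval_X]
  have h8 : (A ^ i) (ee K i 0) = A (ee K i (i - 1)) := by
    obtain ⟨m, rfl⟩ : ∃ m, i = m + 1 := ⟨i - 1, by omega⟩
    rw [pow_succ', Module.End.mul_apply, lc_pow hA m (by omega)]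
    rfl
  rw [h8]
  congr 1
  change (g - X ^ i).coeff j.1 = _
  rw [coeff_sub, coeff_X_pow, if_neg (by have := j.2; omega), sub_zero]

private theorem lc_inj {K : Type} [Field K] {i : ℕ} (hi : 1 ≤ i)
    {A B : Module.End K (Fin i → K)} (hA : LC A) (hB : LC B)
    (h : LinearMap.charpoly A = LinearMap.charpoly B) : A = B := by
  refine (Pi.basisFun K (Fin i)).ext fun a => ?_
  rw [← ee_eq_single]
  by_cases ha : a.1 + 1 < i
  · rw [hA _ ha, hB _ ha]
  · have h1 : a.1 = i - 1 := by have := a.2; omega
    rw [h1]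
    funext j
    have h2 := lc_last hi hA _ (LinearMap.charpoly_monic A) (charpoly_deg A) j
    have h3 := lc_last hi hB _ (LinearMap.charpoly_monic B) (charpoly_deg B) j
    rw [LinearMap.aeval_self_charpoly] at h2 h3
    have h4 : (0 : Module.End K (Fin i → K)) (ee K i 0) j = 0 := rfl
    rw [h4] at h2 h3
    rw [h] at h2
    have h5 := h2.symm.trans h3
    exact add_right_cancel h5

private theorem lc_surj {K : Type} [Field K] {i : ℕ} (hi : 1 ≤ i)
    (g : K[X]) (hm : g.Monic) (hd : g.natDegree = i) :
    ∃ A : Module.End K (Fin i → K), LC A ∧ LinearMap.charpoly A = g := by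
  let A : Module.End K (Fin i → K) := (Pi.basisFun K (Fin i)).constr K
    (fun a : Fin i => if a.1 + 1 < i then ee K i (a.1 + 1) else fun j : Fin i => - g.coeff j.1)
  have hb : ∀ a : Fin i, A (ee K i a.1) =
      if a.1 + 1 < i then ee K i (a.1 + 1) else fun j : Fin i => - g.coeff j.1 := by
    intro a
    rw [ee_eq_single]
    exact Module.Basis.constr_basis _ _ _ _
  have hA : LC A := by
    intro a ha
    have := hb ⟨a, by omega⟩
    rw [if_pos ha] at this
    exact this
  refine ⟨A, hA, lc_uniq hi hA g hm hd ?_⟩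
  funext j
  rw [lc_last hi hA g hm hd j]
  have h1 := hb ⟨i - 1, by omega⟩
  rw [if_neg (by simp only; omega)] at h1
  change A (ee K i (i - 1)) = _ at h1
  rw [h1]
  simp

private theorem lc_big {K : Type} [Field K] {i : ℕ} (k : ℕ)
    {A : Module.End K (Fin i → K)} (hA : LC A) :
    Big k A ↔ ∀ p : K[X], Irreducible p → p ∣ LinearMap.charpoly A → k < p.natDegree := by
  constructor
  · intro hB p hp hd
    by_contra hk
    obtain ⟨h, hh⟩ := hd
    have hf0 : LinearMap.charpoly A ≠ 0 := (LinearMap.charpoly_monic A).ne_zero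
    have hp0 : p ≠ 0 := hp.ne_zero
    have hh0 : h ≠ 0 := by
      intro h0
      rw [h0, mul_zero] at hh
      exact hf0 hh
    have hdeg : i = p.natDegree + h.natDegree := by
      rw [← natDegree_mul hp0 hh0, ← hh, charpoly_deg]
    have hp1 : 1 ≤ p.natDegree := hp.natDegree_pos
    have h1 : aeval A p (aeval A h (ee K i 0)) = 0 := by
      rw [← Module.End.mul_apply, ← map_mul, ← hh, LinearMap.aeval_self_charpoly]
      rfl
    have h2 : aeval A h (ee K i 0) = 0 := by
      apply hB p hp0 (by omega)
      rw [h1, map_zero]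
    exact hh0 (lc_zero hA h (by omega) h2)
  · intro hp φ hφ hk
    have hco : IsCoprime φ (LinearMap.charpoly A) := by
      refine isCoprime_of_irreducible_dvd (fun h => hφ h.1) ?_
      intro p hpi hpφ hpf
      have h1 := hp p hpi hpf
      have h2 := natDegree_le_of_dvd hpφ hφ
      omega
    obtain ⟨u, w, huw⟩ := hco
    have h1 : aeval A u * aeval A φ = 1 := by
      have h2 := congrArg (aeval A) huw
      rw [map_add, map_mul, map_mul, LinearMap.aeval_self_charpoly, mul_zero, add_zero,
        map_one] at h2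
      exact h2
    intro x y hxy
    have h2 : ∀ z, z = aeval A u (aeval A φ z) := by
      intro z
      rw [← Module.End.mul_apply, h1]
      rfl
    rw [h2 x, h2 y, hxy]

private theorem det_lc {K : Type} [Field K] {i : ℕ} (A : Module.End K (Fin i → K)) :
    LinearMap.det A = (-1) ^ i * (LinearMap.charpoly A).coeff 0 := by
  rw [LinearMap.det_eq_sign_charpoly_coeff, Module.finrank_fin_fun]

theorem comp_card (K : Type) [Field K] [Finite K] {i : ℕ} (hi : 1 ≤ i) (k : ℕ) (c : Kˣ) :
    {A : (Fin i → K) ≃ₗ[K] (Fin i → K) |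
      IsComp A ∧ Big k A.toLinearMap ∧ LinearEquiv.det A = c}.ncard = PM K k i c := by
  have key : ∀ A : (Fin i → K) ≃ₗ[K] (Fin i → K), IsComp A → LC A.toLinearMap :=
    fun A hA => hA
  refine Set.ncard_congr (fun A _ => LinearMap.charpoly A.toLinearMap) ?_ ?_ ?_
  · rintro A ⟨hA, hB, hdet⟩
    refine ⟨LinearMap.charpoly_monic _, charpoly_deg _, (lc_big k (key A hA)).mp hB, ?_⟩
    rw [← det_lc, ← hdet, LinearEquiv.coe_det]
  · rintro A B ⟨hA, _, _⟩ ⟨hB, _, _⟩ hAB
    exact LinearEquiv.toLinearMap_injective (lc_inj hi (key A hA) (key B hB) hAB)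
  · rintro g ⟨hm, hd, hp, hc⟩
    obtain ⟨A, hA, hch⟩ := lc_surj hi g hm hd
    have hdet : LinearMap.det A = (c : K) := by
      rw [det_lc, hch]
      exact hc
    have hne : IsUnit (LinearMap.det A) := by
      rw [hdet]
      exact c.isUnit
    let E : (Fin i → K) ≃ₗ[K] (Fin i → K) := LinearMap.equivOfIsUnitDet hne
    have hE : E.toLinearMap = A := LinearMap.coe_equivOfIsUnitDet hne
    refine ⟨E, ⟨?_, ?_, ?_⟩, ?_⟩
    · intro a ha
      have h1 : E.toLinearMap (ee K i a) = ee K i (a + 1) := by
        rw [hE]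
        exact hA a ha
      exact h1
    · rw [hE]
      exact (lc_big k hA).mpr (by rw [hch]; exact hp)
    · apply Units.ext
      rw [LinearEquiv.coe_det, hE, hdet]
    · change LinearMap.charpoly E.toLinearMap = g
      rw [hE, hch]

theorem PM_zero (K : Type) [Field K] [DecidableEq K] (k : ℕ) (c : Kˣ) :
    PM K k 0 c = if c = 1 then 1 else 0 := by
  have h1 : PS K k 0 c = if c = 1 then {1} else ∅ := by
    ext f
    constructor
    · rintro ⟨hm, hd, _, hc⟩
      have hf : f = 1 := by
        exact (Monic.natDegree_eq_zero hm).mp hd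
      have hc1 : c = 1 := by
        rw [hf] at hc
        apply Units.ext
        rw [← hc]
        simp
      rw [if_pos hc1]
      exact hf
    · intro hf
      by_cases hc1 : c = 1
      · rw [if_pos hc1] at hf
        have hf1 : f = 1 := hf
        rw [hf1]
        refine ⟨monic_one, natDegree_one, ?_, ?_⟩
        · intro p hp hd
          exact absurd (isUnit_of_dvd_one hd) hp.not_isUnit
        · rw [hc1]
          simp
      · rw [if_neg hc1] at hf
        exact absurd hf (Set.notMem_empty f)
  unfold PM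
  rw [h1]
  by_cases hc1 : c = 1
  · rw [if_pos hc1, if_pos hc1, Set.ncard_singleton]
  · rw [if_neg hc1, if_neg hc1, Set.ncard_empty]

end Pool.Agent.PSD
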