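import Pool.Agent.PSD.Conj

/-!
# PSD/Cyc: cyclic subspaces and the companion normal form

* `cyc_li`: if `dim cyc f v = i` then `v, f v, ..., f^(i-1) v` is a basis of `cyc f v`.
  Proof: let `d` be the least natural number with `f^d v ∈ span {f^j v : j < d}` (it exists by
  finite dimension).  Then `f^j v`, `j < d`, are independent
  (`linearIndependent_fin_succ'`/`linearIndependent_fin_snoc` by induction), and their span is
  `f`-stable (`f^(j+1) v` for `j + 1 < d` is there, `f^d v` too), hence it is `cyc f v`, so `d = i`.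
* `cyc_nf`: extend the basis `f^j v` of `cyc g v` to a basis of `V` (complement
  `Submodule.exists_isCompl`, `Submodule.prodEquivOfIsCompl`, `LinearEquiv.ofFinrankEq`), which
  gives `h : V ≃ₗ K^i × K^m` with `h (g^a v) = (e_a, 0)` for `a < i`.
* `cyc_comp2`: for `g` of companion type `g^a (e_0, 0) = (e_a, 0)` for `a < i` and `g` preserves
  `K^i × 0`, so the cyclic subspace is `K^i × 0`.
-/

open Polynomial

namespace Pool.Agent.PSD

section

variable {K V : Type} [Field K] [AddCommGroup V] [Module K V] [Module.Finite K V]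

private theorem li_of (f : Module.End K V) (v : V) (n : ℕ)
    (h : ∀ d < n, (f ^ d) v ∉ Submodule.span K (Set.range fun j : Fin d => (f ^ (j : ℕ)) v)) :
    LinearIndependent K (fun j : Fin n => (f ^ (j : ℕ)) v) := by
  induction n with
  | zero => exact linearIndependent_empty_type
  | succ n ih =>
    rw [linearIndependent_fin_succ']
    refine ⟨ih fun d hd => h d (by omega), ?_⟩
    exact h n (by omega)

private theorem cyc_stable (f : Module.End K V) (v : V) (x : V) (hx : x ∈ cyc f v) :
    f x ∈ cyc f v := by
  have h : cyc f v ≤ (cyc f v).comap f := by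
    refine Submodule.span_le.2 ?_
    rintro _ ⟨j, rfl⟩
    refine Submodule.subset_span ⟨j + 1, ?_⟩
    dsimp only
    rw [pow_succ']
    rfl
  exact h hx

theorem cyc_li (f : Module.End K V) (v : V) {i : ℕ} (h : Module.finrank K (cyc f v) = i) :
    LinearIndependent K (fun j : Fin i => (f ^ (j : ℕ)) v) ∧
      cyc f v = Submodule.span K (Set.range fun j : Fin i => (f ^ (j : ℕ)) v) := by
  classical
  have hex : ∃ d : ℕ, (f ^ d) v ∈ Submodule.span K (Set.range fun j : Fin d => (f ^ (j : ℕ)) v) := by
    by_contra hcon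
    push_neg at hcon
    have h1 := li_of f v (Module.finrank K V + 1) fun d _ => hcon d
    have h2 := h1.fintype_card_le_finrank
    rw [Fintype.card_fin] at h2
    omega
  set d := Nat.find hex with hd
  have hspec : (f ^ d) v ∈ Submodule.span K (Set.range fun j : Fin d => (f ^ (j : ℕ)) v) :=
    Nat.find_spec hex
  have hli := li_of f v d fun e he => Nat.find_min hex he
  have hst : ∀ x ∈ Submodule.span K (Set.range fun j : Fin d => (f ^ (j : ℕ)) v),
      f x ∈ Submodule.span K (Set.range fun j : Fin d => (f ^ (j : ℕ)) v) := by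
    have h1 : Submodule.span K (Set.range fun j : Fin d => (f ^ (j : ℕ)) v) ≤
        (Submodule.span K (Set.range fun j : Fin d => (f ^ (j : ℕ)) v)).comap f := by
      refine Submodule.span_le.2 ?_
      rintro _ ⟨j, rfl⟩
      have e1 : f ((f ^ (j : ℕ)) v) = (f ^ ((j : ℕ) + 1)) v := by
        rw [pow_succ']
        rfl
      show f ((f ^ (j : ℕ)) v) ∈ Submodule.span K (Set.range fun j : Fin d => (f ^ (j : ℕ)) v)
      rw [e1]
      by_cases hj : (j : ℕ) + 1 < d
      · exact Submodule.subset_span ⟨⟨(j : ℕ) + 1, hj⟩, rfl⟩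
      · have : (j : ℕ) + 1 = d := by
          have := j.2
          omega
        rw [this]
        exact hspec
    exact fun x hx => h1 hx
  have hall : ∀ j : ℕ, (f ^ j) v ∈
      Submodule.span K (Set.range fun j : Fin d => (f ^ (j : ℕ)) v) := by
    intro j
    induction j with
    | zero =>
      by_cases h0 : 0 < d
      · exact Submodule.subset_span ⟨⟨0, h0⟩, rfl⟩
      · have h1 : d = 0 := by omega
        have h2 := hspec
        rw [show (f ^ d) v = (f ^ 0) v by rw [h1]] at h2
        exact h2
    | succ j ih =>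
      have e1 : f ((f ^ j) v) = (f ^ (j + 1)) v := by
        rw [pow_succ']
        rfl
      rw [← e1]
      exact hst _ ih
  have hcyc : cyc f v = Submodule.span K (Set.range fun j : Fin d => (f ^ (j : ℕ)) v) := by
    apply le_antisymm
    · refine Submodule.span_le.2 ?_
      rintro _ ⟨j, rfl⟩
      exact hall j
    · refine Submodule.span_mono ?_
      rintro _ ⟨j, rfl⟩
      exact ⟨j, rfl⟩
  have hdi : d = i := by
    rw [← h, hcyc, finrank_span_eq_card hli, Fintype.card_fin]
  rw [← hdi]
  exact ⟨hli, hcyc⟩

theorem cyc_nf (g : V ≃ₗ[K] V) (v : V) {i m : ℕ} (hi : 1 ≤ i)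
    (hV : Module.finrank K V = i + m) (h : Module.finrank K (cyc g.toLinearMap v) = i) :
    ∃ e : V ≃ₗ[K] ((Fin i → K) × (Fin m → K)), e v = (ee K i 0, 0) ∧ IsComp2 (cj e g) := by
  classical
  obtain ⟨hli, hsp⟩ := cyc_li g.toLinearMap v h
  set W := cyc g.toLinearMap v with hW
  obtain ⟨T, hT⟩ := Submodule.exists_isCompl W
  have hTm : Module.finrank K T = m := by
    have := Submodule.finrank_add_eq_of_isCompl hT
    omega
  haveI : Nonempty (Fin i) := ⟨⟨0, hi⟩⟩
  let w : Fin i → W := fun j => ⟨(g.toLinearMap ^ (j : ℕ)) v, Submodule.subset_span ⟨j, rfl⟩⟩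
  have hwli : LinearIndependent K w := by
    apply LinearIndependent.of_comp W.subtype
    exact hli
  have hcard : Fintype.card (Fin i) = Module.finrank K W := by
    rw [Fintype.card_fin, h]
  let b := basisOfLinearIndependentOfCardEqFinrank hwli hcard
  have hb : ∀ j, b j = w j := fun j => by
    rw [coe_basisOfLinearIndependentOfCardEqFinrank]
  let eT : T ≃ₗ[K] (Fin m → K) := LinearEquiv.ofFinrankEq T (Fin m → K) (by
    rw [hTm, Module.finrank_fin_fun])
  let e : V ≃ₗ[K] ((Fin i → K) × (Fin m → K)) :=
    (Submodule.prodEquivOfIsCompl W T hT).symm.trans (LinearEquiv.prodCongr b.equivFun eT)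
  have heW : ∀ x : W, e x = (b.equivFun x, 0) := by
    intro x
    show (LinearEquiv.prodCongr b.equivFun eT)
      ((Submodule.prodEquivOfIsCompl W T hT).symm (x : V)) = _
    rw [Submodule.prodEquivOfIsCompl_symm_apply_left]
    show (b.equivFun x, eT 0) = _
    rw [map_zero]
  have hea : ∀ a : ℕ, a < i → e ((g.toLinearMap ^ a) v) = (ee K i a, 0) := by
    intro a ha
    have h1 : ((w ⟨a, ha⟩ : W) : V) = (g.toLinearMap ^ a) v := rfl
    rw [← h1, heW, ← hb]
    refine Prod.ext ?_ rfl
    funext j
    show b.equivFun (b ⟨a, ha⟩) j = ee K i a j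
    rw [Module.Basis.equivFun_self]
    unfold ee
    by_cases hj : (j : ℕ) = a
    · rw [if_pos hj, if_pos (Fin.ext hj.symm)]
    · rw [if_neg hj, if_neg (fun h => hj (by rw [← h]))]
  refine ⟨e, ?_, ?_, ?_⟩
  · have := hea 0 hi
    rw [pow_zero] at this
    exact this
  · intro u
    show (e (g (e.symm (u, 0)))).2 = 0
    have h1 : e.symm (u, (0 : Fin m → K)) = ((b.equivFun.symm u : W) : V) := by
      rw [LinearEquiv.symm_apply_eq, heW, LinearEquiv.apply_symm_apply]
    rw [h1]
    have h2 : g ((b.equivFun.symm u : W) : V) ∈ W :=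
      cyc_stable g.toLinearMap v _ (b.equivFun.symm u).2
    have h3 := heW ⟨_, h2⟩
    rw [h3]
  · intro a ha
    show e (g (e.symm (ee K i a, 0))) = _
    rw [← hea a (by omega), LinearEquiv.symm_apply_apply, ← hea (a + 1) ha, pow_succ']
    rfl

end

section

variable {K : Type} [Field K] {i m : ℕ}

theorem comp2_pow (g : ((Fin i → K) × (Fin m → K)) ≃ₗ[K] ((Fin i → K) × (Fin m → K)))
    (hg : IsComp2 g) (a : ℕ) (ha : a < i) :
    (g.toLinearMap ^ a) (ee K i 0, 0) = (ee K i a, 0) := by
  induction a with
  | zero => rw [pow_zero]; rfl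
  | succ a ih =>
    rw [pow_succ']
    show g ((g.toLinearMap ^ a) (ee K i 0, 0)) = _
    rw [ih (by omega)]
    exact hg.2 a ha

theorem cyc_comp2 (hi : 1 ≤ i)
    (g : ((Fin i → K) × (Fin m → K)) ≃ₗ[K] ((Fin i → K) × (Fin m → K)))
    (hg : IsComp2 g) :
    Module.finrank K (cyc g.toLinearMap (ee K i 0, (0 : Fin m → K))) = i := by
  classical
  have hc : cyc g.toLinearMap (ee K i 0, (0 : Fin m → K)) =
      LinearMap.range (LinearMap.inl K (Fin i → K) (Fin m → K)) := by
    apply le_antisymm
    · refine Submodule.span_le.2 ?_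
      rintro _ ⟨j, rfl⟩
      have h1 : ∀ j : ℕ, ((g.toLinearMap ^ j) (ee K i 0, (0 : Fin m → K))).2 = 0 := by
        intro j
        induction j with
        | zero => rw [pow_zero]; rfl
        | succ j ih =>
          rw [pow_succ']
          show (g ((g.toLinearMap ^ j) (ee K i 0, (0 : Fin m → K)))).2 = 0
          have h2 : (g.toLinearMap ^ j) (ee K i 0, (0 : Fin m → K)) =
              (((g.toLinearMap ^ j) (ee K i 0, (0 : Fin m → K))).1, 0) := Prod.ext rfl ih
          rw [h2]
          exact hg.1 _
      exact ⟨((g.toLinearMap ^ j) (ee K i 0, (0 : Fin m → K))).1, Prod.ext rfl (h1 j).symm⟩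
    · rintro _ ⟨u, rfl⟩
      have h1 : LinearMap.inl K (Fin i → K) (Fin m → K) u =
          ∑ a : Fin i, u a • (ee K i a, (0 : Fin m → K)) := by
        refine Prod.ext ?_ ?_
        · rw [Prod.fst_sum]
          show u = _
          funext j
          rw [Finset.sum_apply, Finset.sum_eq_single j]
          · show u j = u j * ee K i j j
            unfold ee
            rw [if_pos rfl, mul_one]
          · intro a _ ha
            show u a * ee K i a j = 0
            unfold ee
            rw [if_neg (fun h => ha (Fin.ext h.symm)), mul_zero]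
          · intro h
            exact absurd (Finset.mem_univ j) h
        · rw [Prod.snd_sum]
          show (0 : Fin m → K) = _
          symm
          apply Finset.sum_eq_zero
          intro a _
          show u a • (0 : Fin m → K) = 0
          rw [smul_zero]
      rw [h1]
      refine Submodule.sum_mem _ fun a _ => Submodule.smul_mem _ _ ?_
      refine Submodule.subset_span ⟨a, ?_⟩
      exact comp2_pow g hg a a.2
  rw [hc, LinearMap.finrank_range_of_inj LinearMap.inl_injective, Module.finrank_fin_fun]

end

end Pool.Agent.PSD
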