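import Pool.Agent.PSD.Defs

/-!
# PSD/CardDet: elementary counts in `GL_n` and `SL_n`

* `card_det`: the determinant is onto, so its fibres all have the same size (fibres of a
  homomorphism; a preimage of `c` is the diagonal matrix with one entry `c`, e.g.
  `LinearEquiv.ofIsUnitDet` or `Matrix.toLinearEquiv'`/`Matrix.GeneralLinearGroup.toLin`, or
  `LinearEquiv.funCongrLeft`-free: scale one coordinate with `LinearEquiv.piCongrRight`
  and compute the determinant with `LinearMap.det_pi` / `Matrix.det_diagonal`).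
* `SL_ncard`: `A ↦ Matrix.SpecialLinearGroup.toLin' A` is a bijection of `SL_n(K)` with the
  automorphisms of determinant `1`.
* `card_SL` follows from the two.
* `GL_0` is trivial.
-/

open Polynomial

namespace Pool.Agent.PSD

variable (K : Type) [Field K] [Fintype K] [DecidableEq K]

private theorem exists_det {n : ℕ} (hn : 1 ≤ n) (c : Kˣ) :
    ∃ g : (Fin n → K) ≃ₗ[K] (Fin n → K), LinearEquiv.det g = c := by
  have hM : LinearMap.det (Matrix.toLin' (Matrix.diagonal
      (Function.update (fun _ : Fin n => (1 : K)) (⟨0, hn⟩ : Fin n) (c : K)))) = (c : K) := by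
    rw [LinearMap.det_toLin', Matrix.det_diagonal,
      Finset.prod_update_of_mem (Finset.mem_univ _)]
    simp
  have hu : IsUnit (LinearMap.det (Matrix.toLin' (Matrix.diagonal
      (Function.update (fun _ : Fin n => (1 : K)) (⟨0, hn⟩ : Fin n) (c : K))))) := by
    rw [hM]
    exact c.isUnit
  refine ⟨LinearMap.equivOfIsUnitDet hu, ?_⟩
  apply Units.ext
  rw [LinearEquiv.coe_det, LinearMap.coe_equivOfIsUnitDet, hM]

private theorem fib_eq {n : ℕ} (hn : 1 ≤ n) (c d : Kˣ) :
    {g : (Fin n → K) ≃ₗ[K] (Fin n → K) | LinearEquiv.det g = d}.ncard =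
      {g : (Fin n → K) ≃ₗ[K] (Fin n → K) | LinearEquiv.det g = c}.ncard := by
  obtain ⟨g0, h0⟩ := exists_det K hn (c * d⁻¹)
  have himg : (fun g : (Fin n → K) ≃ₗ[K] (Fin n → K) => g0 * g) ''
      {g : (Fin n → K) ≃ₗ[K] (Fin n → K) | LinearEquiv.det g = d} =
      {g : (Fin n → K) ≃ₗ[K] (Fin n → K) | LinearEquiv.det g = c} := by
    ext g
    constructor
    · rintro ⟨g1, h1, rfl⟩
      change LinearEquiv.det (g0 * g1) = c
      rw [map_mul, h0, show LinearEquiv.det g1 = d from h1, inv_mul_cancel_right]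
    · intro hg
      refine ⟨g0⁻¹ * g, ?_, mul_inv_cancel_left g0 g⟩
      change LinearEquiv.det (g0⁻¹ * g) = d
      rw [map_mul, map_inv, h0, show LinearEquiv.det g = c from hg, mul_inv, inv_inv,
        mul_comm c⁻¹ d, inv_mul_cancel_right]
  rw [← himg]
  exact (Set.ncard_image_of_injective _ (mul_right_injective g0)).symm

private theorem gl_eq_sum (n : ℕ) :
    gl K n = ∑ d : Kˣ, {g : (Fin n → K) ≃ₗ[K] (Fin n → K) | LinearEquiv.det g = d}.ncard := by
  have h1 : gl K n = Nat.card (Σ d : Kˣ,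
      {g : (Fin n → K) ≃ₗ[K] (Fin n → K) // LinearEquiv.det g = d}) :=
    Nat.card_congr (Equiv.sigmaFiberEquiv
      (fun g : (Fin n → K) ≃ₗ[K] (Fin n → K) => LinearEquiv.det g)).symm
  rw [h1, Nat.card_sigma]
  exact Finset.sum_congr rfl fun d _ => (Nat.card_coe_set_eq _)

theorem gl_pos (n : ℕ) : 0 < gl K n := by
  unfold gl
  exact Nat.card_pos

theorem gl_zero : gl K 0 = 1 := by
  unfold gl
  exact Nat.card_unique

theorem NB_zero (k : ℕ) (c : Kˣ) : NB K k 0 c = if c = 1 then 1 else 0 := by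
  have hdet : ∀ g : (Fin 0 → K) ≃ₗ[K] (Fin 0 → K), LinearEquiv.det g = 1 := by
    intro g
    have hg : g = 1 := Subsingleton.elim _ _
    rw [hg, map_one]
  have hinj : ∀ f : (Fin 0 → K) →ₗ[K] (Fin 0 → K), Function.Injective f := fun f x y _ =>
    Subsingleton.elim x y
  unfold NB GS
  by_cases hc : c = 1
  · rw [if_pos hc]
    have hs : {g : (Fin 0 → K) ≃ₗ[K] (Fin 0 → K) |
        Big k g.toLinearMap ∧ LinearEquiv.det g = c} = {1} := by
      ext g
      constructor
      · intro _
        exact Subsingleton.elim _ _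
      · intro _
        exact ⟨fun φ _ _ => hinj _, (hdet g).trans hc.symm⟩
    rw [hs, Set.ncard_singleton]
  · rw [if_neg hc]
    have hs : {g : (Fin 0 → K) ≃ₗ[K] (Fin 0 → K) |
        Big k g.toLinearMap ∧ LinearEquiv.det g = c} = ∅ := by
      ext g
      constructor
      · intro h
        exact absurd (h.2.symm.trans (hdet g)) hc
      · intro h
        exact absurd h (Set.notMem_empty _)
    rw [hs, Set.ncard_empty]

theorem card_det {n : ℕ} (hn : 1 ≤ n) (c : Kˣ) :
    {g : (Fin n → K) ≃ₗ[K] (Fin n → K) | LinearEquiv.det g = c}.ncard * (Fintype.card K - 1)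
      = gl K n := by
  rw [gl_eq_sum, Finset.sum_congr rfl (fun d _ => fib_eq K hn c d), Finset.sum_const,
    Finset.card_univ, Fintype.card_units, smul_eq_mul, mul_comm]

/-- counting in `SL_n(K)` is counting automorphisms of determinant one -/
theorem SL_ncard {n : ℕ} (P : Module.End K (Fin n → K) → Prop) :
    Nat.card {A : Matrix.SpecialLinearGroup (Fin n) K // P (Matrix.toLin' A.1)} =
      {g : (Fin n → K) ≃ₗ[K] (Fin n → K) | P g.toLinearMap ∧ LinearEquiv.det g = 1}.ncard := by
  rw [← Nat.card_coe_set_eq]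
  have hd : ∀ A : Matrix.SpecialLinearGroup (Fin n) K,
      LinearEquiv.det (Matrix.SpecialLinearGroup.toLin' A) = 1 := by
    intro A
    apply Units.ext
    rw [LinearEquiv.coe_det, Matrix.SpecialLinearGroup.toLin'_to_linearMap,
      LinearMap.det_toLin', A.2, Units.val_one]
  refine Nat.card_congr (Equiv.ofBijective (fun A =>
    ⟨Matrix.SpecialLinearGroup.toLin' A.1, A.2, hd A.1⟩) ⟨?_, ?_⟩)
  · intro A B hAB
    apply Subtype.ext
    exact Matrix.SpecialLinearGroup.toLin'_injective (congrArg Subtype.val hAB)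
  · rintro ⟨g, hP, hg⟩
    have hdet : (LinearMap.toMatrix' g.toLinearMap).det = 1 := by
      rw [LinearMap.det_toMatrix', ← LinearEquiv.coe_det, hg, Units.val_one]
    have hback : Matrix.toLin' (LinearMap.toMatrix' g.toLinearMap) = g.toLinearMap :=
      Matrix.toLin'_toMatrix' _
    refine ⟨⟨⟨LinearMap.toMatrix' g.toLinearMap, hdet⟩, ?_⟩, ?_⟩
    · change P (Matrix.toLin' (LinearMap.toMatrix' g.toLinearMap))
      rw [hback]
      exact hP
    · apply Subtype.ext
      apply LinearEquiv.toLinearMap_injective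
      exact hback

theorem card_SL {n : ℕ} (hn : 1 ≤ n) :
    Nat.card (Matrix.SpecialLinearGroup (Fin n) K) * (Fintype.card K - 1) = gl K n := by
  rw [← card_det K hn 1]
  have h1 := SL_ncard K (n := n) (fun _ => True)
  have h2 : Nat.card (Matrix.SpecialLinearGroup (Fin n) K) =
      Nat.card {A : Matrix.SpecialLinearGroup (Fin n) K // True} :=
    Nat.card_congr (Equiv.subtypeUnivEquiv (fun _ => trivial)).symm
  rw [h2, h1]
  have h3 : {g : (Fin n → K) ≃ₗ[K] (Fin n → K) | True ∧ LinearEquiv.det g = 1} =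
      {g : (Fin n → K) ≃ₗ[K] (Fin n → K) | LinearEquiv.det g = 1} := by
    ext g
    simp only [Set.mem_setOf_eq, true_and]
  rw [h3]

/-- all automorphisms counted by determinant -/
theorem sum_NB_le (k n : ℕ) : ∑ c : Kˣ, NB K k n c ≤ gl K n := by
  rw [gl_eq_sum]
  refine Finset.sum_le_sum fun c _ => ?_
  unfold NB GS
  exact Set.ncard_le_ncard (fun g hg => hg.2) (Set.toFinite _)

end Pool.Agent.PSD
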