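import Pool.Agent.PSD.Blk
import Pool.Agent.PSD.CardDet

/-!
# PSD/Grp: orders of the subgroups `HS`, `DS` and of the slice `YD`

* `h ∈ HS` iff `h = blk 1 C D`: `q^(i m)` choices of `C` (`Module.card_eq_pow_finrank`,
  `Module.finrank_linearMap` or `finrank_linearMap`), `gl K m` choices of `D`.
* `h ∈ DS` iff `h = blk A 0 D`.
* `g ∈ YD k s m c` iff `g = blk A 0 D` with `Big k D` and `det A * det D = c`; for every `D` there
  are `gl K s / (q - 1)` possible `A` (`card_det`, `s ≥ 1`).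
-/

open Polynomial

namespace Pool.Agent.PSD

variable (K : Type) [Field K] [Fintype K] [DecidableEq K]

private theorem natCard_linearMap (i m : ℕ) :
    Nat.card ((Fin m → K) →ₗ[K] (Fin i → K)) = Fintype.card K ^ (i * m) := by
  classical
  haveI : Finite ((Fin m → K) →ₗ[K] (Fin i → K)) := Finite.of_injective
    (fun g : (Fin m → K) →ₗ[K] (Fin i → K) => (g : (Fin m → K) → (Fin i → K)))
    fun _ _ h => LinearMap.ext (congrFun h)
  haveI := Fintype.ofFinite ((Fin m → K) →ₗ[K] (Fin i → K))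
  rw [Nat.card_eq_fintype_card, Module.card_eq_pow_finrank (K := K), Module.finrank_linearMap]
  simp [Nat.mul_comm]

private theorem mem_HS_iff (i m : ℕ)
    (g : ((Fin i → K) × (Fin m → K)) ≃ₗ[K] ((Fin i → K) × (Fin m → K))) :
    g ∈ HS K i m ↔ ∃ (C : (Fin m → K) →ₗ[K] (Fin i → K)) (D : (Fin m → K) ≃ₗ[K] (Fin m → K)),
      g = blk 1 C D := by
  constructor
  · intro h
    have h' : ∀ u : Fin i → K, g (u, 0) = (u, 0) := h
    obtain ⟨A, C, D, hg⟩ := exists_blk g (fun u => by rw [h' u])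
    refine ⟨C, D, ?_⟩
    have hA : A = 1 := by
      ext1 u
      have h1 := h' u
      rw [hg, blk_apply] at h1
      have h2 := congrArg Prod.fst h1
      simpa using h2
    rw [hg, hA]
  · rintro ⟨C, D, rfl⟩
    show ∀ u : Fin i → K, blk 1 C D (u, 0) = (u, 0)
    intro u
    rw [blk_apply]
    simp

theorem card_HS (i m : ℕ) : Nat.card (HS K i m) = Fintype.card K ^ (i * m) * gl K m := by
  let F : ((Fin m → K) →ₗ[K] (Fin i → K)) × ((Fin m → K) ≃ₗ[K] (Fin m → K)) → HS K i m :=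
    fun x => ⟨blk 1 x.1 x.2, (mem_HS_iff K i m _).2 ⟨x.1, x.2, rfl⟩⟩
  have hF : Function.Bijective F := by
    constructor
    · rintro ⟨C, D⟩ ⟨C', D'⟩ h
      have h1 : blk 1 C D = blk 1 C' D' := congrArg Subtype.val h
      obtain ⟨-, h2, h3⟩ := blk_inj h1
      rw [h2, h3]
    · rintro ⟨g, hg⟩
      obtain ⟨C, D, rfl⟩ := (mem_HS_iff K i m _).1 hg
      exact ⟨(C, D), rfl⟩
  rw [← Nat.card_congr (Equiv.ofBijective F hF), Nat.card_prod, natCard_linearMap]
  rfl

theorem mem_DS_iff (s m : ℕ)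
    (g : ((Fin s → K) × (Fin m → K)) ≃ₗ[K] ((Fin s → K) × (Fin m → K))) :
    g ∈ DS K s m ↔ ∃ (A : (Fin s → K) ≃ₗ[K] (Fin s → K)) (D : (Fin m → K) ≃ₗ[K] (Fin m → K)),
      g = blk A 0 D := by
  constructor
  · rintro ⟨h1, h2, -, -⟩
    obtain ⟨A, C, D, hg⟩ := exists_blk g h1
    refine ⟨A, D, ?_⟩
    have hC : C = 0 := by
      refine LinearMap.ext fun w => ?_
      have h3 := h2 w
      rw [hg, blk_apply] at h3
      simpa using h3
    rw [hg, hC]
  · rintro ⟨A, D, rfl⟩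
    have hinv : (blk A 0 D)⁻¹ = blk A⁻¹ 0 D⁻¹ := by
      rw [inv_eq_iff_mul_eq_one]
      ext1 ⟨u, w⟩
      show blk A 0 D (blk A⁻¹ 0 D⁻¹ (u, w)) = (u, w)
      rw [blk_apply, blk_apply]
      have e1 : A (A⁻¹ u) = u := LinearEquiv.apply_symm_apply A u
      have e2 : D (D⁻¹ w) = w := LinearEquiv.apply_symm_apply D w
      simp only [LinearMap.zero_apply, add_zero, e1, e2]
    refine ⟨fun u => ?_, fun w => ?_, fun u => ?_, fun w => ?_⟩
    · rw [blk_apply]; simp
    · rw [blk_apply]; simp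
    · rw [hinv, blk_apply]; simp
    · rw [hinv, blk_apply]; simp

theorem card_DS (s m : ℕ) : Nat.card (DS K s m) = gl K s * gl K m := by
  let F : ((Fin s → K) ≃ₗ[K] (Fin s → K)) × ((Fin m → K) ≃ₗ[K] (Fin m → K)) → DS K s m :=
    fun x => ⟨blk x.1 0 x.2, (mem_DS_iff K s m _).2 ⟨x.1, x.2, rfl⟩⟩
  have hF : Function.Bijective F := by
    constructor
    · rintro ⟨C, D⟩ ⟨C', D'⟩ h
      have h1 : blk C 0 D = blk C' 0 D' := congrArg Subtype.val h
      obtain ⟨h2, -, h3⟩ := blk_inj h1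
      rw [h2, h3]
    · rintro ⟨g, hg⟩
      obtain ⟨C, D, rfl⟩ := (mem_DS_iff K s m _).1 hg
      exact ⟨(C, D), rfl⟩
  rw [← Nat.card_congr (Equiv.ofBijective F hF), Nat.card_prod]
  rfl

theorem ncard_YD {s : ℕ} (hs : 1 ≤ s) (k m : ℕ) (c : Kˣ) :
    (YD K k s m c).ncard * (Fintype.card K - 1) = gl K s * ∑ a : Kˣ, NB K k m a := by
  classical
  -- YD is in bijection with the sigma type of pairs (a, (A, D)), det D = a, det A = c / a
  let T : Type := Σ a : Kˣ, ({g : (Fin s → K) ≃ₗ[K] (Fin s → K) | LinearEquiv.det g = c * a⁻¹} ×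
    (GS K (Fin m → K) k a))
  let F : T → YD K k s m c := fun x => ⟨blk x.2.1.1 0 x.2.2.1, by
    obtain ⟨a, ⟨A, hA⟩, ⟨D, hD1, hD2⟩⟩ := x
    refine ⟨(mem_DS_iff K s m _).2 ⟨A, D, rfl⟩, ?_, ?_⟩
    · intro φ hφ hdeg w hw
      rw [blk_aeval_zero] at hw
      have h1 : aeval D.toLinearMap φ w = 0 := congrArg Prod.snd hw
      exact hD1 φ hφ hdeg (by rw [h1, map_zero])
    · rw [blk_det]
      have hA' : LinearEquiv.det A = c * a⁻¹ := hA
      have hD' : LinearEquiv.det D = a := hD2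
      rw [hA', hD']
      group⟩
  have hF : Function.Bijective F := by
    constructor
    · rintro ⟨a, ⟨A, hA⟩, ⟨D, hD1, hD2⟩⟩ ⟨a', ⟨A', hA'⟩, ⟨D', hD1', hD2'⟩⟩ h
      have h1 : blk A 0 D = blk A' 0 D' := congrArg Subtype.val h
      obtain ⟨h2, -, h3⟩ := blk_inj h1
      subst h2
      subst h3
      have h4 : a = a' := hD2.symm.trans hD2'
      subst h4
      rfl
    · rintro ⟨g, hg1, hg2, hg3⟩
      obtain ⟨A, D, rfl⟩ := (mem_DS_iff K s m _).1 hg1
      rw [blk_det] at hg3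
      refine ⟨⟨LinearEquiv.det D, ⟨A, ?_⟩, ⟨D, ?_, rfl⟩⟩, rfl⟩
      · show LinearEquiv.det A = c * (LinearEquiv.det D)⁻¹
        rw [← hg3]
        group
      · intro φ hφ hdeg
        rw [injective_iff_map_eq_zero]
        intro w hw
        refine hg2 φ hφ hdeg w ?_
        rw [blk_aeval_zero, hw, map_zero]
        rfl
  have hfin1 : Finite ((Fin s → K) ≃ₗ[K] (Fin s → K)) := inferInstance
  have hfin2 : Finite ((Fin m → K) ≃ₗ[K] (Fin m → K)) := inferInstance
  have hcard : (YD K k s m c).ncard = ∑ a : Kˣ,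
      {g : (Fin s → K) ≃ₗ[K] (Fin s → K) | LinearEquiv.det g = c * a⁻¹}.ncard * NB K k m a := by
    rw [← Nat.card_coe_set_eq, ← Nat.card_congr (Equiv.ofBijective F hF)]
    rw [Nat.card_sigma]
    refine Finset.sum_congr rfl fun a _ => ?_
    rw [Nat.card_prod, Nat.card_coe_set_eq, Nat.card_coe_set_eq]
    rfl
  rw [hcard, Finset.sum_mul, Finset.mul_sum]
  refine Finset.sum_congr rfl fun a _ => ?_
  rw [mul_right_comm, card_det K hs]

end Pool.Agent.PSD
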