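import Mathlib

/-!
# PSD/Orbit: counting a union of orbits through a slice

`G` acts on `α`; `X` is a `G`-stable subset, `Y ⊆ X` meets every orbit in `X`, and `H` is a
subgroup such that two points `y, g y` of `Y` are related only by `g ∈ H`, and `H Y ⊆ Y`.  Then
`|X| |H| = |G| |Y|`.

Proof: the map `G × Y → X`, `(g, y) ↦ g y` is onto, and the fibre over `g₀ y₀` is
`{(g, g⁻¹ g₀ y₀) | g⁻¹ g₀ ∈ H}`, which has `|H|` elements.  For instance show that
`H × X`-many... `Nat.card (G × Y) = ∑ x ∈ X, |fibre|` with `Finset.card_eq_sum_card_fiberwise`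
or via an explicit equivalence `(x : X) × H ≃ G × Y` after choosing `(g₀, y₀)` for every `x`:
`(x, h) ↦ (g₀ h⁻¹, h y₀)`.
-/

namespace Pool.Agent.PSD

theorem orbit_count {G α : Type} [Group G] [Finite G] [Finite α] (act : G → α → α)
    (act_one : ∀ x, act 1 x = x) (act_mul : ∀ g h x, act (g * h) x = act g (act h x))
    (X Y : Set α) (H : Subgroup G) (hYX : Y ⊆ X)
    (hX : ∀ g : G, ∀ x ∈ X, act g x ∈ X)
    (hXY : ∀ x ∈ X, ∃ g : G, ∃ y ∈ Y, act g y = x)
    (hH : ∀ g : G, ∀ y ∈ Y, act g y ∈ Y → g ∈ H)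
    (hHY : ∀ h ∈ H, ∀ y ∈ Y, act h y ∈ Y) :
    X.ncard * Nat.card H = Nat.card G * Y.ncard := by
  classical
  choose g0 y0 hy0 hg0 using hXY
  have inv_act : ∀ (g : G) (x : α), act g⁻¹ (act g x) = x := fun g x => by
    rw [← act_mul, inv_mul_cancel, act_one]
  have act_inv : ∀ (g : G) (x : α), act g (act g⁻¹ x) = x := fun g x => by
    rw [← act_mul, mul_inv_cancel, act_one]
  have key : ∀ (g : G) (y : α) (hy : y ∈ Y) (x : α) (hx : x ∈ X), act g y = x →
      act (g⁻¹ * g0 x hx) (y0 x hx) = y ∧ g⁻¹ * g0 x hx ∈ H := by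
    intro g y hy x hx hgy
    have h1 : act (g⁻¹ * g0 x hx) (y0 x hx) = y := by
      rw [act_mul, hg0 x hx, ← hgy, inv_act]
    exact ⟨h1, hH _ _ (hy0 x hx) (by rw [h1]; exact hy)⟩
  let e : X × H ≃ G × Y :=
    { toFun := fun p => (g0 p.1.1 p.1.2 * (p.2.1)⁻¹, ⟨act p.2.1 (y0 p.1.1 p.1.2),
        hHY _ p.2.2 _ (hy0 p.1.1 p.1.2)⟩)
      invFun := fun p => (⟨act p.1 p.2.1, hX _ _ (hYX p.2.2)⟩,
        ⟨p.1⁻¹ * g0 (act p.1 p.2.1) (hX _ _ (hYX p.2.2)),
          (key p.1 p.2.1 p.2.2 _ (hX _ _ (hYX p.2.2)) rfl).2⟩)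
      left_inv := by
        rintro ⟨⟨x, hx⟩, ⟨h, hh⟩⟩
        have h1 : act (g0 x hx * h⁻¹) (act h (y0 x hx)) = x := by
          rw [act_mul, inv_act, hg0 x hx]
        ext1
        · exact Subtype.ext h1
        · apply Subtype.ext
          have h2 : ∀ (x' : α) (hx' : x' ∈ X), x' = x →
              (g0 x hx * h⁻¹)⁻¹ * g0 x' hx' = h := by
            rintro x' hx' rfl
            group
          exact h2 _ _ h1
      right_inv := by
        rintro ⟨g, ⟨y, hy⟩⟩
        have h1 := (key g y hy _ (hX _ _ (hYX hy)) rfl).1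
        ext1
        · show g0 (act g y) _ * (g⁻¹ * g0 (act g y) _)⁻¹ = g
          group
        · exact Subtype.ext h1 }
  have h := Nat.card_congr e
  rw [Nat.card_prod, Nat.card_prod] at h
  exact h

end Pool.Agent.PSD
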