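import Pool.Agent.PSD.Blk
import Pool.Agent.PSD.CardDet
import Pool.Agent.PSD.Comp

/-!
# PSD/YCard: size of the slice `YG`

`g ∈ YG K k i m c` iff `g = blk A C D` with `IsComp A`, `Big k A`, `Big k D`, `C` arbitrary and
`det A * det D = c`.  So `(A, C, D) ↦ blk A C D` is a bijection from
`⋃_a {A : IsComp A, Big k A, det A = a} × (K^m →ₗ K^i) × GS K (Fin m → K) k (a⁻¹ c)` onto `YG`;
the sizes are `PM K k i a` (`comp_card`), `q^(i m)`, `NB K k m (a⁻¹ c)`.
-/

open Polynomial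

namespace Pool.Agent.PSD

variable (K : Type) [Field K] [Fintype K] [DecidableEq K]

theorem ncard_YG {i : ℕ} (hi : 1 ≤ i) (k m : ℕ) (c : Kˣ) :
    (YG K k i m c).ncard =
      Fintype.card K ^ (i * m) * ∑ a : Kˣ, PM K k i a * NB K k m (a⁻¹ * c) := by
  classical
  let SA : Kˣ → Set ((Fin i → K) ≃ₗ[K] (Fin i → K)) := fun a =>
    {A | IsComp A ∧ Big k A.toLinearMap ∧ LinearEquiv.det A = a}
  have hfin : Finite ((Fin m → K) →ₗ[K] (Fin i → K)) :=
    Finite.of_injective (fun g : (Fin m → K) →ₗ[K] (Fin i → K) => (g : (Fin m → K) → (Fin i → K)))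
      fun _ _ h => LinearMap.ext (congrFun h)
  let F : (Σ a : Kˣ, (SA a) × ((Fin m → K) →ₗ[K] (Fin i → K)) ×
      (GS K (Fin m → K) k (a⁻¹ * c))) → YG K k i m c := fun x =>
    ⟨blk x.2.1.1 x.2.2.1 x.2.2.2.1, by
      obtain ⟨a, ⟨A, hA⟩, C, ⟨D, hD⟩⟩ := x
      obtain ⟨hA1, hA2, hA3⟩ := hA
      obtain ⟨hD1, hD2⟩ := hD
      refine ⟨⟨?_, ?_⟩, (blk_big k A C D).2 ⟨hA2, hD1⟩, ?_⟩
      · intro u
        rw [blk_apply]
        exact map_zero D
      · intro b hb
        rw [blk_apply, hA1 b hb, map_zero, map_zero, add_zero]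
      · rw [blk_det]
        change LinearEquiv.det A * LinearEquiv.det D = c
        rw [hA3, hD2, mul_inv_cancel_left]⟩
  have hF : Function.Bijective F := by
    constructor
    · rintro ⟨a, ⟨A, hA⟩, C, ⟨D, hD⟩⟩ ⟨a', ⟨A', hA'⟩, C', ⟨D', hD'⟩⟩ h
      have h1 : blk A C D = blk A' C' D' := congrArg Subtype.val h
      obtain ⟨h2, h3, h4⟩ := blk_inj h1
      have h5 : a = a' := by rw [← hA.2.2, ← hA'.2.2, h2]
      subst h5 h2 h3 h4
      rfl
    · rintro ⟨g, ⟨hg1, hg2⟩, hg3, hg4⟩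
      obtain ⟨A, C, D, rfl⟩ := exists_blk g hg1
      obtain ⟨hA, hD⟩ := (blk_big k A C D).1 hg3
      refine ⟨⟨LinearEquiv.det A, ⟨A, ?_, hA, rfl⟩, C, ⟨D, hD, ?_⟩⟩, rfl⟩
      · intro b hb
        have h1 := hg2 b hb
        rw [blk_apply, map_zero, map_zero, add_zero] at h1
        exact congrArg Prod.fst h1
      · rw [blk_det] at hg4
        rw [← hg4, inv_mul_cancel_left]
  have hC : Nat.card ((Fin m → K) →ₗ[K] (Fin i → K)) = Fintype.card K ^ (i * m) := by
    rw [Module.natCard_eq_pow_finrank (K := K), Module.finrank_linearMap, Module.finrank_fin_fun,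
      Module.finrank_fin_fun, Nat.card_eq_fintype_card, mul_comm]
  rw [← Nat.card_coe_set_eq, ← Nat.card_congr (Equiv.ofBijective F hF), Nat.card_sigma,
    Finset.mul_sum]
  refine Finset.sum_congr rfl fun a _ => ?_
  have h1 : Nat.card (SA a) = PM K k i a := by
    rw [Nat.card_coe_set_eq]
    exact comp_card K hi k a
  have h2 : Nat.card (GS K (Fin m → K) k (a⁻¹ * c)) = NB K k m (a⁻¹ * c) := by
    rw [Nat.card_coe_set_eq]
    rfl
  rw [Nat.card_prod, Nat.card_prod, h1, h2, hC]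
  ring

end Pool.Agent.PSD
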