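import Pool.Agent.PSD.Conj
import Pool.Agent.PSD.Orbit
import Pool.Agent.PSD.Grp
import Pool.Agent.PSD.Cyc
import Pool.Agent.PSD.YCard

/-!
# PSD/XsCount: the number of pairs with cyclic subspace of dimension `i`

Write `n = i + m`, `V = K^i × K^m` (`ncard_XS_congr` with an isomorphism
`(Fin (i + m) → K) ≃ₗ (Fin i → K) × (Fin m → K)`, e.g. `LinearEquiv.ofFinrankEq`).  Apply
`orbit_count` with `G = V ≃ₗ V`, `α = (V ≃ₗ V) × V`, `act h (g, v) = (cj h g, h v)`,
`X = XS K V k i c`, `Y = {(g, v) | g ∈ YG K k i m c, v = (ee K i 0, 0)}`, `H = HS K i m`.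
* `Y ⊆ X`: `cyc_comp2`;
* `X` is stable: `big_cj`, `det_cj`, `cyc_cj`;
* every `x ∈ X` is in an orbit of `Y`: `cyc_nf` gives `e : V ≃ₗ V` with `(cj e g, e v) ∈ Y`;
* if `y = (g, e_0) ∈ Y` and `(cj h g, h e_0) ∈ Y` then `h (e_0, 0) = (e_0, 0)` and
  `h (e_{a+1}, 0) = h g (e_a, 0) = (cj h g) (h (e_a, 0)) = (cj h g) (e_a, 0) = (e_{a+1}, 0)`, so `h`
  fixes `K^i × 0` pointwise (the `ee K i a`, `a < i`, span it);
* `H Y ⊆ Y`: direct.
Then divide `X.ncard * (q^(i m) * gl K m) = gl * (q^(i m) * ∑ ...)` by `q^(i m)`, with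
`card_aut_congr` for `|GL(V)| = gl K (i + m)`.
-/

open Polynomial

namespace Pool.Agent.PSD

variable (K : Type) [Field K] [Fintype K] [DecidableEq K]

private theorem comp_aut_finrank (i m : ℕ) :
    Module.finrank K ((Fin i → K) × (Fin m → K)) = i + m := by
  rw [Module.finrank_prod, Module.finrank_fin_fun, Module.finrank_fin_fun]

private theorem sum_ee {i : ℕ} (u : Fin i → K) : u = ∑ a : Fin i, u a • ee K i a.1 := by
  funext j
  rw [Finset.sum_apply, Finset.sum_eq_single j]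
  · simp [ee]
  · intro b _ hb
    have h : j.1 ≠ b.1 := fun h => hb (Fin.ext h.symm)
    simp [ee, h]
  · intro h
    exact absurd (Finset.mem_univ j) h

private theorem fix_of_ee {i m : ℕ}
    (h : ((Fin i → K) × (Fin m → K)) ≃ₗ[K] ((Fin i → K) × (Fin m → K)))
    (hh : ∀ a : ℕ, a < i → h (ee K i a, 0) = (ee K i a, 0)) (u : Fin i → K) :
    h (u, 0) = (u, 0) := by
  have h1 : ((u, 0) : (Fin i → K) × (Fin m → K)) =
      ∑ a : Fin i, u a • ((ee K i a.1, 0) : (Fin i → K) × (Fin m → K)) := by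
    apply Prod.ext
    · rw [Prod.fst_sum]
      exact sum_ee K u
    · rw [Prod.snd_sum]
      simp
  rw [h1, map_sum]
  refine Finset.sum_congr rfl fun a _ => ?_
  rw [map_smul, hh a.1 a.2]

theorem ncard_XS {i m : ℕ} (hi : 1 ≤ i) (k : ℕ) (c : Kˣ) :
    (XS K (Fin (i + m) → K) k i c).ncard * gl K m =
      gl K (i + m) * ∑ a : Kˣ, PM K k i a * NB K k m (a⁻¹ * c) := by
  classical
  let V := (Fin i → K) × (Fin m → K)
  have hV : Module.finrank K V = i + m := comp_aut_finrank K i m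
  let e : (Fin (i + m) → K) ≃ₗ[K] V :=
    LinearEquiv.ofFinrankEq _ _ (by rw [hV, Module.finrank_fin_fun])
  have hfin : Finite V := inferInstance
  let act : (V ≃ₗ[K] V) → ((V ≃ₗ[K] V) × V) → ((V ≃ₗ[K] V) × V) :=
    fun h x => (cj h x.1, h x.2)
  let Y : Set ((V ≃ₗ[K] V) × V) :=
    (fun g : V ≃ₗ[K] V => (g, ((ee K i 0, 0) : V))) '' YG K k i m c
  have key : (XS K V k i c).ncard * Nat.card (HS K i m) =
      Nat.card (V ≃ₗ[K] V) * Y.ncard := by
    refine orbit_count (G := V ≃ₗ[K] V) (α := (V ≃ₗ[K] V) × V) act ?_ ?_ (XS K V k i c) Y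
      (HS K i m) ?_ ?_ ?_ ?_ ?_
    · rintro ⟨g, v⟩
      rfl
    · rintro g h ⟨f, v⟩
      rfl
    · rintro x ⟨g, hg, rfl⟩
      exact ⟨hg.2.1, hg.2.2, cyc_comp2 hi g hg.1⟩
    · rintro g ⟨f, v⟩ ⟨h1, h2, h3⟩
      refine ⟨(big_cj k g f).2 h1, (det_cj g f).trans h2, ?_⟩
      change Module.finrank K (cyc (cj g f).toLinearMap (g v)) = i
      rw [cyc_cj]
      exact (LinearEquiv.finrank_map_eq g _).trans h3
    · rintro ⟨f, v⟩ ⟨h1, h2, h3⟩
      obtain ⟨e', he1, he2⟩ := cyc_nf f v hi hV h3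
      refine ⟨e'⁻¹, act e' (f, v), ⟨cj e' f, ⟨he2, (big_cj k e' f).2 h1,
        (det_cj e' f).trans h2⟩, ?_⟩, ?_⟩
      · change (cj e' f, ((ee K i 0, 0) : V)) = (cj e' f, e' v)
        rw [he1]
      · change (cj e'⁻¹ (cj e' f), e'⁻¹ (e' v)) = (f, v)
        apply Prod.ext
        · change cj e'⁻¹ (cj e' f) = f
          rw [cj_eq_mul, cj_eq_mul]
          group
        · exact LinearEquiv.symm_apply_apply e' v
    · rintro h y ⟨g, hg, rfl⟩ ⟨g', hg', hgg⟩
      have h1 : g' = cj h g := congrArg Prod.fst hgg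
      have h2 : ((ee K i 0, 0) : V) = h (ee K i 0, 0) := congrArg Prod.snd hgg
      subst h1
      refine fix_of_ee K h fun a => ?_
      induction a with
      | zero => intro _; exact h2.symm
      | succ a ih =>
        intro ha
        have h3 := ih (by omega)
        have h4 : g (ee K i a, 0) = (ee K i (a + 1), 0) := hg.1.2 a ha
        have h5 : cj h g (ee K i a, 0) = (ee K i (a + 1), 0) := hg'.1.2 a ha
        have h6 : h.symm (ee K i a, 0) = (ee K i a, 0) := by
          rw [LinearEquiv.symm_apply_eq, h3]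
        rw [cj_apply, h6, h4] at h5
        exact h5
    · rintro h hh y ⟨g, hg, rfl⟩
      have hfix : ∀ u : Fin i → K, h (u, 0) = (u, 0) := hh
      have hsymm : ∀ u : Fin i → K, h.symm (u, 0) = (u, 0) := fun u => by
        rw [LinearEquiv.symm_apply_eq, hfix u]
      have hcj : ∀ u : Fin i → K, cj h g (u, 0) = g (u, 0) := fun u => by
        have h7 : g (u, (0 : Fin m → K)) = ((g (u, 0)).1, 0) := Prod.ext rfl (hg.1.1 u)
        rw [cj_apply, hsymm u, h7, hfix]
      refine ⟨cj h g, ⟨⟨fun u => ?_, fun a ha => ?_⟩, (big_cj k h g).2 hg.2.1,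
        (det_cj h g).trans hg.2.2⟩, ?_⟩
      · rw [hcj u]
        exact hg.1.1 u
      · rw [hcj]
        exact hg.1.2 a ha
      · change (cj h g, ((ee K i 0, 0) : V)) = (cj h g, h (ee K i 0, 0))
        rw [hfix]
  have hY : Y.ncard = (YG K k i m c).ncard := by
    apply Set.ncard_image_of_injective
    intro g g' hgg
    exact congrArg Prod.fst hgg
  have hq : 0 < Fintype.card K ^ (i * m) := pow_pos Fintype.card_pos _
  rw [hY, card_HS, ncard_YG K hi, ← ncard_XS_congr e, ← card_aut_congr e] at key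
  have key2 : Fintype.card K ^ (i * m) * ((XS K (Fin (i + m) → K) k i c).ncard * gl K m) =
      Fintype.card K ^ (i * m) *
        (gl K (i + m) * ∑ a : Kˣ, PM K k i a * NB K k m (a⁻¹ * c)) := by
    have h8 : Nat.card ((Fin (i + m) → K) ≃ₗ[K] (Fin (i + m) → K)) = gl K (i + m) := rfl
    rw [h8] at key
    linear_combination key
  exact Nat.eq_of_mul_eq_mul_left hq key2

end Pool.Agent.PSD
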