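import Pool.Agent.PSD.Defs

/-!
# PSD/Dual: duality

A matrix has an invariant subspace of dimension `k` if and only if its transpose has one of
dimension `n - k` (the orthogonal complement for the dot product).
-/

open Polynomial

namespace Pool.Agent.PSD

private theorem inv_transpose {K : Type} [Field K] {n k : ℕ} (A : Matrix (Fin n) (Fin n) K)
    (h : NoInv (n - k) (Matrix.toLin' A.transpose)) : NoInv k (Matrix.toLin' A) := by
  intro S hS hinv
  set B : LinearMap.BilinForm K (Fin n → K) :=
    Matrix.toBilin' (1 : Matrix (Fin n) (Fin n) K) with hB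
  have hBn : B.Nondegenerate := Matrix.Nondegenerate.toBilin'
    (Matrix.nondegenerate_of_det_ne_zero (by rw [Matrix.det_one]; exact one_ne_zero))
  have hBa : ∀ x y, B x y = dotProduct x y := by
    intro x y
    rw [hB, Matrix.toBilin'_apply', Matrix.one_mulVec]
  refine h (B.orthogonal S) ?_ ?_
  · rw [LinearMap.BilinForm.finrank_orthogonal hBn, hS]
    simp
  · intro y hy
    rw [Submodule.mem_comap, LinearMap.BilinForm.mem_orthogonal_iff]
    intro x hx
    have h1 : B (Matrix.toLin' A x) y = 0 :=
      (LinearMap.BilinForm.mem_orthogonal_iff.1 hy) _ (hinv hx)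
    rw [hBa, Matrix.toLin'_apply] at h1
    change B x (Matrix.toLin' A.transpose y) = 0
    rw [hBa, Matrix.toLin'_apply, Matrix.dotProduct_mulVec, Matrix.vecMul_transpose]
    exact h1

private theorem noInv_transpose {K : Type} [Field K] {n k : ℕ} (hkn : k ≤ n)
    (A : Matrix (Fin n) (Fin n) K) :
    NoInv k (Matrix.toLin' A) ↔ NoInv (n - k) (Matrix.toLin' A.transpose) := by
  constructor
  · intro h
    refine inv_transpose (k := n - k) A.transpose ?_
    rw [Matrix.transpose_transpose, Nat.sub_sub_self hkn]
    exact h
  · exact inv_transpose A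

theorem noInv_dual (K : Type) [Field K] [Finite K] {k n : ℕ} (hkn : k ≤ n) :
    Nat.card {A : Matrix.SpecialLinearGroup (Fin n) K // NoInv k (Matrix.toLin' A.1)} =
      Nat.card {A : Matrix.SpecialLinearGroup (Fin n) K // NoInv (n - k) (Matrix.toLin' A.1)} := by
  refine Nat.card_congr
    { toFun := fun A => ⟨A.1.transpose, ?_⟩
      invFun := fun A => ⟨A.1.transpose, ?_⟩
      left_inv := ?_
      right_inv := ?_ }
  · have h1 : (A.1.transpose).1 = A.1.1.transpose := rfl
    rw [h1]
    exact (noInv_transpose hkn _).1 A.2
  · have h1 : (A.1.transpose).1 = A.1.1.transpose := rfl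
    rw [h1]
    refine (noInv_transpose hkn _).2 ?_
    rw [Matrix.transpose_transpose]
    exact A.2
  · intro A
    apply Subtype.ext
    apply Subtype.ext
    exact Matrix.transpose_transpose _
  · intro A
    apply Subtype.ext
    apply Subtype.ext
    exact Matrix.transpose_transpose _

end Pool.Agent.PSD
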