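import Pool.Agent.PSD.F2

/-!
# PSD/NoInvCount: lower bound for the number of `A ∈ SL_n` without invariant `k`-space

The sets `GS K V k 1` and `IS K V k s 1`, `1 ≤ s < k` (`V = Fin n → K`), are pairwise disjoint
(`inS_disjoint`, `big_iff_inS`), and all their elements are `NoInv k` (`inS_noInv`).  By `SL_ncard`
the right hand side is the number of automorphisms of `V` with `NoInv k` and determinant one, and
`|SL_n| (q - 1) = gl K n` (`card_SL`), so that
`sl K k n * |SL_n| = NB K k n 1 = |GS K V k 1|` and, by `ncard_IS`,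
`bb K k (n - s) * |SL_n| = |IS K V k s 1|`.
-/

open Polynomial

namespace Pool.Agent.PSD

variable (K : Type) [Field K] [Fintype K] [DecidableEq K]

omit [Field K] [Fintype K] [DecidableEq K] in
private theorem sum_ncard_le {α : Type} [Finite α] (t : Finset ℕ) (f : ℕ → Set α)
    (hd : ∀ s ∈ t, ∀ s' ∈ t, s ≠ s' → Disjoint (f s) (f s')) (Z : Set α)
    (hZ : ∀ s ∈ t, f s ⊆ Z) : ∑ s ∈ t, (f s).ncard ≤ Z.ncard := by
  classical
  have h1 : ∀ u : Finset ℕ, u ⊆ t → ∑ s ∈ u, (f s).ncard = (⋃ s ∈ u, f s).ncard := by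
    intro u
    induction u using Finset.induction_on with
    | empty => intro _; simp
    | insert a u ha ih =>
      intro hu
      rw [Finset.sum_insert ha, ih fun x hx => hu (Finset.mem_insert_of_mem hx),
        Finset.set_biUnion_insert, Set.ncard_union_eq _ (Set.toFinite _) (Set.toFinite _)]
      rw [Set.disjoint_iUnion₂_right]
      intro s hs
      exact hd a (hu (Finset.mem_insert_self a u)) s (hu (Finset.mem_insert_of_mem hs))
        (fun h => ha (h ▸ hs))
  rw [h1 t subset_rfl]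
  exact Set.ncard_le_ncard (Set.iUnion₂_subset hZ) (Set.toFinite _)

private theorem sl_mul {k n : ℕ} (hn : 1 ≤ n) :
    sl K k n * (Nat.card (Matrix.SpecialLinearGroup (Fin n) K) : ℝ) =
      ((GS K (Fin n → K) k 1).ncard : ℝ) := by
  have hq : 1 < Fintype.card K := Fintype.one_lt_card
  have h2 := card_SL K hn
  have h3 : (Nat.card (Matrix.SpecialLinearGroup (Fin n) K) : ℝ) * ((Fintype.card K : ℝ) - 1) =
      (gl K n : ℝ) := by
    rw [← h2]
    push_cast [Nat.cast_sub hq.le]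
    ring
  have h4 : (0 : ℝ) < (gl K n : ℝ) := by exact_mod_cast gl_pos K n
  unfold sl NB
  rw [div_mul_eq_mul_div, div_eq_iff h4.ne', ← h3]
  ring

private theorem bb_mul {k s n : ℕ} (hs : 1 ≤ s) (hsk : s ≤ k) (hsn : s ≤ n) :
    bb K k (n - s) * (Nat.card (Matrix.SpecialLinearGroup (Fin n) K) : ℝ) =
      ((IS K (Fin n → K) k s 1).ncard : ℝ) := by
  obtain ⟨m, rfl⟩ := Nat.exists_eq_add_of_le hsn
  rw [Nat.add_sub_cancel_left]
  have hq : 1 < Fintype.card K := Fintype.one_lt_card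
  have hq' : (0 : ℝ) < (Fintype.card K : ℝ) - 1 := by
    have : (1 : ℝ) < (Fintype.card K : ℝ) := by exact_mod_cast hq
    linarith
  have h2 := card_SL K (n := s + m) (by omega)
  have h3 : (Nat.card (Matrix.SpecialLinearGroup (Fin (s + m)) K) : ℝ) *
      ((Fintype.card K : ℝ) - 1) = (gl K (s + m) : ℝ) := by
    rw [← h2]
    push_cast [Nat.cast_sub hq.le]
    ring
  have h4 : (0 : ℝ) < (gl K m : ℝ) := by exact_mod_cast gl_pos K m
  have h5 := ncard_IS K (m := m) hs hsk (1 : Kˣ)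
  have h6 : ((IS K (Fin (s + m) → K) k s 1).ncard : ℝ) *
      ((gl K m : ℝ) * ((Fintype.card K : ℝ) - 1)) =
      (gl K (s + m) : ℝ) * ∑ a : Kˣ, (NB K k m a : ℝ) := by
    have h7 : (((IS K (Fin (s + m) → K) k s 1).ncard * (gl K m * (Fintype.card K - 1)) : ℕ) : ℝ) =
        ((gl K (s + m) * ∑ a : Kˣ, NB K k m a : ℕ) : ℝ) := by rw [h5]
    push_cast [Nat.cast_sub hq.le] at h7
    exact h7
  unfold bb
  rw [div_mul_eq_mul_div, div_eq_iff h4.ne']
  have h8 : ((Fintype.card K : ℝ) - 1) ≠ 0 := hq'.ne'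
  apply mul_right_cancel₀ h8
  rw [mul_assoc, h3, mul_assoc, h6]
  ring

theorem noInv_lower {k n : ℕ} (hk : 1 ≤ k) (hkn : 2 * k ≤ n) :
    (sl K k n + ∑ s ∈ Finset.Icc 1 (k - 1), bb K k (n - s)) *
        (Nat.card (Matrix.SpecialLinearGroup (Fin n) K) : ℝ) ≤
      (Nat.card {A : Matrix.SpecialLinearGroup (Fin n) K // NoInv k (Matrix.toLin' A.1)} : ℝ) := by
  classical
  have hn : 1 ≤ n := by omega
  have hV : Finite ((Fin n → K) ≃ₗ[K] (Fin n → K)) := inferInstance
  rw [SL_ncard K (NoInv k)]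
  have h0 : sl K k n * (Nat.card (Matrix.SpecialLinearGroup (Fin n) K) : ℝ) =
      ((IS K (Fin n → K) k 0 1).ncard : ℝ) := by
    have h1 : IS K (Fin n → K) k 0 1 = GS K (Fin n → K) k 1 := by
      ext g
      exact and_congr_left' (big_iff_inS k g.toLinearMap).symm
    rw [h1]
    exact sl_mul K hn
  have hs : ∀ s ∈ Finset.Icc 1 (k - 1),
      bb K k (n - s) * (Nat.card (Matrix.SpecialLinearGroup (Fin n) K) : ℝ) =
        ((IS K (Fin n → K) k s 1).ncard : ℝ) := by
    intro s hs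
    rw [Finset.mem_Icc] at hs
    exact bb_mul K hs.1 (by omega) (by omega)
  rw [add_mul, Finset.sum_mul, h0, Finset.sum_congr rfl hs]
  have hsum : ((IS K (Fin n → K) k 0 1).ncard : ℝ) +
      ∑ s ∈ Finset.Icc 1 (k - 1), ((IS K (Fin n → K) k s 1).ncard : ℝ) =
      ((∑ s ∈ Finset.range k, (IS K (Fin n → K) k s 1).ncard : ℕ) : ℝ) := by
    have h1 : Finset.range k = insert 0 (Finset.Icc 1 (k - 1)) := by
      ext s
      rw [Finset.mem_insert, Finset.mem_range, Finset.mem_Icc]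
      omega
    rw [h1, Finset.sum_insert (by simp)]
    push_cast
    rfl
  rw [hsum]
  norm_cast
  refine sum_ncard_le _ _ ?_ _ ?_
  · intro s hs s' hs' hne
    rw [Finset.mem_range] at hs hs'
    rw [Set.disjoint_left]
    intro g hg hg'
    rcases lt_or_gt_of_ne hne with h | h
    · exact inS_disjoint hg.1 hg'.1 h hs'.le
    · exact inS_disjoint hg'.1 hg.1 h hs.le
  · intro s hs g hg
    rw [Finset.mem_range] at hs
    exact ⟨inS_noInv hg.1 hs, hg.2⟩

end Pool.Agent.PSD
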