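import Pool.Agent.PSD.Defs

/-!
# PSD/Psl: from `SL_n` to permutation actions of `PSL_n`

`π : SL_n(K) → G`, `π A = e.symm (mk A)`, is a surjective homomorphism.  If `A` has no invariant
subspace of dimension `d = dim S` then `π A` has no fixed point: if `π A • x = x`, write
`x = π B • ω` (transitivity and surjectivity), so `π (B⁻¹ A B)` fixes `ω`, so `S` is invariant
under `B⁻¹ A B`, and `B S` (`S.map (toLin' B)`, of dimension `d`) is invariant under `A`.

Counting: all fibres of `π` have `|ker π|` elements, so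
`|{A : NoInv}| ≤ |π {A : NoInv}| * |ker π| ≤ |{derangements}| * |ker π|` and
`|SL_n| = |G| * |ker π|` (e.g. `Subgroup.card_eq_card_quotient_mul_card_subgroup`).
-/

open Polynomial

namespace Pool.Agent.PSD

private theorem psl_fix {n : ℕ} {K : Type} [Field K] (S : Submodule K (Fin n → K))
    (A B : Matrix.SpecialLinearGroup (Fin n) K)
    (h : ∀ x ∈ S, Matrix.toLin' (B⁻¹ * A * B).1 x ∈ S) :
    ¬ NoInv (Module.finrank K S) (Matrix.toLin' A.1) := by
  intro hA
  have h1 : ∀ (P Q : Matrix.SpecialLinearGroup (Fin n) K) (x : Fin n → K),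
      Matrix.toLin' (P * Q).1 x = Matrix.toLin' P.1 (Matrix.toLin' Q.1 x) := by
    intro P Q x
    have h2 : (P * Q).1 = P.1 * Q.1 := Matrix.SpecialLinearGroup.coe_mul P Q
    rw [h2, Matrix.toLin'_mul_apply]
  have hinj : Function.Injective (Matrix.toLin' B.1) := by
    intro x y hxy
    have h2 : ∀ z, Matrix.toLin' (B⁻¹).1 (Matrix.toLin' B.1 z) = z := by
      intro z
      rw [← h1, inv_mul_cancel]
      have h3 : (1 : Matrix.SpecialLinearGroup (Fin n) K).1 = 1 :=
        Matrix.SpecialLinearGroup.coe_one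
      rw [h3, Matrix.toLin'_one, LinearMap.id_apply]
    rw [← h2 x, hxy, h2 y]
  refine hA (S.map (Matrix.toLin' B.1)) 
    (Submodule.equivMapOfInjective _ hinj S).finrank_eq.symm ?_
  rintro _ ⟨x, hx, rfl⟩
  rw [Submodule.mem_comap, ← h1]
  have h2 : A * B = B * (B⁻¹ * A * B) := by group
  rw [h2, h1]
  exact Submodule.mem_map_of_mem (h x hx)

theorem psl_bound {n : ℕ} {K : Type} [Field K] [Finite K] {G : Type} [Group G]
    (e : G ≃* Matrix.ProjectiveSpecialLinearGroup (Fin n) K)
    {Ω : Type} [MulAction G Ω] [MulAction.IsPretransitive G Ω] (ω : Ω)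
    (S : Submodule K (Fin n → K))
    (hS : ∀ A : Matrix.SpecialLinearGroup (Fin n) K,
      e.symm (QuotientGroup.mk A) ∈ MulAction.stabilizer G ω →
        ∀ x ∈ S, Matrix.toLin' A.1 x ∈ S) :
    Nat.card {A : Matrix.SpecialLinearGroup (Fin n) K //
        NoInv (Module.finrank K S) (Matrix.toLin' A.1)} * Nat.card G ≤
      Nat.card {g : G // ∀ x : Ω, g • x ≠ x} *
        Nat.card (Matrix.SpecialLinearGroup (Fin n) K) := by
  classical
  have : Finite (Matrix.SpecialLinearGroup (Fin n) K) := by
    unfold Matrix.SpecialLinearGroup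
    infer_instance
  have : Finite (Matrix.ProjectiveSpecialLinearGroup (Fin n) K) := by
    unfold Matrix.ProjectiveSpecialLinearGroup
    infer_instance
  have : Finite G := Finite.of_equiv _ e.symm.toEquiv
  let π : Matrix.SpecialLinearGroup (Fin n) K →* G :=
    e.symm.toMonoidHom.comp (QuotientGroup.mk' (Subgroup.center _))
  have hπ : ∀ A, π A = e.symm (QuotientGroup.mk A) := fun A => rfl
  have hsurj : Function.Surjective π :=
    e.symm.surjective.comp (QuotientGroup.mk'_surjective (Subgroup.center _))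
  have hder : ∀ A : Matrix.SpecialLinearGroup (Fin n) K,
      NoInv (Module.finrank K S) (Matrix.toLin' A.1) → ∀ x : Ω, π A • x ≠ x := by
    intro A hA x hx
    obtain ⟨g, rfl⟩ := MulAction.exists_smul_eq G ω x
    obtain ⟨B, rfl⟩ := hsurj g
    refine psl_fix S A B (hS (B⁻¹ * A * B) ?_) hA
    rw [← hπ, MulAction.mem_stabilizer_iff, map_mul, map_mul, mul_smul, mul_smul, hx, map_inv,
      inv_smul_smul]
  obtain ⟨s, hs⟩ := hsurj.hasRightInverse
  have hc1 : Nat.card {A : Matrix.SpecialLinearGroup (Fin n) K //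
      NoInv (Module.finrank K S) (Matrix.toLin' A.1)} ≤
      Nat.card ({g : G // ∀ x : Ω, g • x ≠ x} × π.ker) := by
    refine Nat.card_le_card_of_injective
      (fun A => (⟨π A.1, hder A.1 A.2⟩, ⟨(s (π A.1))⁻¹ * A.1, ?_⟩)) ?_
    · rw [MonoidHom.mem_ker, map_mul, map_inv, hs (π A.1), inv_mul_cancel]
    · intro A B hAB
      have h1 := congrArg (fun z => (z.1 : G)) hAB
      have h2 := congrArg (fun z => (z.2 : Matrix.SpecialLinearGroup (Fin n) K)) hAB
      simp only at h1 h2
      rw [h1] at h2
      exact Subtype.ext (mul_left_cancel h2)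
  have hc2 : Nat.card (Matrix.SpecialLinearGroup (Fin n) K) = Nat.card G * Nat.card π.ker := by
    rw [Subgroup.card_eq_card_quotient_mul_card_subgroup π.ker]
    congr 1
    exact Nat.card_congr (QuotientGroup.quotientKerEquivOfSurjective π hsurj).toEquiv
  rw [Nat.card_prod] at hc1
  calc Nat.card {A : Matrix.SpecialLinearGroup (Fin n) K //
        NoInv (Module.finrank K S) (Matrix.toLin' A.1)} * Nat.card G
      ≤ (Nat.card {g : G // ∀ x : Ω, g • x ≠ x} * Nat.card π.ker) * Nat.card G :=
        Nat.mul_le_mul_right _ hc1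
    _ = _ := by
        rw [hc2]
        ring

end Pool.Agent.PSD
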