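import Pool.Agent.PSD.Num
import Pool.Agent.PSD.NoInvCount
import Pool.Agent.PSD.Dual
import Pool.Agent.PSD.Psl

/-!
# PSD/Main: assembly (architect)
-/

open Polynomial

namespace Pool.Agent.PSD

theorem noInv_ge (K : Type) [Field K] [Finite K] {n k : ℕ} (hn : 2 ≤ n) (hk : 1 ≤ k)
    (hkn : k < n) (h23 : ¬ (n = 2 ∧ Nat.card K = 3)) :
    2 / 7 * (Nat.card (Matrix.SpecialLinearGroup (Fin n) K) : ℝ) ≤
      (Nat.card {A : Matrix.SpecialLinearGroup (Fin n) K // NoInv k (Matrix.toLin' A.1)} : ℝ) := by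
  classical
  haveI := Fintype.ofFinite K
  have hcard : Nat.card K = Fintype.card K := Nat.card_eq_fintype_card
  have key : ∀ k : ℕ, 1 ≤ k → 2 * k ≤ n →
      2 / 7 * (Nat.card (Matrix.SpecialLinearGroup (Fin n) K) : ℝ) ≤
      (Nat.card {A : Matrix.SpecialLinearGroup (Fin n) K // NoInv k (Matrix.toLin' A.1)} : ℝ) := by
    intro k hk hkn
    refine le_trans ?_ (noInv_lower K hk hkn)
    apply mul_le_mul_of_nonneg_right _ (Nat.cast_nonneg _)
    apply total_ge K hk hkn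
    rintro ⟨h1, h2⟩
    exact h23 ⟨h1, hcard.trans h2⟩
  by_cases h : 2 * k ≤ n
  · exact key k hk h
  · rw [noInv_dual K (le_of_lt hkn)]
    exact key (n - k) (by omega) (by omega)

theorem main {n : ℕ} (hn : 2 ≤ n) {K : Type} [Field K] [Finite K]
    (h23 : ¬ (n = 2 ∧ Nat.card K = 3)) {G : Type} [Group G]
    (e : G ≃* Matrix.ProjectiveSpecialLinearGroup (Fin n) K)
    {Ω : Type} [MulAction G Ω] [MulAction.IsPretransitive G Ω] (ω : Ω)
    (S : Submodule K (Fin n → K)) (hS0 : S ≠ ⊥) (hS1 : S ≠ ⊤)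
    (hS : ∀ A : Matrix.SpecialLinearGroup (Fin n) K,
      e.symm (QuotientGroup.mk A) ∈ MulAction.stabilizer G ω →
        ∀ x ∈ S, Matrix.toLin' A.1 x ∈ S) :
    2 / 7 * (Nat.card G : ℝ) ≤ (Nat.card {g : G // ∀ x : Ω, g • x ≠ x} : ℝ) := by
  have hk1 : 1 ≤ Module.finrank K S := by
    rw [Nat.one_le_iff_ne_zero]
    intro h
    exact hS0 (Submodule.finrank_eq_zero.mp h)
  have hk2 : Module.finrank K S < n := by
    have := Submodule.finrank_lt hS1
    rwa [Module.finrank_fin_fun] at this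
  have h1 := noInv_ge K hn hk1 hk2 h23
  have h2 := psl_bound e ω S hS
  have h2' : (Nat.card {A : Matrix.SpecialLinearGroup (Fin n) K //
        NoInv (Module.finrank K S) (Matrix.toLin' A.1)} : ℝ) * (Nat.card G : ℝ) ≤
      (Nat.card {g : G // ∀ x : Ω, g • x ≠ x} : ℝ) *
        (Nat.card (Matrix.SpecialLinearGroup (Fin n) K) : ℝ) := by exact_mod_cast h2
  have hpos : (0 : ℝ) < (Nat.card (Matrix.SpecialLinearGroup (Fin n) K) : ℝ) := by
    haveI : Finite (Matrix.SpecialLinearGroup (Fin n) K) := by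
      have : Finite (Matrix (Fin n) (Fin n) K) := inferInstanceAs (Finite (Fin n → Fin n → K))
      exact Subtype.finite
    exact_mod_cast Nat.card_pos
  have h3 : 2 / 7 * (Nat.card (Matrix.SpecialLinearGroup (Fin n) K) : ℝ) * (Nat.card G : ℝ) ≤
      (Nat.card {g : G // ∀ x : Ω, g • x ≠ x} : ℝ) *
        (Nat.card (Matrix.SpecialLinearGroup (Fin n) K) : ℝ) :=
    le_trans (mul_le_mul_of_nonneg_right h1 (Nat.cast_nonneg _)) h2'
  have h4 : (2 / 7 * (Nat.card G : ℝ)) * (Nat.card (Matrix.SpecialLinearGroup (Fin n) K) : ℝ) ≤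
      (Nat.card {g : G // ∀ x : Ω, g • x ≠ x} : ℝ) *
        (Nat.card (Matrix.SpecialLinearGroup (Fin n) K) : ℝ) := by linarith
  exact le_of_mul_le_mul_right h4 hpos

end Pool.Agent.PSD
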