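import Pool.Agent.PSD.Defs

/-!
# PSD/Conj: transport along isomorphisms

`cj e g` is `e g e⁻¹`.  All the notions of `Defs` are invariant under it.

Hints: `aeval (cj e g).toLinearMap φ = e ∘ (aeval g.toLinearMap φ) ∘ e.symm` (the map
`e.conj : Module.End K V ≃ₗ ...` is multiplicative, there is `LinearEquiv.algConj` or
`LinearEquiv.conjRingEquiv`; or prove it by `Polynomial.induction_on`); `LinearEquiv.det_conj` for
the determinant; for the `ncard` statements use `Set.ncard_congr` or `Set.ncard_image_of_injective`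
with `cj e` (bijective, inverse `cj e.symm`).
-/

open Polynomial

namespace Pool.Agent.PSD

section

variable {K V V' : Type} [Field K] [AddCommGroup V] [Module K V] [AddCommGroup V'] [Module K V']

theorem cj_apply (e : V ≃ₗ[K] V') (g : V ≃ₗ[K] V) (x : V') : cj e g x = e (g (e.symm x)) := rfl

theorem cj_eq_mul (h g : V ≃ₗ[K] V) : cj h g = h * g * h⁻¹ := rfl

private theorem pow_cj (e : V ≃ₗ[K] V') (g : V ≃ₗ[K] V) (n : ℕ) (x : V) :
    ((cj e g).toLinearMap ^ n) (e x) = e ((g.toLinearMap ^ n) x) := by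
  induction n with
  | zero => simp
  | succ n ih =>
    rw [pow_succ', pow_succ', Module.End.mul_apply, Module.End.mul_apply, ih]
    change e (g (e.symm (e _))) = _
    rw [LinearEquiv.symm_apply_apply]
    rfl

theorem aeval_cj (e : V ≃ₗ[K] V') (g : V ≃ₗ[K] V) (φ : K[X]) (x : V) :
    aeval (cj e g).toLinearMap φ (e x) = e (aeval g.toLinearMap φ x) := by
  induction φ using Polynomial.induction_on' with
  | add p q hp hq =>
    rw [map_add, map_add, LinearMap.add_apply, LinearMap.add_apply, hp, hq, map_add]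
  | monomial n a =>
    rw [aeval_monomial, aeval_monomial, Module.End.mul_apply, Module.End.mul_apply, pow_cj,
      Module.algebraMap_end_apply, Module.algebraMap_end_apply, map_smul]

private theorem cj_symm_cj (e : V ≃ₗ[K] V') (g : V ≃ₗ[K] V) : cj e.symm (cj e g) = g := by
  ext x
  rw [cj_apply, cj_apply]
  simp

private theorem cj_cj_symm (e : V ≃ₗ[K] V') (g : V' ≃ₗ[K] V') : cj e (cj e.symm g) = g := by
  ext x
  rw [cj_apply, cj_apply]
  simp

private theorem big_cj_aux (k : ℕ) (e : V ≃ₗ[K] V') (g : V ≃ₗ[K] V)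
    (h : Big k g.toLinearMap) : Big k (cj e g).toLinearMap := by
  intro φ h0 hd x y hxy
  obtain ⟨x, rfl⟩ := e.surjective x
  obtain ⟨y, rfl⟩ := e.surjective y
  rw [aeval_cj, aeval_cj] at hxy
  rw [h φ h0 hd (e.injective hxy)]

theorem big_cj (k : ℕ) (e : V ≃ₗ[K] V') (g : V ≃ₗ[K] V) :
    Big k (cj e g).toLinearMap ↔ Big k g.toLinearMap := by
  refine ⟨fun h => ?_, big_cj_aux k e g⟩
  have h1 := big_cj_aux k e.symm (cj e g) h
  rwa [cj_symm_cj] at h1

private theorem map_le_comap (e : V ≃ₗ[K] V') (g : V ≃ₗ[K] V) (S : Submodule K V)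
    (h : S ≤ S.comap g.toLinearMap) :
    S.map e.toLinearMap ≤ (S.map e.toLinearMap).comap (cj e g).toLinearMap := by
  rintro y ⟨x, hx, rfl⟩
  refine ⟨g x, h hx, ?_⟩
  change e (g x) = e (g (e.symm (e x)))
  rw [LinearEquiv.symm_apply_apply]

private theorem inS_cj_aux (k s : ℕ) (e : V ≃ₗ[K] V') (g : V ≃ₗ[K] V)
    (h : InS k s g.toLinearMap) : InS k s (cj e g).toLinearMap := by
  obtain ⟨S, T, hc, hs, hS, hT, hb⟩ := h
  refine ⟨S.map e.toLinearMap, T.map e.toLinearMap, ?_, ?_, map_le_comap e g S hS,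
    map_le_comap e g T hT, ?_⟩
  · exact OrderIso.isCompl (Submodule.orderIsoMapComap e) hc
  · rw [← hs]
    exact LinearEquiv.finrank_map_eq e S
  · rintro φ h0 hd y ⟨x, hx, rfl⟩ hy
    have h1 : aeval (cj e g).toLinearMap φ (e x) = 0 := hy
    rw [aeval_cj] at h1
    have h2 : x = 0 := hb φ h0 hd x hx (by
      apply e.injective
      rw [h1, map_zero])
    rw [h2, map_zero]

theorem inS_cj (k s : ℕ) (e : V ≃ₗ[K] V') (g : V ≃ₗ[K] V) :
    InS k s (cj e g).toLinearMap ↔ InS k s g.toLinearMap := by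
  refine ⟨fun h => ?_, inS_cj_aux k s e g⟩
  have h1 := inS_cj_aux k s e.symm (cj e g) h
  rwa [cj_symm_cj] at h1

private theorem noInv_cj_aux (k : ℕ) (e : V ≃ₗ[K] V') (g : V ≃ₗ[K] V)
    (h : NoInv k (cj e g).toLinearMap) : NoInv k g.toLinearMap := by
  intro S hS hI
  refine h (S.map e.toLinearMap) ?_ (map_le_comap e g S hI)
  rw [← hS]
  exact LinearEquiv.finrank_map_eq e S

theorem noInv_cj (k : ℕ) (e : V ≃ₗ[K] V') (g : V ≃ₗ[K] V) :
    NoInv k (cj e g).toLinearMap ↔ NoInv k g.toLinearMap := by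
  refine ⟨noInv_cj_aux k e g, fun h => ?_⟩
  apply noInv_cj_aux k e.symm (cj e g)
  rwa [cj_symm_cj]

theorem det_cj (e : V ≃ₗ[K] V') (g : V ≃ₗ[K] V) :
    LinearEquiv.det (cj e g) = LinearEquiv.det g :=
  LinearEquiv.det_conj g e

theorem cyc_cj (e : V ≃ₗ[K] V') (g : V ≃ₗ[K] V) (v : V) :
    cyc (cj e g).toLinearMap (e v) = (cyc g.toLinearMap v).map e.toLinearMap := by
  unfold cyc
  rw [Submodule.map_span, ← Set.range_comp]
  congr 2
  funext j
  exact pow_cj e g j v

private theorem cj_injective (e : V ≃ₗ[K] V') :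
    Function.Injective (cj e : (V ≃ₗ[K] V) → (V' ≃ₗ[K] V')) :=
  Function.LeftInverse.injective (cj_symm_cj e)

theorem ncard_GS_congr (e : V ≃ₗ[K] V') (k : ℕ) (c : Kˣ) :
    (GS K V k c).ncard = (GS K V' k c).ncard := by
  have h : GS K V' k c = cj e '' GS K V k c := by
    ext g
    constructor
    · intro hg
      refine ⟨cj e.symm g, ⟨?_, ?_⟩, cj_cj_symm e g⟩
      · rw [big_cj]; exact hg.1
      · rw [det_cj]; exact hg.2
    · rintro ⟨g, hg, rfl⟩
      refine ⟨?_, ?_⟩
      · rw [big_cj]; exact hg.1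
      · rw [det_cj]; exact hg.2
  rw [h, Set.ncard_image_of_injective _ (cj_injective e)]

private theorem finrank_cyc_cj (e : V ≃ₗ[K] V') (g : V ≃ₗ[K] V) (v : V) :
    Module.finrank K (cyc (cj e g).toLinearMap (e v)) =
      Module.finrank K (cyc g.toLinearMap v) := by
  rw [cyc_cj]
  exact LinearEquiv.finrank_map_eq e _

theorem ncard_XS_congr (e : V ≃ₗ[K] V') (k i : ℕ) (c : Kˣ) :
    (XS K V k i c).ncard = (XS K V' k i c).ncard := by
  have h : XS K V' k i c = (fun x : (V ≃ₗ[K] V) × V => (cj e x.1, e x.2)) '' XS K V k i c := by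
    ext ⟨g, v⟩
    constructor
    · intro hg
      obtain ⟨h1, h2, h3⟩ := hg
      have h1 : Big k g.toLinearMap := h1
      have h2 : LinearEquiv.det g = c := h2
      have h3 : Module.finrank K (cyc g.toLinearMap v) = i := h3
      refine ⟨(cj e.symm g, e.symm v), ⟨?_, ?_, ?_⟩, ?_⟩
      · change Big k (cj e.symm g).toLinearMap
        rw [big_cj]; exact h1
      · change LinearEquiv.det (cj e.symm g) = c
        rw [det_cj]; exact h2
      · change Module.finrank K (cyc (cj e.symm g).toLinearMap (e.symm v)) = i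
        rw [finrank_cyc_cj]; exact h3
      · change (cj e (cj e.symm g), e (e.symm v)) = (g, v)
        rw [cj_cj_symm, LinearEquiv.apply_symm_apply]
    · rintro ⟨⟨g', v'⟩, hg, hx⟩
      obtain ⟨h1, h2, h3⟩ := hg
      have h1 : Big k g'.toLinearMap := h1
      have h2 : LinearEquiv.det g' = c := h2
      have h3 : Module.finrank K (cyc g'.toLinearMap v') = i := h3
      rw [← hx]
      refine ⟨?_, ?_, ?_⟩
      · change Big k (cj e g').toLinearMap
        rw [big_cj]; exact h1
      · change LinearEquiv.det (cj e g') = c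
        rw [det_cj]; exact h2
      · change Module.finrank K (cyc (cj e g').toLinearMap (e v')) = i
        rw [finrank_cyc_cj]; exact h3
  rw [h, Set.ncard_image_of_injective]
  rintro ⟨g, v⟩ ⟨g', v'⟩ hx
  have h1 := congrArg Prod.fst hx
  have h2 := congrArg Prod.snd hx
  exact Prod.ext (cj_injective e h1) (e.injective h2)

theorem ncard_IS_congr (e : V ≃ₗ[K] V') (k s : ℕ) (c : Kˣ) :
    (IS K V k s c).ncard = (IS K V' k s c).ncard := by
  have h : IS K V' k s c = cj e '' IS K V k s c := by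
    ext g
    constructor
    · intro hg
      refine ⟨cj e.symm g, ⟨?_, ?_⟩, cj_cj_symm e g⟩
      · rw [inS_cj]; exact hg.1
      · rw [det_cj]; exact hg.2
    · rintro ⟨g, hg, rfl⟩
      refine ⟨?_, ?_⟩
      · rw [inS_cj]; exact hg.1
      · rw [det_cj]; exact hg.2
  rw [h, Set.ncard_image_of_injective _ (cj_injective e)]

theorem card_aut_congr (e : V ≃ₗ[K] V') : Nat.card (V ≃ₗ[K] V) = Nat.card (V' ≃ₗ[K] V') :=
  Nat.card_congr ⟨cj e, cj e.symm, cj_symm_cj e, cj_cj_symm e⟩

end

end Pool.Agent.PSD
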