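import Pool.Agent.PSD.Defs

/-!
# PSD/Fac: the recursion for monic polynomials from unique factorisation

For `f` monic of degree `i`: `i = ∑ deg p` over all pairs `(p, m)`, `p` monic irreducible, `m ≥ 1`,
`p^m ∣ f` (for each `p` there are as many `m` as its multiplicity in `f`).  Sum over
`f ∈ PS K k i c`:
`i * PM K k i c = ∑_(p, m) deg p * #{f ∈ PS K k i c : p^m ∣ f}`, where `p` runs over the monic
irreducible polynomials of degree `d > k` with `p(0) ≠ 0` (note that `f(0) ≠ 0`).  Put `r = m d` and
`a = (-1)^d p(0)`, so `p ∈ IP K d a`; the map `h ↦ p^m h` is a bijection from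
`PS K k (i - r) (a^(-m) c)` onto `{f ∈ PS K k i c : p^m ∣ f}` if `r ≤ i`, and this set is empty if
`r > i`.  Here `m = r / d`.

Tools: `UniqueFactorizationMonoid.normalizedFactors`, `Polynomial.Monic`,
`Polynomial.natDegree_eq_of...`; the number of `m ∈ [1, i]` with `p^m ∣ f` is
`emultiplicity`/`Multiset.count p (normalizedFactors f)`
(`UniqueFactorizationMonoid.count_normalizedFactors_eq`, `le_emultiplicity_iff_pow_dvd`...).
The sets `PS`, `IP` are finite (polynomials of bounded degree over a finite field); it may be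
convenient to prove this first.
-/

open Polynomial

namespace Pool.Agent.PSD

variable (K : Type) [Field K] [Fintype K] [DecidableEq K]

theorem finite_natDegree_le (n : ℕ) : {f : K[X] | f.natDegree ≤ n}.Finite := by
  classical
  have h1 : Finite (Polynomial.degreeLT K (n + 1)) :=
    Finite.of_equiv _ (Polynomial.degreeLTEquiv K (n + 1)).symm.toEquiv
  have h2 : ((Polynomial.degreeLT K (n + 1) : Submodule K K[X]) : Set K[X]).Finite :=
    Set.toFinite _
  apply h2.subset
  intro f hf
  rw [SetLike.mem_coe, Polynomial.mem_degreeLT]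
  refine lt_of_le_of_lt (Polynomial.degree_le_of_natDegree_le hf) ?_
  exact_mod_cast Nat.lt_succ_self n

open UniqueFactorizationMonoid in
private theorem fac_pow_dvd {p f : K[X]} (hp : Irreducible p) (hpm : p.Monic) (hf : f ≠ 0)
    (m : ℕ) : p ^ m ∣ f ↔ m ≤ (normalizedFactors f).count p := by
  rw [pow_dvd_iff_le_emultiplicity, emultiplicity_eq_count_normalizedFactors hp hf,
    hpm.normalize_eq_self]
  exact_mod_cast Iff.rfl

open UniqueFactorizationMonoid in
/-- the number of `r` -/
private theorem fac_card {p f : K[X]} (hp : Irreducible p) (hpm : p.Monic) (hf : f ≠ 0)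
    {i : ℕ} (hi : f.natDegree = i)
    [DecidablePred fun r : ℕ => p.natDegree ∣ r ∧ p ^ (r / p.natDegree) ∣ f] :
    ((Finset.Icc 1 i).filter (fun r => p.natDegree ∣ r ∧ p ^ (r / p.natDegree) ∣ f)).card =
      (normalizedFactors f).count p := by
  have hD : 0 < p.natDegree := hp.natDegree_pos
  have h1 : (Finset.Icc 1 i).filter (fun r => p.natDegree ∣ r ∧ p ^ (r / p.natDegree) ∣ f) =
      (Finset.Icc 1 ((normalizedFactors f).count p)).image (fun m => m * p.natDegree) := by
    ext r
    rw [Finset.mem_filter, Finset.mem_Icc, Finset.mem_image]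
    constructor
    · rintro ⟨⟨hr1, hr2⟩, ⟨m, rfl⟩, hdvd⟩
      rw [Nat.mul_div_cancel_left _ hD, fac_pow_dvd K hp hpm hf] at hdvd
      refine ⟨m, ?_, mul_comm _ _⟩
      rw [Finset.mem_Icc]
      refine ⟨Nat.one_le_iff_ne_zero.mpr ?_, hdvd⟩
      rintro rfl
      omega
    · rintro ⟨m, hm, rfl⟩
      rw [Finset.mem_Icc] at hm
      have hdvd : p ^ m ∣ f := (fac_pow_dvd K hp hpm hf m).mpr hm.2
      refine ⟨⟨Nat.one_le_iff_ne_zero.mpr (Nat.mul_ne_zero (by omega) (by omega)), ?_⟩,
        Dvd.intro_left _ rfl, ?_⟩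
      · have h2 := Polynomial.natDegree_le_of_dvd hdvd hf
        rw [Polynomial.natDegree_pow, hi] at h2
        exact h2
      · rw [Nat.mul_div_cancel _ hD]
        exact hdvd
  rw [h1, Finset.card_image_of_injective, Nat.card_Icc, Nat.add_sub_cancel]
  intro a b hab
  exact Nat.eq_of_mul_eq_mul_right hD hab

open UniqueFactorizationMonoid in
private theorem fac_deg {f : K[X]} (hf : f.Monic) :
    f.natDegree = ∑ p ∈ (normalizedFactors f).toFinset,
      (normalizedFactors f).count p * p.natDegree := by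
  have h1 : (normalizedFactors f).prod = f := by
    have := Polynomial.leadingCoeff_mul_prod_normalizedFactors f
    rwa [hf.leadingCoeff, map_one, one_mul] at this
  have h2 : ∀ g ∈ normalizedFactors f, g.Monic := fun g hg =>
    ((Polynomial.mem_normalizedFactors_iff hf.ne_zero).mp hg).2.1
  conv_lhs => rw [← h1]
  rw [Polynomial.natDegree_multiset_prod_of_monic _ h2, Finset.sum_multiset_map_count]
  simp only [smul_eq_mul]

/-- the bijection -/
private theorem fac_bij {k i d m : ℕ} {a c : Kˣ} (hk : k < d) (hm : 1 ≤ m) (hmd : m * d ≤ i)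
    {p : K[X]} (hp : p ∈ IP K d a) :
    {f : K[X] | f ∈ PS K k i c ∧ p ^ m ∣ f}.ncard = PM K k (i - m * d) ((a ^ m)⁻¹ * c) := by
  obtain ⟨hpm, hpi, hpd, hpa⟩ := hp
  have hpmm : (p ^ m).Monic := hpm.pow m
  have hpmd : (p ^ m).natDegree = m * d := by rw [Polynomial.natDegree_pow, hpd]
  have hcoef : ∀ h : K[X], (-1 : K) ^ i * (p ^ m * h).coeff 0 =
      (a : K) ^ m * ((-1) ^ (i - m * d) * h.coeff 0) := by
    intro h
    rw [Polynomial.mul_coeff_zero, ← hpa]
    have h1 : (p ^ m).coeff 0 = p.coeff 0 ^ m := by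
      rw [Polynomial.coeff_zero_eq_eval_zero, Polynomial.eval_pow,
        ← Polynomial.coeff_zero_eq_eval_zero]
    have h2 : (-1 : K) ^ i = ((-1) ^ d) ^ m * (-1) ^ (i - m * d) := by
      rw [← pow_mul, ← pow_add]
      congr 1
      rw [mul_comm d m]
      omega
    rw [h1, h2, mul_pow]
    ring
  have himg : {f : K[X] | f ∈ PS K k i c ∧ p ^ m ∣ f} =
      (fun h => p ^ m * h) '' PS K k (i - m * d) ((a ^ m)⁻¹ * c) := by
    ext f
    simp only [Set.mem_ofPred_eq, Set.mem_image]
    constructor
    · rintro ⟨⟨hf1, hf2, hf3, hf4⟩, h, rfl⟩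
      have hh : h.Monic := hpmm.of_mul_monic_left hf1
      refine ⟨h, ⟨hh, ?_, fun q hq hqh => hf3 q hq (Dvd.dvd.mul_left hqh _), ?_⟩, rfl⟩
      · rw [hpmm.natDegree_mul hh, hpmd] at hf2
        omega
      · rw [hcoef] at hf4
        rw [Units.val_mul, ← hf4, ← mul_assoc, Units.val_inv_eq_inv_val, Units.val_pow_eq_pow_val,
          inv_mul_cancel₀ (pow_ne_zero _ a.ne_zero), one_mul]
    · rintro ⟨h, ⟨hh1, hh2, hh3, hh4⟩, rfl⟩
      refine ⟨⟨hpmm.mul hh1, ?_, ?_, ?_⟩, Dvd.intro _ rfl⟩
      · rw [hpmm.natDegree_mul hh1, hpmd, hh2]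
        omega
      · intro q hq hqd
        rcases hq.prime.dvd_or_dvd hqd with h1 | h1
        · have h2 := hq.prime.dvd_of_dvd_pow h1
          have h3 : Associated q p := hq.associated_of_dvd hpi h2
          rw [Polynomial.natDegree_eq_of_degree_eq
            (Polynomial.degree_eq_degree_of_associated h3), hpd]
          exact hk
        · exact hh3 q hq h1
      · rw [hcoef, hh4, Units.val_mul, ← mul_assoc, Units.val_inv_eq_inv_val,
          Units.val_pow_eq_pow_val, mul_inv_cancel₀ (pow_ne_zero _ a.ne_zero), one_mul]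
  rw [himg, PM]
  apply Set.ncard_image_of_injective
  intro h1 h2 h12
  exact mul_left_cancel₀ hpmm.ne_zero h12

theorem Fac (k i : ℕ) (c : Kˣ) :
    i * PM K k i c =
      ∑ r ∈ Finset.Icc 1 i, ∑ d ∈ r.divisors.filter (fun d => k < d), ∑ a : Kˣ,
        d * IR K d a * PM K k (i - r) ((a ^ (r / d))⁻¹ * c) := by
  classical
  set U : Finset K[X] := (finite_natDegree_le K i).toFinset with hU
  have hmemU : ∀ f : K[X], f ∈ U ↔ f.natDegree ≤ i := by
    intro f; rw [hU, Set.Finite.mem_toFinset]; rfl
  -- counts as sums over U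
  have hPM : PM K k i c = (U.filter (fun f => f ∈ PS K k i c)).card := by
    rw [PM, ← Set.ncard_coe_finset]
    congr 1
    ext f
    rw [Finset.coe_filter, Set.mem_ofPred_eq, hmemU]
    exact ⟨fun h => ⟨h.2.1.le, h⟩, fun h => h.2⟩
  have hIR : ∀ d ≤ i, ∀ a : Kˣ, IR K d a = (U.filter (fun p => p ∈ IP K d a)).card := by
    intro d hd a
    rw [IR, ← Set.ncard_coe_finset]
    congr 1
    ext p
    rw [Finset.coe_filter, Set.mem_ofPred_eq, hmemU]
    exact ⟨fun h => ⟨h.2.2.1.le.trans hd, h⟩, fun h => h.2⟩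
  have hPM2 : ∀ r ∈ Finset.Icc 1 i, ∀ d ∈ r.divisors.filter (fun d => k < d), ∀ a : Kˣ,
      ∀ p ∈ IP K d a, PM K k (i - r) ((a ^ (r / d))⁻¹ * c) =
        ((U.filter (fun f => f ∈ PS K k i c)).filter (fun f => p ^ (r / d) ∣ f)).card := by
    intro r hr d hd a p hp
    rw [Finset.mem_Icc] at hr
    rw [Finset.mem_filter, Nat.mem_divisors] at hd
    obtain ⟨⟨⟨m, rfl⟩, _⟩, hkd⟩ := hd
    have hd0 : 0 < d := by omega
    rw [Nat.mul_div_cancel_left _ hd0]
    have hm : 1 ≤ m := Nat.one_le_iff_ne_zero.mpr (by rintro rfl; omega)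
    have h1 := fac_bij K (c := c) (i := i) hkd hm (by rw [mul_comm]; exact hr.2) hp
    rw [mul_comm d m, ← h1, ← Set.ncard_coe_finset]
    congr 1
    ext f
    rw [Finset.mem_coe, Finset.mem_filter, Finset.mem_filter, hmemU, Set.mem_ofPred_eq]
    exact ⟨fun h => ⟨⟨h.1.2.1.le, h.1⟩, h.2⟩, fun h => ⟨h.1.2, h.2⟩⟩
  -- the right side as a sum over p and f
  have hRHS : ∀ r ∈ Finset.Icc 1 i, ∀ d ∈ r.divisors.filter (fun d => k < d), ∀ a : Kˣ,
      d * IR K d a * PM K k (i - r) ((a ^ (r / d))⁻¹ * c) =
        ∑ f ∈ U.filter (fun f => f ∈ PS K k i c), ∑ p ∈ U,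
          if p ∈ IP K d a ∧ p ^ (r / d) ∣ f then d else 0 := by
    intro r hr d hd a
    have hdi : d ≤ i := by
      rw [Finset.mem_Icc] at hr
      rw [Finset.mem_filter, Nat.mem_divisors] at hd
      exact (Nat.le_of_dvd (by omega) hd.1.1).trans hr.2
    rw [hIR d hdi a, Finset.sum_comm]
    have h1 : ∀ p ∈ U, (∑ f ∈ U.filter (fun f => f ∈ PS K k i c),
        if p ∈ IP K d a ∧ p ^ (r / d) ∣ f then d else 0) =
        if p ∈ IP K d a then d * PM K k (i - r) ((a ^ (r / d))⁻¹ * c) else 0 := by
      intro p _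
      split_ifs with hp
      · rw [hPM2 r hr d hd a p hp, ← Finset.sum_filter, Finset.sum_const, smul_eq_mul, mul_comm]
        congr 2
        ext f
        simp only [Finset.mem_filter]
        tauto
      · apply Finset.sum_eq_zero
        intro f _
        rw [if_neg (fun h => hp h.1)]
    rw [Finset.sum_congr rfl h1, ← Finset.sum_filter, Finset.sum_const, smul_eq_mul]
    ring
  rw [Finset.sum_congr rfl fun r hr => Finset.sum_congr rfl fun d hd =>
    Finset.sum_congr rfl fun a _ => hRHS r hr d hd a]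
  -- exchange: for each f the sum is i
  have hex : (∑ r ∈ Finset.Icc 1 i, ∑ d ∈ r.divisors.filter (fun d => k < d), ∑ a : Kˣ,
      ∑ f ∈ U.filter (fun f => f ∈ PS K k i c), ∑ p ∈ U,
        if p ∈ IP K d a ∧ p ^ (r / d) ∣ f then d else 0) =
      ∑ f ∈ U.filter (fun f => f ∈ PS K k i c), ∑ p ∈ U, ∑ r ∈ Finset.Icc 1 i,
        ∑ d ∈ r.divisors.filter (fun d => k < d), ∑ a : Kˣ,
          if p ∈ IP K d a ∧ p ^ (r / d) ∣ f then d else 0 := by
    have e1 : ∀ r ∈ Finset.Icc 1 i, (∑ d ∈ r.divisors.filter (fun d => k < d), ∑ a : Kˣ,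
        ∑ f ∈ U.filter (fun f => f ∈ PS K k i c), ∑ p ∈ U,
          if p ∈ IP K d a ∧ p ^ (r / d) ∣ f then d else 0) =
        ∑ f ∈ U.filter (fun f => f ∈ PS K k i c), ∑ p ∈ U,
          ∑ d ∈ r.divisors.filter (fun d => k < d), ∑ a : Kˣ,
            if p ∈ IP K d a ∧ p ^ (r / d) ∣ f then d else 0 := by
      intro r _
      have e2 : ∀ d ∈ r.divisors.filter (fun d => k < d), (∑ a : Kˣ,
          ∑ f ∈ U.filter (fun f => f ∈ PS K k i c), ∑ p ∈ U,
            if p ∈ IP K d a ∧ p ^ (r / d) ∣ f then d else 0) =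
          ∑ f ∈ U.filter (fun f => f ∈ PS K k i c), ∑ p ∈ U, ∑ a : Kˣ,
            if p ∈ IP K d a ∧ p ^ (r / d) ∣ f then d else 0 := by
        intro d _
        rw [Finset.sum_comm]
        exact Finset.sum_congr rfl fun f _ => Finset.sum_comm
      rw [Finset.sum_congr rfl e2, Finset.sum_comm]
      exact Finset.sum_congr rfl fun f _ => Finset.sum_comm
    rw [Finset.sum_congr rfl e1, Finset.sum_comm]
    exact Finset.sum_congr rfl fun f _ => Finset.sum_comm
  rw [hex, hPM]
  have hfin : ∀ f ∈ U.filter (fun f => f ∈ PS K k i c),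
      (∑ p ∈ U, ∑ r ∈ Finset.Icc 1 i,
        ∑ d ∈ r.divisors.filter (fun d => k < d), ∑ a : Kˣ,
          if p ∈ IP K d a ∧ p ^ (r / d) ∣ f then d else 0) = i := by
    intro f hf
    obtain ⟨hf1, hf2, hf3, hf4⟩ := (Finset.mem_filter.mp hf).2
    have hf0 : f ≠ 0 := hf1.ne_zero
    have hfc : f.coeff 0 ≠ 0 := by
      intro h0
      rw [h0, mul_zero] at hf4
      exact c.ne_zero hf4.symm
    -- the inner sums
    have hin : ∀ p ∈ U, (∑ r ∈ Finset.Icc 1 i,
        ∑ d ∈ r.divisors.filter (fun d => k < d), ∑ a : Kˣ,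
          if p ∈ IP K d a ∧ p ^ (r / d) ∣ f then d else 0) =
        (UniqueFactorizationMonoid.normalizedFactors f).count p * p.natDegree := by
      intro p _
      by_cases hp : p ∈ UniqueFactorizationMonoid.normalizedFactors f
      · obtain ⟨hpi, hpm, hpf⟩ := (Polynomial.mem_normalizedFactors_iff hf0).mp hp
        have hD : 0 < p.natDegree := hpi.natDegree_pos
        have hkD : k < p.natDegree := hf3 p hpi hpf
        have hpc : (-1) ^ p.natDegree * p.coeff 0 ≠ 0 := by
          apply mul_ne_zero (pow_ne_zero _ (neg_ne_zero.mpr one_ne_zero))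
          intro h0
          obtain ⟨g, rfl⟩ := hpf
          rw [Polynomial.mul_coeff_zero, h0, zero_mul] at hfc
          exact hfc rfl
        have h1 : ∀ r ∈ Finset.Icc 1 i, (∑ d ∈ r.divisors.filter (fun d => k < d), ∑ a : Kˣ,
            if p ∈ IP K d a ∧ p ^ (r / d) ∣ f then d else 0) =
            if p.natDegree ∣ r ∧ p ^ (r / p.natDegree) ∣ f then p.natDegree else 0 := by
          intro r hr
          rw [Finset.mem_Icc] at hr
          split_ifs with hcond
          · rw [Finset.sum_eq_single p.natDegree]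
            · rw [Finset.sum_eq_single (Units.mk0 _ hpc)]
              · rw [if_pos ⟨⟨hpm, hpi, rfl, rfl⟩, hcond.2⟩]
              · intro a _ ha
                rw [if_neg]
                rintro ⟨⟨_, _, _, h4⟩, _⟩
                apply ha
                ext
                rw [Units.val_mk0]
                exact h4.symm
              · intro h; exact absurd (Finset.mem_univ _) h
            · intro d _ hd
              apply Finset.sum_eq_zero
              intro a _
              rw [if_neg]
              rintro ⟨⟨_, _, h3, _⟩, _⟩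
              exact hd h3.symm
            · intro h
              exfalso
              apply h
              rw [Finset.mem_filter, Nat.mem_divisors]
              exact ⟨⟨hcond.1, by omega⟩, hkD⟩
          · apply Finset.sum_eq_zero
            intro d hd
            apply Finset.sum_eq_zero
            intro a _
            rw [if_neg]
            rintro ⟨⟨_, _, h3, _⟩, h5⟩
            apply hcond
            rw [Finset.mem_filter, Nat.mem_divisors] at hd
            rw [h3]
            exact ⟨hd.1.1, h5⟩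
        rw [Finset.sum_congr rfl h1, ← Finset.sum_filter, Finset.sum_const, smul_eq_mul,
          fac_card K hpi hpm hf0 hf2]
      · rw [Multiset.count_eq_zero_of_notMem hp, zero_mul]
        apply Finset.sum_eq_zero
        intro r hr
        apply Finset.sum_eq_zero
        intro d hd
        apply Finset.sum_eq_zero
        intro a _
        rw [if_neg]
        rintro ⟨⟨h1, h2, _, _⟩, h5⟩
        apply hp
        rw [Polynomial.mem_normalizedFactors_iff hf0]
        refine ⟨h2, h1, (dvd_pow_self p ?_).trans h5⟩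
        rw [Finset.mem_Icc] at hr
        rw [Finset.mem_filter, Nat.mem_divisors] at hd
        obtain ⟨m, rfl⟩ := hd.1.1
        rw [Nat.mul_div_cancel_left _ (by omega)]
        rintro rfl
        omega
    rw [Finset.sum_congr rfl hin]
    have hsub : (UniqueFactorizationMonoid.normalizedFactors f).toFinset ⊆ U := by
      intro p hp
      rw [Multiset.mem_toFinset, Polynomial.mem_normalizedFactors_iff hf0] at hp
      rw [hmemU, ← hf2]
      exact Polynomial.natDegree_le_of_dvd hp.2.2 hf0
    rw [← Finset.sum_subset hsub, ← fac_deg K hf1, hf2]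
    intro p _ hp
    rw [Multiset.mem_toFinset] at hp
    rw [Multiset.count_eq_zero_of_notMem hp, zero_mul]
  rw [Finset.sum_congr rfl hfin, Finset.sum_const, smul_eq_mul, mul_comm]

end Pool.Agent.PSD
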