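import Pool.Agent.PSD.Alg
import Pool.Agent.PSD.Fac

/-!
# PSD/Tot: `k = 0`, and the group algebra form of `Fac`
-/

open Polynomial

namespace Pool.Agent.PSD

variable (K : Type) [Field K] [Fintype K] [DecidableEq K]

theorem MM_rec (k i : ℕ) :
    (i : ℝ) • MM K k i = ∑ r ∈ Finset.Icc 1 i, AA K k r * MM K k (i - r) := by
  apply eq_of_cf
  intro c
  rw [cf_smul, cf_sum, MM, cf_sg]
  have h := congrArg (Nat.cast : ℕ → ℝ) (Fac (K := K) k i c)
  push_cast at h
  rw [h]
  apply Finset.sum_congr rfl
  intro r _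
  rw [AA, MM, Finset.sum_mul, cf_sum]
  apply Finset.sum_congr rfl
  intro d _
  rw [Finset.sum_mul, cf_sum]
  apply Finset.sum_congr rfl
  intro a _
  rw [single_mul_sg, cf_sg]

theorem MM_zero_zero (k : ℕ) : MM K k 0 = 1 := by
  rw [one_eq_sg, MM]
  congr 1
  funext c
  by_cases hc : c = 1
  · subst hc
    have h1 : PS K k 0 1 = {1} := by
      ext f
      rw [Set.mem_singleton_iff]
      constructor
      · rintro ⟨h1, h2, -, -⟩
        exact (Polynomial.Monic.natDegree_eq_zero h1).mp h2
      · rintro rfl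
        refine ⟨monic_one, natDegree_one, ?_, ?_⟩
        · intro p hp hd
          exact absurd (isUnit_of_dvd_one hd) hp.not_isUnit
        · simp
    rw [if_pos rfl, PM, h1, Set.ncard_singleton, Nat.cast_one]
  · have h1 : PS K k 0 c = ∅ := by
      ext f
      rw [Set.mem_empty_iff_false, iff_false]
      rintro ⟨h1, h2, -, h4⟩
      have h5 := (Polynomial.Monic.natDegree_eq_zero h1).mp h2
      subst h5
      apply hc
      apply Units.ext
      rw [← h4]
      simp
    rw [if_neg hc, PM, h1, Set.ncard_empty, Nat.cast_zero]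

private theorem tot_monic (j : ℕ) :
    {g : K[X] | g.Monic ∧ g.natDegree = j}.ncard = Fintype.card K ^ j := by
  rw [← Nat.card_coe_set_eq]
  have h1 : Nat.card {g : K[X] // g.Monic ∧ g.natDegree = j} = Nat.card (Fin j → K) :=
    Nat.card_congr ((Polynomial.monicEquivDegreeLT j).trans
      (Polynomial.degreeLTEquiv K j).toEquiv)
  have h2 : Nat.card ↥{g : K[X] | g.Monic ∧ g.natDegree = j} =
      Nat.card {g : K[X] // g.Monic ∧ g.natDegree = j} := rfl
  rw [h2, h1, Nat.card_eq_fintype_card, Fintype.card_fun, Fintype.card_fin]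

private theorem tot_PM (j : ℕ) (c : Kˣ) : PM K 0 (j + 1) c = Fintype.card K ^ j := by
  rw [PM, ← tot_monic K j]
  set a : K := (-1) ^ (j + 1) * (c : K) with ha
  have hinj : Function.Injective (fun g : K[X] => X * g + C a) := by
    intro g g' h
    have h1 : X * g = X * g' := add_right_cancel h
    exact mul_left_cancel₀ X_ne_zero h1
  have hset : PS K 0 (j + 1) c =
      (fun g : K[X] => X * g + C a) '' {g : K[X] | g.Monic ∧ g.natDegree = j} := by
    apply Set.ext
    intro f
    constructor
    · rintro ⟨h1, h2, -, h4⟩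
      have hf0 : f.coeff 0 = a := by
        rw [ha, ← h4, ← mul_assoc, ← mul_pow]
        simp
      have hdiv : X * f.divX + C (f.coeff 0) = f := X_mul_divX_add f
      have hnd : f.divX.natDegree = j := by
        rw [natDegree_divX_eq_natDegree_tsub_one, h2, Nat.add_sub_cancel]
      refine ⟨f.divX, ⟨?_, hnd⟩, ?_⟩
      · rw [Monic, leadingCoeff, hnd, coeff_divX, ← h2]
        exact h1
      · show X * f.divX + C a = f
        rw [← hf0]
        exact hdiv
    · rintro ⟨g, ⟨hg1, hg2⟩, rfl⟩
      have hXg : (X * g).Monic := monic_X.mul hg1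
      have hXgd : (X * g).natDegree = j + 1 := by
        rw [natDegree_X_mul hg1.ne_zero, hg2]
      have hdeg : (C a).degree < (X * g).degree := by
        refine lt_of_le_of_lt degree_C_le ?_
        rw [← natDegree_pos_iff_degree_pos, hXgd]
        omega
      refine ⟨?_, ?_, ?_, ?_⟩
      · exact hXg.add_of_left hdeg
      · show (X * g + C a).natDegree = j + 1
        rw [natDegree_add_C, hXgd]
      · intro p hp _
        exact hp.natDegree_pos
      · show (-1) ^ (j + 1) * (X * g + C a).coeff 0 = (c : K)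
        rw [coeff_add, mul_coeff_zero, coeff_X_zero, zero_mul, zero_add, coeff_C_zero, ha,
          ← mul_assoc, ← mul_pow]
        simp
  rw [hset, Set.ncard_image_of_injective _ hinj]

theorem MM_zero {i : ℕ} (hi : 1 ≤ i) : MM K 0 i = ((Fintype.card K : ℝ) ^ (i - 1)) • SS K := by
  apply eq_of_cf
  intro c
  rw [cf_smul, MM, SS, cf_sg, cf_sg]
  obtain ⟨j, rfl⟩ := Nat.exists_eq_add_of_le' hi
  rw [tot_PM, Nat.add_sub_cancel]
  push_cast
  ring

private theorem tot_geom (q : ℝ) (hq : 1 < q) (n : ℕ) :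
    ∑ r ∈ Finset.Icc 1 n, (q ^ r - 1) * q ^ (n - r) = n * q ^ n - (q ^ n - 1) / (q - 1) := by
  have hq1 : q - 1 ≠ 0 := by linarith
  induction n with
  | zero => simp
  | succ n ih =>
    rw [Finset.sum_Icc_succ_top (by omega), Nat.sub_self, pow_zero, mul_one]
    have h1 : ∑ r ∈ Finset.Icc 1 n, (q ^ r - 1) * q ^ (n + 1 - r) =
        q * ∑ r ∈ Finset.Icc 1 n, (q ^ r - 1) * q ^ (n - r) := by
      rw [Finset.mul_sum]
      apply Finset.sum_congr rfl
      intro r hr
      rw [Finset.mem_Icc] at hr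
      rw [show n + 1 - r = (n - r) + 1 by omega, pow_succ]
      ring
    rw [h1, ih]
    push_cast
    field_simp
    ring

theorem AA_tot {r : ℕ} (hr : 1 ≤ r) :
    AA K 0 r = (((Fintype.card K : ℝ) ^ r - 1) / ((Fintype.card K : ℝ) - 1)) • SS K := by
  have hq : (1 : ℝ) < Fintype.card K := by exact_mod_cast Fintype.one_lt_card
  set q : ℝ := (Fintype.card K : ℝ) with hqdef
  have hq1 : q - 1 ≠ 0 := by linarith
  induction r using Nat.strong_induction_on with
  | _ r ih =>
    obtain ⟨n, rfl⟩ := Nat.exists_eq_add_of_le' hr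
    have h1 := MM_rec K 0 (n + 1)
    rw [Finset.sum_Icc_succ_top (by omega), Nat.sub_self, MM_zero_zero, mul_one,
      MM_zero K (by omega), Nat.add_sub_cancel, ← hqdef, smul_smul] at h1
    have h2 : ∑ r ∈ Finset.Icc 1 n, AA K 0 r * MM K 0 (n + 1 - r) =
        (∑ r ∈ Finset.Icc 1 n, (q ^ r - 1) * q ^ (n - r)) • SS K := by
      rw [Finset.sum_smul]
      apply Finset.sum_congr rfl
      intro r hr'
      rw [Finset.mem_Icc] at hr'
      rw [ih r (by omega) hr'.1, MM_zero K (by omega : 1 ≤ n + 1 - r), ← hqdef,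
        show n + 1 - r - 1 = n - r by omega, smul_mul_assoc, mul_smul_comm, SS_mul, aug_SS,
        ← hqdef, smul_smul, smul_smul]
      congr 1
      field_simp
    rw [h2, tot_geom q hq n] at h1
    have h3 := eq_sub_of_add_eq' h1.symm
    rw [h3, ← sub_smul]
    congr 1
    push_cast
    field_simp
    ring

theorem AA_add_ZZ (k : ℕ) {r : ℕ} (hr : 1 ≤ r) : AA K k r + ZZ K k r = AA K 0 r := by
  have h1 : r.divisors.filter (fun d => 0 < d) = r.divisors :=
    Finset.filter_true_of_mem fun d hd => Nat.pos_of_mem_divisors hd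
  have h2 : r.divisors.filter (fun d => d ≤ k) = r.divisors.filter (fun d => ¬ k < d) := by
    apply Finset.filter_congr
    intro d _
    exact not_lt.symm
  rw [AA, ZZ, AA, h1, h2]
  exact Finset.sum_filter_add_sum_filter_not _ _ _

theorem sum_ID {r : ℕ} (hr : 1 ≤ r) :
    ∑ d ∈ r.divisors, (d : ℝ) * ID K d = (Fintype.card K : ℝ) ^ r - 1 := by
  have hq : (1 : ℝ) < Fintype.card K := by exact_mod_cast Fintype.one_lt_card
  have hq1 : (Fintype.card K : ℝ) - 1 ≠ 0 := by linarith
  have h := congrArg aug (AA_tot K hr)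
  rw [map_smul, aug_SS, smul_eq_mul, div_mul_cancel₀ _ hq1] at h
  rw [← h, AA, Finset.filter_true_of_mem fun d hd => Nat.pos_of_mem_divisors hd, map_sum]
  apply Finset.sum_congr rfl
  intro d _
  rw [map_sum, ID, Finset.mul_sum]
  apply Finset.sum_congr rfl
  intro c _
  rw [aug_single]

end Pool.Agent.PSD
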