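import Pool.Agent.PSD.Defs

/-!
# PSD/Alg: generalities on the group algebra `ℝ[K^×]`

`sg K F = ∑ c, F(c) [c]`; `aug` is the augmentation (sum of the coefficients), `cf x c` the
coefficient of `[c]`, `l1 x` the sum of the absolute values of the coefficients; `SS = ∑ c, [c]`.
Mathlib: `MonoidAlgebra.single`, `single_mul_single`, `coeff_add`, `coeff_sum`,
`MonoidAlgebra.lift_single`, `MonoidAlgebra.ext`.  Note that `MonoidAlgebra` is a structure with
the field `coeff : Kˣ →₀ ℝ` (no coercion to functions).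
-/

open Polynomial

namespace Pool.Agent.PSD

variable {K : Type} [Field K] [Fintype K] [DecidableEq K]

/-- augmentation -/
noncomputable def aug : MonoidAlgebra ℝ Kˣ →ₐ[ℝ] ℝ := MonoidAlgebra.lift ℝ ℝ Kˣ 1

/-- coefficient -/
noncomputable def cf (x : MonoidAlgebra ℝ Kˣ) (c : Kˣ) : ℝ := x.coeff c

/-- `ℓ¹` norm -/
noncomputable def l1 (x : MonoidAlgebra ℝ Kˣ) : ℝ := ∑ c : Kˣ, |cf x c|

theorem aug_single (c : Kˣ) (x : ℝ) : aug (MonoidAlgebra.single c x) = x := by
  unfold aug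
  rw [MonoidAlgebra.lift_single]
  simp

theorem aug_sg (F : Kˣ → ℝ) : aug (sg K F) = ∑ c : Kˣ, F c := by
  unfold sg
  rw [map_sum]
  exact Finset.sum_congr rfl fun c _ => aug_single c (F c)

private theorem alg_cf_single (a : Kˣ) (x : ℝ) (c : Kˣ) :
    cf (MonoidAlgebra.single a x) c = if a = c then x else 0 := by
  show (MonoidAlgebra.single a x).coeff c = _
  rw [MonoidAlgebra.coeff_single]
  exact Finsupp.single_apply

private theorem alg_cf_add (x y : MonoidAlgebra ℝ Kˣ) (c : Kˣ) :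
    cf (x + y) c = cf x c + cf y c := by
  show (x + y).coeff c = _
  rw [MonoidAlgebra.coeff_add]
  rfl

private theorem alg_cf_sum {ι : Type} (s : Finset ι) (f : ι → MonoidAlgebra ℝ Kˣ) (c : Kˣ) :
    cf (∑ i ∈ s, f i) c = ∑ i ∈ s, cf (f i) c := by
  classical
  induction s using Finset.induction_on with
  | empty =>
    rw [Finset.sum_empty, Finset.sum_empty]
    rfl
  | insert a s ha ih =>
    rw [Finset.sum_insert ha, Finset.sum_insert ha, alg_cf_add, ih]

theorem cf_sg (F : Kˣ → ℝ) (c : Kˣ) : cf (sg K F) c = F c := by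
  unfold sg
  rw [alg_cf_sum, Finset.sum_eq_single c]
  · rw [alg_cf_single, if_pos rfl]
  · intro b _ hb
    rw [alg_cf_single, if_neg hb]
  · intro h
    exact absurd (Finset.mem_univ c) h

theorem cf_single (a : Kˣ) (x : ℝ) (c : Kˣ) :
    cf (MonoidAlgebra.single a x) c = if a = c then x else 0 := by
  show (MonoidAlgebra.single a x).coeff c = _
  rw [MonoidAlgebra.coeff_single]
  exact Finsupp.single_apply

theorem cf_add (x y : MonoidAlgebra ℝ Kˣ) (c : Kˣ) : cf (x + y) c = cf x c + cf y c := by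
  show (x + y).coeff c = _
  rw [MonoidAlgebra.coeff_add]
  rfl

theorem cf_sub (x y : MonoidAlgebra ℝ Kˣ) (c : Kˣ) : cf (x - y) c = cf x c - cf y c := by
  show (x - y).coeff c = _
  rw [MonoidAlgebra.coeff_sub]
  rfl

theorem cf_smul (t : ℝ) (x : MonoidAlgebra ℝ Kˣ) (c : Kˣ) : cf (t • x) c = t * cf x c := by
  show (t • x).coeff c = _
  rw [MonoidAlgebra.coeff_smul]
  rfl

theorem cf_sum {ι : Type} (s : Finset ι) (f : ι → MonoidAlgebra ℝ Kˣ) (c : Kˣ) :
    cf (∑ i ∈ s, f i) c = ∑ i ∈ s, cf (f i) c := by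
  classical
  induction s using Finset.induction_on with
  | empty =>
    rw [Finset.sum_empty, Finset.sum_empty]
    rfl
  | insert a s ha ih =>
    rw [Finset.sum_insert ha, Finset.sum_insert ha, cf_add, ih]

theorem eq_of_cf {x y : MonoidAlgebra ℝ Kˣ} (h : ∀ c : Kˣ, cf x c = cf y c) : x = y := by
  apply MonoidAlgebra.ext
  ext c
  exact h c

theorem sg_cf (x : MonoidAlgebra ℝ Kˣ) : sg K (cf x) = x := by
  apply eq_of_cf
  intro c
  rw [cf_sg]

theorem aug_eq_sum (x : MonoidAlgebra ℝ Kˣ) : aug x = ∑ c : Kˣ, cf x c := by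
  conv_lhs => rw [← sg_cf x]
  rw [aug_sg]

private theorem alg_single_mul_sg (b : Kˣ) (t : ℝ) (G : Kˣ → ℝ) :
    MonoidAlgebra.single b t * sg K G = sg K fun c => t * G (b⁻¹ * c) := by
  unfold sg
  rw [Finset.mul_sum]
  refine (Finset.sum_congr rfl fun c _ => MonoidAlgebra.single_mul_single _ _ _ _).trans ?_
  refine Fintype.sum_equiv (Equiv.mulLeft b) _ _ fun c => ?_
  show MonoidAlgebra.single (b * c) (t * G c) =
    MonoidAlgebra.single (b * c) (t * G (b⁻¹ * (b * c)))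
  rw [inv_mul_cancel_left]

/-- convolution -/
theorem sg_mul (F G : Kˣ → ℝ) :
    sg K F * sg K G = sg K fun c => ∑ a : Kˣ, F a * G (a⁻¹ * c) := by
  apply eq_of_cf
  intro c
  rw [cf_sg]
  have h1 : sg K F * sg K G = ∑ a : Kˣ, MonoidAlgebra.single a (F a) * sg K G := by
    conv_lhs => rw [show sg K F = ∑ a : Kˣ, MonoidAlgebra.single a (F a) from rfl]
    rw [Finset.sum_mul]
  rw [h1, cf_sum]
  refine Finset.sum_congr rfl fun a _ => ?_
  rw [alg_single_mul_sg, cf_sg]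

theorem cf_mul (x y : MonoidAlgebra ℝ Kˣ) (c : Kˣ) :
    cf (x * y) c = ∑ a : Kˣ, cf x a * cf y (a⁻¹ * c) := by
  conv_lhs => rw [← sg_cf x, ← sg_cf y, sg_mul]
  rw [cf_sg]

/-- multiplication of `sg` by a monomial -/
theorem single_mul_sg (b : Kˣ) (t : ℝ) (G : Kˣ → ℝ) :
    MonoidAlgebra.single b t * sg K G = sg K fun c => t * G (b⁻¹ * c) := by
  exact alg_single_mul_sg b t G

theorem one_eq_sg : (1 : MonoidAlgebra ℝ Kˣ) = sg K fun c => if c = 1 then 1 else 0 := by
  apply eq_of_cf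
  intro c
  rw [cf_sg, MonoidAlgebra.one_def, cf_single]
  by_cases h : c = 1
  · rw [if_pos h.symm, if_pos h]
  · rw [if_neg (fun h2 => h h2.symm), if_neg h]

theorem SS_mul (x : MonoidAlgebra ℝ Kˣ) : SS K * x = aug x • SS K := by
  apply eq_of_cf
  intro c
  rw [cf_mul, cf_smul, aug_eq_sum]
  have h1 : ∀ d : Kˣ, cf (SS K) d = 1 := fun d => cf_sg _ d
  rw [h1, mul_one]
  simp only [h1, one_mul]
  refine Fintype.sum_equiv ((Equiv.inv Kˣ).trans (Equiv.mulRight c)) _ _ fun a => ?_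
  rfl

theorem aug_SS : aug (SS K) = (Fintype.card K : ℝ) - 1 := by
  unfold SS
  rw [aug_sg, Finset.sum_const, Finset.card_univ, Fintype.card_units, nsmul_eq_mul, mul_one,
    Nat.cast_sub Fintype.card_pos]
  simp

theorem l1_nonneg (x : MonoidAlgebra ℝ Kˣ) : 0 ≤ l1 x := by
  exact Finset.sum_nonneg fun c _ => abs_nonneg _

theorem l1_one : l1 (1 : MonoidAlgebra ℝ Kˣ) = 1 := by
  unfold l1
  rw [one_eq_sg, Finset.sum_eq_single (1 : Kˣ)]
  · rw [cf_sg, if_pos rfl, abs_one]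
  · intro b _ hb
    rw [cf_sg, if_neg hb, abs_zero]
  · intro h
    exact absurd (Finset.mem_univ _) h

theorem l1_smul (t : ℝ) (x : MonoidAlgebra ℝ Kˣ) : l1 (t • x) = |t| * l1 x := by
  unfold l1
  rw [Finset.mul_sum]
  exact Finset.sum_congr rfl fun c _ => by rw [cf_smul, abs_mul]

theorem l1_sum_le {ι : Type} (s : Finset ι) (f : ι → MonoidAlgebra ℝ Kˣ) :
    l1 (∑ i ∈ s, f i) ≤ ∑ i ∈ s, l1 (f i) := by
  unfold l1
  rw [Finset.sum_comm]
  refine Finset.sum_le_sum fun c _ => ?_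
  rw [cf_sum]
  exact Finset.abs_sum_le_sum_abs _ _

theorem l1_mul_le (x y : MonoidAlgebra ℝ Kˣ) : l1 (x * y) ≤ l1 x * l1 y := by
  have h1 : l1 (x * y) ≤ ∑ c : Kˣ, ∑ a : Kˣ, |cf x a| * |cf y (a⁻¹ * c)| := by
    refine Finset.sum_le_sum fun c _ => ?_
    rw [cf_mul]
    refine (Finset.abs_sum_le_sum_abs _ _).trans (le_of_eq ?_)
    exact Finset.sum_congr rfl fun a _ => abs_mul _ _
  refine h1.trans (le_of_eq ?_)
  rw [Finset.sum_comm]
  unfold l1
  rw [Finset.sum_mul]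
  refine Finset.sum_congr rfl fun a _ => ?_
  rw [← Finset.mul_sum]
  congr 1
  exact Equiv.sum_comp (Equiv.mulLeft a⁻¹) fun c => |cf y c|

end Pool.Agent.PSD
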