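import Pool.Agent.PSD.Defs

/-!
# PSD/Blk: block triangular automorphisms of `U × W`

`blk A C D (u, w) = (A u + C w, D w)`.

* determinant: `det A * det D` (choose bases, `LinearMap.toMatrix` is `Matrix.fromBlocks A C 0 D`,
  `Matrix.det_fromBlocks_zero₂₁`; or `blk A C D` is the product of `blk 1 (C D⁻¹) 1`, of
  determinant 1, and of `LinearMap.prodMap A D`, `LinearMap.det_prodMap`; or use
  `LinearMap.det_eq_det_mul_det`).
* `Big`: for a polynomial `φ`, `φ(blk A C D) (u, w) = (φ(A) u + C_φ w, φ(D) w)` for a suitable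
  linear map `C_φ` (induction on `φ`), so `φ(blk)` is injective if `φ(A)` and `φ(D)` are; and if
  it is injective, then `φ(A)` is injective, and `φ(D)` is injective, because everything is finite
  dimensional (injective = surjective).
* every automorphism `g` with `g (U × 0) ⊆ U × 0` is a `blk` (`A` is injective on `U`, so
  bijective; then `D` is onto, so bijective).
-/

open Polynomial

namespace Pool.Agent.PSD

section

variable {K U W : Type} [Field K] [AddCommGroup U] [Module K U] [AddCommGroup W] [Module K W]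

/-- the block triangular automorphism `(u, w) ↦ (A u + C w, D w)` -/
def blk (A : U ≃ₗ[K] U) (C : W →ₗ[K] U) (D : W ≃ₗ[K] W) : (U × W) ≃ₗ[K] (U × W) where
  toFun x := (A x.1 + C x.2, D x.2)
  map_add' x y := by
    simp only [Prod.fst_add, Prod.snd_add, map_add, Prod.mk_add_mk]
    ext
    · simp only; abel
    · rfl
  map_smul' c x := by
    simp [smul_add]
  invFun x := (A.symm (x.1 - C (D.symm x.2)), D.symm x.2)
  left_inv x := by simp
  right_inv x := by simp

theorem blk_apply (A : U ≃ₗ[K] U) (C : W →ₗ[K] U) (D : W ≃ₗ[K] W) (u : U) (w : W) :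
    blk A C D (u, w) = (A u + C w, D w) := rfl

theorem blk_inj {A A' : U ≃ₗ[K] U} {C C' : W →ₗ[K] U} {D D' : W ≃ₗ[K] W}
    (h : blk A C D = blk A' C' D') : A = A' ∧ C = C' ∧ D = D' := by
  have h1 : ∀ (u : U) (w : W), A u + C w = A' u + C' w ∧ D w = D' w := fun u w => by
    have h2 : blk A C D (u, w) = blk A' C' D' (u, w) := by rw [h]
    rw [blk_apply, blk_apply, Prod.mk.injEq] at h2
    exact h2
  refine ⟨LinearEquiv.ext fun u => ?_, LinearMap.ext fun w => ?_, LinearEquiv.ext fun w => ?_⟩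
  · have h2 := (h1 u 0).1
    rwa [map_zero, map_zero, add_zero, add_zero] at h2
  · have h2 := (h1 0 w).1
    rwa [map_zero, map_zero, zero_add, zero_add] at h2
  · exact (h1 0 w).2

variable [Module.Finite K U] [Module.Finite K W]

theorem exists_blk (g : (U × W) ≃ₗ[K] (U × W)) (hg : ∀ u : U, (g (u, 0)).2 = 0) :
    ∃ (A : U ≃ₗ[K] U) (C : W →ₗ[K] U) (D : W ≃ₗ[K] W), g = blk A C D := by
  let A0 : U →ₗ[K] U := LinearMap.fst K U W ∘ₗ g.toLinearMap ∘ₗ LinearMap.inl K U W
  let C : W →ₗ[K] U := LinearMap.fst K U W ∘ₗ g.toLinearMap ∘ₗ LinearMap.inr K U W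
  let D0 : W →ₗ[K] W := LinearMap.snd K U W ∘ₗ g.toLinearMap ∘ₗ LinearMap.inr K U W
  have hA0 : ∀ u, A0 u = (g (u, 0)).1 := fun u => rfl
  have hC : ∀ w, C w = (g (0, w)).1 := fun w => rfl
  have hD0 : ∀ w, D0 w = (g (0, w)).2 := fun w => rfl
  have hsplit : ∀ (u : U) (w : W), g (u, w) = g (u, 0) + g (0, w) := fun u w => by
    rw [← map_add, Prod.mk_add_mk, add_zero, zero_add]
  have hAi : Function.Injective A0 := by
    rw [injective_iff_map_eq_zero]
    intro u hu
    have h1 : g (u, 0) = 0 := Prod.ext (by rw [← hA0, hu]; rfl) (hg u)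
    have h2 := (LinearEquiv.map_eq_zero_iff g).1 h1
    exact congrArg Prod.fst h2
  have hDs : Function.Surjective D0 := by
    intro w
    obtain ⟨⟨u, w'⟩, hx⟩ := g.surjective (0, w)
    refine ⟨w', ?_⟩
    rw [hsplit] at hx
    have h1 := congrArg Prod.snd hx
    rw [Prod.snd_add, hg u, zero_add] at h1
    exact h1
  have hDi : Function.Injective D0 := LinearMap.injective_iff_surjective.2 hDs
  have hAs : Function.Surjective A0 := LinearMap.injective_iff_surjective.1 hAi
  refine ⟨LinearEquiv.ofBijective A0 ⟨hAi, hAs⟩, C, LinearEquiv.ofBijective D0 ⟨hDi, hDs⟩, ?_⟩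
  refine LinearEquiv.ext fun x => ?_
  obtain ⟨u, w⟩ := x
  rw [blk_apply, LinearEquiv.ofBijective_apply, LinearEquiv.ofBijective_apply, hsplit]
  refine Prod.ext ?_ ?_
  · rfl
  · change (g (u, 0)).2 + (g (0, w)).2 = D0 w
    rw [hg u, zero_add, hD0]

theorem blk_det (A : U ≃ₗ[K] U) (C : W →ₗ[K] U) (D : W ≃ₗ[K] W) :
    LinearEquiv.det (blk A C D) = LinearEquiv.det A * LinearEquiv.det D := by
  refine Units.ext ?_
  rw [Units.val_mul, LinearEquiv.coe_det, LinearEquiv.coe_det, LinearEquiv.coe_det]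
  let bU := Module.finBasis K U
  let bW := Module.finBasis K W
  rw [← LinearMap.det_toMatrix (bU.prod bW), ← LinearMap.det_toMatrix bU,
    ← LinearMap.det_toMatrix bW]
  have h1 : LinearMap.toMatrix (bU.prod bW) (bU.prod bW) (blk A C D).toLinearMap =
      Matrix.fromBlocks (LinearMap.toMatrix bU bU A.toLinearMap) (LinearMap.toMatrix bW bU C) 0
        (LinearMap.toMatrix bW bW D.toLinearMap) := by
    ext i j
    rcases i with i | i <;> rcases j with j | j
    · simp [LinearMap.toMatrix_apply, blk_apply]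
    · simp [LinearMap.toMatrix_apply, blk_apply]
    · simp [LinearMap.toMatrix_apply, blk_apply]
    · simp [LinearMap.toMatrix_apply, blk_apply]
  rw [h1, Matrix.det_fromBlocks_zero₂₁]

theorem blk_aeval (A : U ≃ₗ[K] U) (C : W →ₗ[K] U) (D : W ≃ₗ[K] W) (φ : K[X]) :
    ∃ E : W →ₗ[K] U, ∀ (u : U) (w : W),
      aeval (blk A C D).toLinearMap φ (u, w) =
        (aeval A.toLinearMap φ u + E w, aeval D.toLinearMap φ w) := by
  induction φ using Polynomial.induction_on with
  | C a =>
    refine ⟨0, fun u w => ?_⟩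
    simp only [aeval_C, Module.algebraMap_end_apply, LinearMap.zero_apply, add_zero, Prod.smul_mk]
  | add p q hp hq =>
    obtain ⟨E, hE⟩ := hp
    obtain ⟨F, hF⟩ := hq
    refine ⟨E + F, fun u w => ?_⟩
    simp only [map_add, LinearMap.add_apply, hE, hF, Prod.mk_add_mk]
    refine Prod.ext ?_ rfl
    simp only
    abel
  | monomial n a h =>
    obtain ⟨E, hE⟩ := h
    refine ⟨aeval A.toLinearMap (Polynomial.C a * X ^ n) ∘ₗ C + E ∘ₗ D.toLinearMap,
      fun u w => ?_⟩
    have h1 : ∀ {M : Type} [AddCommGroup M] [Module K M] (f : Module.End K M) (x : M),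
        aeval f (Polynomial.C a * X ^ (n + 1)) x = aeval f (Polynomial.C a * X ^ n) (f x) := by
      intro M _ _ f x
      rw [pow_succ, ← mul_assoc, map_mul, aeval_X, Module.End.mul_apply]
    rw [h1, h1, h1, LinearEquiv.coe_coe, blk_apply, hE, map_add]
    refine Prod.ext ?_ rfl
    simp only [LinearMap.add_apply, LinearMap.comp_apply, LinearEquiv.coe_coe]
    abel

theorem blk_big (k : ℕ) (A : U ≃ₗ[K] U) (C : W →ₗ[K] U) (D : W ≃ₗ[K] W) :
    Big k (blk A C D).toLinearMap ↔ Big k A.toLinearMap ∧ Big k D.toLinearMap := by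
  constructor
  · intro h
    refine ⟨fun φ h0 hd => ?_, fun φ h0 hd => ?_⟩
    · obtain ⟨E, hE⟩ := blk_aeval A C D φ
      have h1 := h φ h0 hd
      rw [injective_iff_map_eq_zero]
      intro u hu
      have h2 : aeval (blk A C D).toLinearMap φ (u, 0) = 0 := by
        rw [hE, hu, map_zero, map_zero, add_zero]
        rfl
      exact congrArg Prod.fst ((injective_iff_map_eq_zero _).1 h1 _ h2)
    · obtain ⟨E, hE⟩ := blk_aeval A C D φ
      have h1 := LinearMap.injective_iff_surjective.1 (h φ h0 hd)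
      refine LinearMap.injective_iff_surjective.2 fun w => ?_
      obtain ⟨⟨u', w'⟩, hx⟩ := h1 (0, w)
      rw [hE] at hx
      exact ⟨w', congrArg Prod.snd hx⟩
  · rintro ⟨hA, hD⟩ φ h0 hd
    obtain ⟨E, hE⟩ := blk_aeval A C D φ
    rw [injective_iff_map_eq_zero]
    rintro ⟨u, w⟩ hx
    rw [hE] at hx
    have h1 : w = 0 := (injective_iff_map_eq_zero _).1 (hD φ h0 hd) w (congrArg Prod.snd hx)
    have h2 : aeval A.toLinearMap φ u + E w = 0 := congrArg Prod.fst hx
    rw [h1, map_zero, add_zero] at h2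
    have h3 : u = 0 := (injective_iff_map_eq_zero _).1 (hA φ h0 hd) u h2
    rw [h1, h3]
    rfl

/-- block diagonal case: `aeval` acts componentwise -/
theorem blk_aeval_zero (A : U ≃ₗ[K] U) (D : W ≃ₗ[K] W) (φ : K[X]) (u : U) (w : W) :
    aeval (blk A 0 D).toLinearMap φ (u, w) =
      (aeval A.toLinearMap φ u, aeval D.toLinearMap φ w) := by
  induction φ using Polynomial.induction_on generalizing u w with
  | C a =>
    simp only [aeval_C, Module.algebraMap_end_apply, Prod.smul_mk]
  | add p q hp hq =>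
    simp only [map_add, LinearMap.add_apply, hp, hq, Prod.mk_add_mk]
  | monomial n a h =>
    have h1 : ∀ {M : Type} [AddCommGroup M] [Module K M] (f : Module.End K M) (x : M),
        aeval f (Polynomial.C a * X ^ (n + 1)) x = aeval f (Polynomial.C a * X ^ n) (f x) := by
      intro M _ _ f x
      rw [pow_succ, ← mul_assoc, map_mul, aeval_X, Module.End.mul_apply]
    rw [h1, h1, h1, LinearEquiv.coe_coe, blk_apply, LinearMap.zero_apply, add_zero, h]
    rfl

end

end Pool.Agent.PSD
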