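import Mathlib

/-!
# PSD/Defs: derangements in PSL_n(q), reducible point stabilisers (MP_bce300_al)

Definitions shared by the modules of the folder `PSD`.  Throughout `K` is a finite field with `q`
elements, `V` a finite dimensional vector space.

* `Big k f`: the endomorphism `f` has no invariant subspace of dimension `1, ..., k`, said with
  polynomials: every nonzero polynomial of degree `≤ k` in `f` is injective.
* `InS k s f`: `V = S ⊕ T` with `S`, `T` invariant, `dim S = s` and `f` restricted to `T` is `Big k`.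
* `NoInv k f`: no invariant subspace of dimension exactly `k`.
* `NB K k n c`: number of automorphisms of `K^n` with `Big k` and determinant `c`.
* `gl K n`: order of `GL_n(K)`.
* `PM K k i c`: number of monic polynomials of degree `i`, all irreducible factors of degree `> k`,
  with `(-1)^i f(0) = c`.
* `IR K d c`: number of monic irreducible polynomials `f` of degree `d` with `(-1)^d f(0) = c`.
* `BB, MM, AA, ZZ`: elements of the group algebra `ℝ[K^×]` made of these numbers.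
* `bb, sl, eps, beta`: real numbers.
-/

open Polynomial

namespace Pool.Agent.PSD

section General

variable {K V : Type} [Field K] [AddCommGroup V] [Module K V]

/-- every nonzero polynomial of degree at most `k` in `f` is injective -/
def Big (k : ℕ) (f : Module.End K V) : Prop :=
  ∀ φ : K[X], φ ≠ 0 → φ.natDegree ≤ k → Function.Injective (aeval f φ)

/-- the cyclic subspace generated by `v` -/
def cyc (f : Module.End K V) (v : V) : Submodule K V :=
  Submodule.span K (Set.range fun j : ℕ => (f ^ j) v)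

/-- `V = S ⊕ T`, both invariant, `dim S = s`, and `f` is `Big k` on `T` -/
def InS (k s : ℕ) (f : Module.End K V) : Prop :=
  ∃ S T : Submodule K V, IsCompl S T ∧ Module.finrank K S = s ∧ S ≤ S.comap f ∧ T ≤ T.comap f ∧
    ∀ φ : K[X], φ ≠ 0 → φ.natDegree ≤ k → ∀ x ∈ T, aeval f φ x = 0 → x = 0

/-- no invariant subspace of dimension `k` -/
def NoInv (k : ℕ) (f : Module.End K V) : Prop :=
  ∀ S : Submodule K V, Module.finrank K S = k → ¬ S ≤ S.comap f

end General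

instance finite_lequiv {K V W : Type} [Field K] [AddCommGroup V] [Module K V] [AddCommGroup W]
    [Module K W] [Finite V] [Finite W] : Finite (V ≃ₗ[K] W) :=
  Finite.of_injective (fun g : V ≃ₗ[K] W => (g : V → W)) fun _ _ h =>
    LinearEquiv.ext (congrFun h)

/-- conjugation of an automorphism by an isomorphism -/
def cj {K V V' : Type} [Field K] [AddCommGroup V] [Module K V] [AddCommGroup V'] [Module K V']
    (e : V ≃ₗ[K] V') (g : V ≃ₗ[K] V) : V' ≃ₗ[K] V' := (e.symm.trans g).trans e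

section Sets

variable (K V : Type) [Field K] [AddCommGroup V] [Module K V]

/-- automorphisms which are `Big k` and have determinant `c` -/
def GS (k : ℕ) (c : Kˣ) : Set (V ≃ₗ[K] V) :=
  {g | Big k g.toLinearMap ∧ LinearEquiv.det g = c}

/-- pairs (automorphism in `GS`, vector whose cyclic subspace has dimension `i`) -/
def XS (k i : ℕ) (c : Kˣ) : Set ((V ≃ₗ[K] V) × V) :=
  {x | Big k x.1.toLinearMap ∧ LinearEquiv.det x.1 = c ∧
    Module.finrank K (cyc x.1.toLinearMap x.2) = i}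

/-- automorphisms with `InS k s` and determinant `c` -/
def IS (k s : ℕ) (c : Kˣ) : Set (V ≃ₗ[K] V) :=
  {g | InS k s g.toLinearMap ∧ LinearEquiv.det g = c}

end Sets

section Concrete

variable (K : Type) [Field K]

/-- order of `GL_n(K)` -/
noncomputable def gl (n : ℕ) : ℕ := Nat.card ((Fin n → K) ≃ₗ[K] (Fin n → K))

/-- number of `Big k` automorphisms of `K^n` of determinant `c` -/
noncomputable def NB (k n : ℕ) (c : Kˣ) : ℕ := (GS K (Fin n → K) k c).ncard

/-- monic polynomials of degree `i`, all irreducible factors of degree `> k`,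
`(-1)^i f(0) = c` -/
def PS (k i : ℕ) (c : Kˣ) : Set K[X] :=
  {f | f.Monic ∧ f.natDegree = i ∧ (∀ p : K[X], Irreducible p → p ∣ f → k < p.natDegree) ∧
    (-1) ^ i * f.coeff 0 = (c : K)}

/-- number of elements of `PS` -/
noncomputable def PM (k i : ℕ) (c : Kˣ) : ℕ := (PS K k i c).ncard

/-- monic irreducible polynomials of degree `d` with `(-1)^d f(0) = c` -/
def IP (d : ℕ) (c : Kˣ) : Set K[X] :=
  {f | f.Monic ∧ Irreducible f ∧ f.natDegree = d ∧ (-1) ^ d * f.coeff 0 = (c : K)}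

/-- number of elements of `IP` -/
noncomputable def IR (d : ℕ) (c : Kˣ) : ℕ := (IP K d c).ncard

/-- the `a`-th basis vector of `K^i` (zero if `a ≥ i`) -/
def ee (i a : ℕ) : Fin i → K := fun j => if j.1 = a then 1 else 0

/-- companion-type automorphism of `K^i`: `e_a ↦ e_{a+1}` for `a + 1 < i` -/
def IsComp {K : Type} [Field K] {i : ℕ} (A : (Fin i → K) ≃ₗ[K] (Fin i → K)) : Prop :=
  ∀ a : ℕ, a + 1 < i → A (ee K i a) = ee K i (a + 1)

/-- automorphisms of `K^i × K^m` preserving `K^i × 0`, of companion type on it -/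
def IsComp2 {K : Type} [Field K] {i m : ℕ}
    (g : ((Fin i → K) × (Fin m → K)) ≃ₗ[K] ((Fin i → K) × (Fin m → K))) : Prop :=
  (∀ u : Fin i → K, (g (u, 0)).2 = 0) ∧
    ∀ a : ℕ, a + 1 < i → g (ee K i a, 0) = (ee K i (a + 1), 0)

/-- the slice used for the orbit count of `XS`: companion type automorphisms of `K^i × K^m` -/
def YG (k i m : ℕ) (c : Kˣ) :
    Set (((Fin i → K) × (Fin m → K)) ≃ₗ[K] ((Fin i → K) × (Fin m → K))) :=
  {g | IsComp2 g ∧ Big k g.toLinearMap ∧ LinearEquiv.det g = c}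

/-- the subgroup of automorphisms of `K^i × K^m` fixing `K^i × 0` pointwise -/
def HS (i m : ℕ) :
    Subgroup (((Fin i → K) × (Fin m → K)) ≃ₗ[K] ((Fin i → K) × (Fin m → K))) where
  carrier := {h | ∀ u : Fin i → K, h (u, 0) = (u, 0)}
  mul_mem' := by
    intro a b ha hb u
    have h1 : (a * b) (u, (0 : Fin m → K)) = a (b (u, 0)) := rfl
    rw [h1, hb u, ha u]
  one_mem' := fun _ => rfl
  inv_mem' := by
    intro a ha u
    have h1 : a⁻¹ (a (u, (0 : Fin m → K))) = (u, 0) := LinearEquiv.symm_apply_apply a _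
    rw [ha u] at h1
    exact h1

/-- the subgroup of block diagonal automorphisms of `K^s × K^m` -/
def DS (s m : ℕ) :
    Subgroup (((Fin s → K) × (Fin m → K)) ≃ₗ[K] ((Fin s → K) × (Fin m → K))) where
  carrier := {h | (∀ u : Fin s → K, (h (u, 0)).2 = 0) ∧ (∀ w : Fin m → K, (h (0, w)).1 = 0) ∧
    (∀ u : Fin s → K, (h⁻¹ (u, 0)).2 = 0) ∧ (∀ w : Fin m → K, (h⁻¹ (0, w)).1 = 0)}
  mul_mem' := by
    rintro a b ⟨ha1, ha2, ha3, ha4⟩ ⟨hb1, hb2, hb3, hb4⟩
    have key : ∀ x : ((Fin s → K) × (Fin m → K)), x.2 = 0 → x = (x.1, 0) := fun x hx =>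
      Prod.ext rfl hx
    have key' : ∀ x : ((Fin s → K) × (Fin m → K)), x.1 = 0 → x = (0, x.2) := fun x hx =>
      Prod.ext hx rfl
    refine ⟨fun u => ?_, fun w => ?_, fun u => ?_, fun w => ?_⟩
    · have h1 : (a * b) (u, (0 : Fin m → K)) = a (b (u, 0)) := rfl
      rw [h1, key _ (hb1 u)]; exact ha1 _
    · have h1 : (a * b) ((0 : Fin s → K), w) = a (b (0, w)) := rfl
      rw [h1, key' _ (hb2 w)]; exact ha2 _
    · have h1 : (a * b)⁻¹ (u, (0 : Fin m → K)) = b⁻¹ (a⁻¹ (u, 0)) := by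
        rw [mul_inv_rev]; rfl
      rw [h1, key _ (ha3 u)]; exact hb3 _
    · have h1 : (a * b)⁻¹ ((0 : Fin s → K), w) = b⁻¹ (a⁻¹ (0, w)) := by
        rw [mul_inv_rev]; rfl
      rw [h1, key' _ (ha4 w)]; exact hb4 _
  one_mem' := ⟨fun _ => rfl, fun _ => rfl, fun _ => rfl, fun _ => rfl⟩
  inv_mem' := by
    rintro a ⟨ha1, ha2, ha3, ha4⟩
    refine ⟨ha3, ha4, ?_, ?_⟩
    · intro u; rw [inv_inv]; exact ha1 u
    · intro w; rw [inv_inv]; exact ha2 w

/-- block diagonal automorphisms of `K^s × K^m`, `Big k` on `0 × K^m`, determinant `c` -/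
def YD (k s m : ℕ) (c : Kˣ) :
    Set (((Fin s → K) × (Fin m → K)) ≃ₗ[K] ((Fin s → K) × (Fin m → K))) :=
  {g | g ∈ DS K s m ∧ (∀ φ : K[X], φ ≠ 0 → φ.natDegree ≤ k → ∀ w : Fin m → K,
    aeval g.toLinearMap φ ((0 : Fin s → K), w) = 0 → w = 0) ∧ LinearEquiv.det g = c}

end Concrete

section Algebra

variable (K : Type) [Field K] [Fintype K] [DecidableEq K]

/-- the element `∑ c, F(c) [c]` of the group algebra -/
noncomputable def sg (F : Kˣ → ℝ) : MonoidAlgebra ℝ Kˣ := ∑ c : Kˣ, MonoidAlgebra.single c (F c)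

/-- `∑ c [c] NB k n c / |GL_n|` -/
noncomputable def BB (k n : ℕ) : MonoidAlgebra ℝ Kˣ :=
  sg K fun c => (NB K k n c : ℝ) / (gl K n : ℝ)

/-- `∑ c [c] PM k i c` -/
noncomputable def MM (k i : ℕ) : MonoidAlgebra ℝ Kˣ :=
  sg K fun c => (PM K k i c : ℝ)

/-- `∑_{d | r, d > k} ∑ c, d * IR d c [c^(r/d)]` -/
noncomputable def AA (k r : ℕ) : MonoidAlgebra ℝ Kˣ :=
  ∑ d ∈ r.divisors.filter (fun d => k < d), ∑ c : Kˣ,
    MonoidAlgebra.single (c ^ (r / d)) ((d : ℝ) * (IR K d c : ℝ))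

/-- `∑_{d | r, d ≤ k} ∑ c, d * IR d c [c^(r/d)]` -/
noncomputable def ZZ (k r : ℕ) : MonoidAlgebra ℝ Kˣ :=
  ∑ d ∈ r.divisors.filter (fun d => d ≤ k), ∑ c : Kˣ,
    MonoidAlgebra.single (c ^ (r / d)) ((d : ℝ) * (IR K d c : ℝ))

/-- `∑ c, [c]` -/
noncomputable def SS : MonoidAlgebra ℝ Kˣ := sg K fun _ => 1

/-- number of monic irreducible polynomials of degree `d` other than `X` -/
noncomputable def ID (d : ℕ) : ℝ := ∑ c : Kˣ, (IR K d c : ℝ)

/-- proportion of `Big k` elements in `GL_n(K)` -/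
noncomputable def bb (k n : ℕ) : ℝ := (∑ c : Kˣ, (NB K k n c : ℝ)) / (gl K n : ℝ)

/-- proportion of `Big k` elements in `SL_n(K)` (for `n ≥ 1`) -/
noncomputable def sl (k n : ℕ) : ℝ :=
  ((Fintype.card K : ℝ) - 1) * (NB K k n 1 : ℝ) / (gl K n : ℝ)

/-- `(∑_{d | r, d ≤ k} d * ID d) / (q^r - 1)` -/
noncomputable def eps (k r : ℕ) : ℝ :=
  (∑ d ∈ r.divisors.filter (fun d => d ≤ k), (d : ℝ) * ID K d) / ((Fintype.card K : ℝ) ^ r - 1)

end Algebra

/-- the sequence with `b 0 = 1` and `n * b n = ∑_{r=1}^n w r * b (n - r)` -/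
noncomputable def rseq {R : Type} [CommRing R] [Algebra ℝ R] (w : ℕ → R) : ℕ → R
  | 0 => 1
  | n + 1 => ((n + 1 : ℝ)⁻¹) • ∑ j : Fin (n + 1), w (n + 1 - j.1) * rseq w j.1

/-- majorant of the coefficients of the correction term -/
noncomputable def beta (K : Type) [Field K] [Fintype K] [DecidableEq K] (k : ℕ) : ℕ → ℝ :=
  rseq fun r => if k < r then eps K k r else 0

/-- `b 0 = 1` and `n * b n = ∑_{r=k+1}^n (1 - e r) * b (n - r)` -/
def IsRec (k : ℕ) (e b : ℕ → ℝ) : Prop :=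
  b 0 = 1 ∧ ∀ n : ℕ, 1 ≤ n →
    (n : ℝ) * b n = ∑ r ∈ Finset.Icc (k + 1) n, (1 - e r) * b (n - r)

/-- the bounds for `eps K k` used in the numerical modules -/
def EpsSpec (q : ℝ) (k : ℕ) (e : ℕ → ℝ) : Prop :=
  (∀ r : ℕ, 0 ≤ e r) ∧ (∀ r : ℕ, 1 ≤ r → e r ≤ 1) ∧
  (k = 1 → ∀ r : ℕ, 1 ≤ r → e r = (q - 1) / (q ^ r - 1)) ∧
  (k = 2 → e 3 = (q - 1) / (q ^ 3 - 1) ∧
    ∀ r : ℕ, 4 ≤ r → e r ≤ (q ^ 2 - 1) / (q ^ r - 1)) ∧
  (k = 3 → e 4 ≤ (q ^ 2 - 1) / (q ^ 4 - 1) ∧ e 5 ≤ (q - 1) / (q ^ 5 - 1) ∧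
    ∀ r : ℕ, 6 ≤ r → e r ≤ (q ^ 2 - 1) * (q + 1) / (q ^ r - 1)) ∧
  (4 ≤ k → ∀ r : ℕ, k < r → e r ≤ 2 * q ^ (r / 2) / (q ^ r - 1))

/-- `b 0 = 1` and `n * b n = ∑_{r=k+1}^n e r * b (n - r)` -/
def IsBeta (k : ℕ) (e b : ℕ → ℝ) : Prop :=
  b 0 = 1 ∧ ∀ n : ℕ, 1 ≤ n →
    (n : ℝ) * b n = ∑ r ∈ Finset.Icc (k + 1) n, e r * b (n - r)

end Pool.Agent.PSD
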