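import Pool.Agent.PSD.Defs

/-!
# PSD/Eps: bounds for `eps`

Abstract form: `I : ℕ → ℝ` nonnegative with `∑_{d | r} d I(d) = q^r - 1` for all `r ≥ 1`
(so `d I(d) ≤ q^d - 1`, `I(1) = q - 1`, `2 I(2) = q² - q`, `3 I(3) = q³ - q`), `q ≥ 2`.
`e r = (∑_{d | r, d ≤ k} d I(d)) / (q^r - 1)`.

* `0 ≤ e r ≤ 1` for `r ≥ 1` (`r = 0`: `divisors 0 = ∅`, so `e 0 = 0`);
* `k = 1`: only `d = 1`;
* `k = 2`: `d ∈ {1, 2}`, for `r = 3` only `d = 1`; in general the numerator is
  `≤ (q - 1) + (q² - q) = q² - 1`;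
* `k = 3`: `r = 4`: `d ∈ {1, 2}`; `r = 5`: `d = 1`; in general
  `(q-1) + (q²-q) + (q³-q) = (q²-1)(q+1)`;
* `k ≥ 4`, `r > k`: a divisor `d ≤ k < r` of `r` is `≤ r/2`, so the numerator is at most
  `∑_{d=1}^{r/2} (q^d - 1) ≤ 2 q^(r/2)` (geometric sum, `q ≥ 2`).
-/

open Polynomial

namespace Pool.Agent.PSD

private theorem geo_le {q : ℝ} (hq : 2 ≤ q) (n : ℕ) :
    ∑ d ∈ Finset.Icc 1 n, q ^ d ≤ 2 * q ^ n := by
  induction n with
  | zero => simp
  | succ n ih =>
    rw [Finset.sum_Icc_succ_top (by omega)]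
    have h1 : 0 < q ^ n := by positivity
    have h2 : q ^ (n + 1) = q * q ^ n := by ring
    nlinarith

theorem epsSpec_of {q : ℝ} (hq : 2 ≤ q) (I : ℕ → ℝ) (hI0 : ∀ d, 0 ≤ I d)
    (hI : ∀ r : ℕ, 1 ≤ r → ∑ d ∈ r.divisors, (d : ℝ) * I d = q ^ r - 1) {k : ℕ} (hk : 1 ≤ k) :
    EpsSpec q k fun r => (∑ d ∈ r.divisors.filter (fun d => d ≤ k), (d : ℝ) * I d) / (q ^ r - 1) := by
  have hq0 : (0 : ℝ) < q := by linarith
  have hpow : ∀ r : ℕ, 1 ≤ r → 0 < q ^ r - 1 := by
    intro r hr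
    have h1 : q ^ 1 ≤ q ^ r := pow_le_pow_right₀ (by linarith) hr
    rw [pow_one] at h1
    linarith
  have hpow0 : ∀ r : ℕ, 0 ≤ q ^ r - 1 := by
    intro r
    have h1 : (1 : ℝ) ≤ q ^ r := one_le_pow₀ (by linarith)
    linarith
  have hJ0 : ∀ d : ℕ, 0 ≤ (d : ℝ) * I d := fun d => mul_nonneg (Nat.cast_nonneg d) (hI0 d)
  have hJ1 : ((1 : ℕ) : ℝ) * I 1 = q - 1 := by
    have h := hI 1 le_rfl
    rw [Nat.divisors_one, Finset.sum_singleton, pow_one] at h
    exact h
  have hJ2 : ((2 : ℕ) : ℝ) * I 2 = q ^ 2 - q := by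
    have h := hI 2 (by norm_num)
    have hd : (2 : ℕ).divisors = {1, 2} := by decide
    rw [hd, Finset.sum_pair (by norm_num), hJ1] at h
    linarith
  have hJ3 : ((3 : ℕ) : ℝ) * I 3 = q ^ 3 - q := by
    have h := hI 3 (by norm_num)
    have hd : (3 : ℕ).divisors = {1, 3} := by decide
    rw [hd, Finset.sum_pair (by norm_num), hJ1] at h
    linarith
  have hJle : ∀ d : ℕ, 1 ≤ d → (d : ℝ) * I d ≤ q ^ d - 1 := by
    intro d hd
    rw [← hI d hd]
    exact Finset.single_le_sum (f := fun d : ℕ => (d : ℝ) * I d) (fun i _ => hJ0 i)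
      (Nat.mem_divisors_self d (by omega))
  have hsub : ∀ (r : ℕ) (s : Finset ℕ), r.divisors.filter (fun d => d ≤ k) ⊆ s →
      ∑ d ∈ r.divisors.filter (fun d => d ≤ k), (d : ℝ) * I d ≤ ∑ d ∈ s, (d : ℝ) * I d :=
    fun r s h => Finset.sum_le_sum_of_subset_of_nonneg h (fun i _ _ => hJ0 i)
  have hfp : ∀ r d : ℕ, d ∈ r.divisors.filter (fun d => d ≤ k) → 1 ≤ d ∧ d ≤ k ∧ d ∣ r := by
    intro r d hd
    rw [Finset.mem_filter] at hd
    exact ⟨Nat.pos_of_mem_divisors hd.1, hd.2, Nat.dvd_of_mem_divisors hd.1⟩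
  refine ⟨?_, ?_, ?_, ?_, ?_, ?_⟩
  · intro r
    exact div_nonneg (Finset.sum_nonneg fun i _ => hJ0 i) (hpow0 r)
  · intro r hr
    rw [div_le_one (hpow r hr), ← hI r hr]
    exact hsub r _ (Finset.filter_subset _ _)
  · intro h1 r hr
    subst h1
    have hf : r.divisors.filter (fun d => d ≤ 1) = {1} := by
      ext d
      rw [Finset.mem_filter, Finset.mem_singleton, Nat.mem_divisors]
      constructor
      · rintro ⟨⟨h1, h2⟩, h3⟩
        have := Nat.pos_of_dvd_of_pos h1 (by omega)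
        omega
      · rintro rfl
        exact ⟨⟨one_dvd _, by omega⟩, le_rfl⟩
    dsimp only
    rw [hf, Finset.sum_singleton, hJ1]
  · intro h2
    subst h2
    refine ⟨?_, ?_⟩
    · have hf : (3 : ℕ).divisors.filter (fun d => d ≤ 2) = {1} := by decide
      dsimp only
      rw [hf, Finset.sum_singleton, hJ1]
    · intro r hr
      have h0 := hpow r (by omega)
      refine div_le_div_of_nonneg_right ?_ h0.le
      refine (hsub r {1, 2} ?_).trans ?_
      · intro d hd
        obtain ⟨h1, h2, _⟩ := hfp r d hd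
        rw [Finset.mem_insert, Finset.mem_singleton]
        omega
      · rw [Finset.sum_pair (by norm_num), hJ1, hJ2]
        linarith
  · intro h3
    subst h3
    refine ⟨?_, ?_, ?_⟩
    · have hf : (4 : ℕ).divisors.filter (fun d => d ≤ 3) = {1, 2} := by decide
      dsimp only
      rw [hf, Finset.sum_pair (by norm_num), hJ1, hJ2]
      refine div_le_div_of_nonneg_right ?_ (hpow0 4)
      linarith
    · have hf : (5 : ℕ).divisors.filter (fun d => d ≤ 3) = {1} := by decide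
      dsimp only
      rw [hf, Finset.sum_singleton, hJ1]
    · intro r hr
      have h0 := hpow r (by omega)
      refine div_le_div_of_nonneg_right ?_ h0.le
      refine (hsub r {1, 2, 3} ?_).trans ?_
      · intro d hd
        obtain ⟨h1, h2, _⟩ := hfp r d hd
        rw [Finset.mem_insert, Finset.mem_insert, Finset.mem_singleton]
        omega
      · rw [Finset.sum_insert (by simp), Finset.sum_pair (by norm_num), hJ1, hJ2, hJ3]
        nlinarith
  · intro h4 r hr
    have h0 := hpow r (by omega)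
    refine div_le_div_of_nonneg_right ?_ h0.le
    refine (hsub r (Finset.Icc 1 (r / 2)) ?_).trans ?_
    · intro d hd
      obtain ⟨h1, h2, h3⟩ := hfp r d hd
      rw [Finset.mem_Icc]
      refine ⟨h1, ?_⟩
      obtain ⟨c, hc⟩ := h3
      have hc2 : 2 ≤ c := by
        by_contra hcon
        have : c = 0 ∨ c = 1 := by omega
        rcases this with h | h
        · rw [h] at hc; omega
        · rw [h] at hc; omega
      have : d * 2 ≤ r := by
        rw [hc]
        exact Nat.mul_le_mul_left d hc2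
      omega
    · refine le_trans (Finset.sum_le_sum fun d hd => ?_) (geo_le hq (r / 2))
      have := hJle d (Finset.mem_Icc.1 hd).1
      linarith

end Pool.Agent.PSD
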