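import Pool.Agent.PSD.Rec

/-!
# PSD/Est: comparison of `SL_n` with `GL_n`

`CC K k = rseq (r ↦ - (q^r - 1)⁻¹ • ZZ K k r for r > k, 0 for r ≤ k)`.

* `proj_BB`: let `P x = x - (q-1)⁻¹ • (aug x • SS K)`.  By `SS_mul`, `P x = (1 - e) x` with the
  idempotent `e = (q-1)⁻¹ • SS K`, and `(1 - e) * AA K 0 r = 0` by `AA_tot`, so
  `(1 - e) * AA K k r = - (1 - e) * ZZ K k r` (`AA_add_ZZ`), and for `r ≤ k` this is zero
  (`AA_small`).  Multiply `BB_rec` by `1 - e`: `(1 - e) BB` and `(1 - e) CC` satisfy the same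
  recursion `n x_n = - ∑_{r=k+1}^n (q^r-1)⁻¹ ZZ_r x_{n-r}`, with the same initial value `1 - e`;
  strong induction.
* `sl_eq`: coefficient at `1` of `proj_BB`, times `q - 1` (`cf` of `SS K` is `1`,
  `sl K k n = (q - 1) * cf (BB K k n) 1`, `aug_BB`).
* `l1_CC_le`: strong induction, `n l1 (CC n) ≤ ∑_{r=k+1}^n (q^r-1)⁻¹ l1 (ZZ r) l1 (CC (n-r))` and
  `l1 (ZZ r) ≤ aug (ZZ r) = (q^r - 1) eps` since the coefficients of `ZZ` are nonnegative.
* `sl_bb`: `(q-1) x_1 - ∑_c x_c = (q-2) x_1 - ∑_{c ≠ 1} x_c`; if `q = 2` there is no `c ≠ 1`; if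
  `q ≥ 3` the absolute value is at most `(q-2) ∑ |x_c|`.
-/

open Polynomial

namespace Pool.Agent.PSD

variable (K : Type) [Field K] [Fintype K] [DecidableEq K]

/-- the correction sequence -/
noncomputable def CC (k : ℕ) : ℕ → MonoidAlgebra ℝ Kˣ :=
  rseq fun r => if k < r then -(((Fintype.card K : ℝ) ^ r - 1)⁻¹ • ZZ K k r) else 0

theorem one_lt_card_real : (1 : ℝ) < (Fintype.card K : ℝ) := by
  exact_mod_cast Fintype.one_lt_card (α := K)

theorem pow_sub_pos {r : ℕ} (hr : 1 ≤ r) : 0 < (Fintype.card K : ℝ) ^ r - 1 := by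
  have h := one_lt_pow₀ (one_lt_card_real K) (by omega : r ≠ 0)
  linarith

theorem eps_nonneg (k r : ℕ) : 0 ≤ eps K k r := by
  unfold eps
  apply div_nonneg
  · apply Finset.sum_nonneg
    intro d _
    apply mul_nonneg (Nat.cast_nonneg d)
    unfold ID
    exact Finset.sum_nonneg fun c _ => Nat.cast_nonneg _
  · have h := one_le_pow₀ (n := r) (one_lt_card_real K).le
    linarith

/-- the idempotent -/
noncomputable def ee0 : MonoidAlgebra ℝ Kˣ := ((Fintype.card K : ℝ) - 1)⁻¹ • SS K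

theorem ee0_mul (x : MonoidAlgebra ℝ Kˣ) :
    ee0 K * x = ((Fintype.card K : ℝ) - 1)⁻¹ • (aug x • SS K) := by
  unfold ee0
  rw [smul_mul_assoc, SS_mul]

theorem proj_eq (x : MonoidAlgebra ℝ Kˣ) :
    (1 - ee0 K) * x = x - ((Fintype.card K : ℝ) - 1)⁻¹ • (aug x • SS K) := by
  rw [sub_mul, one_mul, ee0_mul]

theorem proj_SS : (1 - ee0 K) * SS K = 0 := by
  rw [proj_eq, aug_SS, smul_smul, inv_mul_cancel₀, one_smul, sub_self]
  have h := one_lt_card_real K
  linarith

theorem proj_AA (k : ℕ) {r : ℕ} (hr : 1 ≤ r) :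
    (1 - ee0 K) * AA K k r = -((1 - ee0 K) * ZZ K k r) := by
  have h1 : AA K k r = AA K 0 r - ZZ K k r := by
    rw [← AA_add_ZZ K k hr]
    ring
  have h2 : (1 - ee0 K) * AA K 0 r = 0 := by
    rw [AA_tot K hr, mul_smul_comm, proj_SS, smul_zero]
  rw [h1, mul_sub, h2, zero_sub]

theorem CC_rec (k n : ℕ) :
    (n : ℝ) • CC K k n = ∑ r ∈ Finset.Icc 1 n,
      (if k < r then -(((Fintype.card K : ℝ) ^ r - 1)⁻¹ • ZZ K k r) else 0) *
        CC K k (n - r) := by
  unfold CC
  exact rseq_rec _ n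

theorem proj_aux (k n : ℕ) : (1 - ee0 K) * BB K k n = (1 - ee0 K) * CC K k n := by
  induction n using Nat.strong_induction_on with
  | _ n ih =>
    rcases Nat.eq_zero_or_pos n with h0 | hn
    · subst h0
      rw [BB_zero]
      unfold CC
      rw [rseq_zero]
    · have hn0 : (n : ℝ) ≠ 0 := by
        exact_mod_cast hn.ne'
      have h1 : (n : ℝ) • ((1 - ee0 K) * BB K k n) = (n : ℝ) • ((1 - ee0 K) * CC K k n) := by
        rw [← mul_smul_comm, ← mul_smul_comm, BB_rec K k hn, CC_rec, Finset.mul_sum,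
          Finset.mul_sum]
        refine Finset.sum_congr rfl fun r hr => ?_
        rw [Finset.mem_Icc] at hr
        have ih' := ih (n - r) (by omega)
        by_cases hk : k < r
        · rw [if_pos hk]
          have e1 : (1 - ee0 K) * ((((Fintype.card K : ℝ) ^ r - 1)⁻¹ • AA K k r) *
              BB K k (n - r)) =
              ((((Fintype.card K : ℝ) ^ r - 1)⁻¹) • ((1 - ee0 K) * AA K k r)) *
                BB K k (n - r) := by
            rw [smul_mul_assoc, mul_smul_comm, smul_mul_assoc, mul_assoc]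
          have e2 : (1 - ee0 K) * (-((((Fintype.card K : ℝ) ^ r - 1)⁻¹) • ZZ K k r) *
              CC K k (n - r)) =
              -((((Fintype.card K : ℝ) ^ r - 1)⁻¹) • ZZ K k r) *
                ((1 - ee0 K) * CC K k (n - r)) := by
            ring
          have e3 : ((((Fintype.card K : ℝ) ^ r - 1)⁻¹) • (-((1 - ee0 K) * ZZ K k r))) *
              BB K k (n - r) =
              -((((Fintype.card K : ℝ) ^ r - 1)⁻¹) • ZZ K k r) *
                ((1 - ee0 K) * BB K k (n - r)) := by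
            rw [smul_neg, ← mul_smul_comm]
            ring
          rw [e1, e2, proj_AA K k hr.1, e3, ih']
        · rw [if_neg hk, AA_small K (by omega : r ≤ k), smul_zero]
          ring
      exact smul_right_injective _ hn0 h1

theorem proj_BB (k n : ℕ) :
    BB K k n - ((Fintype.card K : ℝ) - 1)⁻¹ • (aug (BB K k n) • SS K) =
      CC K k n - ((Fintype.card K : ℝ) - 1)⁻¹ • (aug (CC K k n) • SS K) := by
  rw [← proj_eq, ← proj_eq, proj_aux]

theorem cf_SS (c : Kˣ) : cf (SS K) c = 1 := by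
  unfold SS
  rw [cf_sg]

theorem sl_eq (k n : ℕ) :
    sl K k n = bb K k n + ((Fintype.card K : ℝ) - 1) * cf (CC K k n) 1 - aug (CC K k n) := by
  have h1 := congrArg (fun x => cf x (1 : Kˣ)) (proj_BB K k n)
  simp only [cf_sub, cf_smul, cf_SS, mul_one] at h1
  have h2 : cf (BB K k n) 1 = (NB K k n 1 : ℝ) / (gl K n : ℝ) := by
    unfold BB
    rw [cf_sg]
  have hq : ((Fintype.card K : ℝ) - 1) ≠ 0 := by
    have h := one_lt_card_real K
    intro h0
    linarith
  have h3 : sl K k n = ((Fintype.card K : ℝ) - 1) * cf (BB K k n) 1 := by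
    rw [h2]
    unfold sl
    rw [mul_div_assoc]
  have h4 : ((Fintype.card K : ℝ) - 1) * (cf (BB K k n) 1 -
      ((Fintype.card K : ℝ) - 1)⁻¹ * aug (BB K k n)) =
      ((Fintype.card K : ℝ) - 1) * (cf (CC K k n) 1 -
      ((Fintype.card K : ℝ) - 1)⁻¹ * aug (CC K k n)) := by rw [h1]
  rw [mul_sub, mul_sub, mul_inv_cancel_left₀ hq, mul_inv_cancel_left₀ hq, ← h3, aug_BB] at h4
  linarith

theorem cf_ZZ_nonneg (k r : ℕ) (c : Kˣ) : 0 ≤ cf (ZZ K k r) c := by
  unfold ZZ
  rw [cf_sum]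
  refine Finset.sum_nonneg fun d _ => ?_
  rw [cf_sum]
  refine Finset.sum_nonneg fun a _ => ?_
  rw [cf_single]
  split_ifs
  · positivity
  · exact le_refl _

theorem l1_ZZ (k : ℕ) {r : ℕ} (hr : 1 ≤ r) :
    l1 (ZZ K k r) = ((Fintype.card K : ℝ) ^ r - 1) * eps K k r := by
  rw [← aug_ZZ K k hr, aug_eq_sum]
  unfold l1
  exact Finset.sum_congr rfl fun c _ => abs_of_nonneg (cf_ZZ_nonneg K k r c)

theorem beta_rec (k n : ℕ) :
    (n : ℝ) * beta K k n = ∑ r ∈ Finset.Icc 1 n,
      (if k < r then eps K k r else 0) * beta K k (n - r) := by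
  have h := rseq_rec (fun r => if k < r then eps K k r else 0) n
  rw [smul_eq_mul] at h
  unfold beta
  exact h

theorem l1_CC_le (k n : ℕ) : l1 (CC K k n) ≤ beta K k n := by
  induction n using Nat.strong_induction_on with
  | _ n ih =>
    rcases Nat.eq_zero_or_pos n with h0 | hn
    · subst h0
      unfold CC beta
      rw [rseq_zero, rseq_zero, l1_one]
    · have hn0 : (0 : ℝ) < (n : ℝ) := by
        exact_mod_cast hn
      have h1 : (n : ℝ) * l1 (CC K k n) ≤ (n : ℝ) * beta K k n := by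
        have e1 : (n : ℝ) * l1 (CC K k n) = l1 ((n : ℝ) • CC K k n) := by
          rw [l1_smul, abs_of_pos hn0]
        rw [e1, CC_rec, beta_rec]
        refine (l1_sum_le _ _).trans (Finset.sum_le_sum fun r hr => ?_)
        rw [Finset.mem_Icc] at hr
        refine (l1_mul_le _ _).trans ?_
        have hw : l1 (if k < r then -(((Fintype.card K : ℝ) ^ r - 1)⁻¹ • ZZ K k r) else 0) =
            if k < r then eps K k r else 0 := by
          split_ifs with hk
          · rw [← neg_smul, l1_smul, abs_neg, l1_ZZ K k hr.1,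
              abs_of_pos (inv_pos.2 (pow_sub_pos K hr.1)),
              inv_mul_cancel_left₀ (pow_sub_pos K hr.1).ne']
          · rw [← zero_smul ℝ (1 : MonoidAlgebra ℝ Kˣ), l1_smul, abs_zero, zero_mul]
        rw [hw]
        refine mul_le_mul_of_nonneg_left (ih (n - r) (by omega)) ?_
        split_ifs
        · exact eps_nonneg K k r
        · exact le_refl _
      exact le_of_mul_le_mul_left h1 hn0

theorem sl_bb (k n : ℕ) :
    |sl K k n - bb K k n| ≤ ((Fintype.card K : ℝ) - 2) * beta K k n := by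
  have h1 : sl K k n - bb K k n =
      ((Fintype.card K : ℝ) - 2) * cf (CC K k n) 1 -
        ∑ c ∈ Finset.univ.erase (1 : Kˣ), cf (CC K k n) c := by
    have h2 := Finset.add_sum_erase Finset.univ (fun c : Kˣ => cf (CC K k n) c)
      (Finset.mem_univ (1 : Kˣ))
    rw [sl_eq, aug_eq_sum, ← h2]
    ring
  have h3 : l1 (CC K k n) = |cf (CC K k n) 1| +
      ∑ c ∈ Finset.univ.erase (1 : Kˣ), |cf (CC K k n) c| := by
    unfold l1
    exact (Finset.add_sum_erase Finset.univ (fun c : Kˣ => |cf (CC K k n) c|)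
      (Finset.mem_univ (1 : Kˣ))).symm
  have hc : 2 ≤ Fintype.card K := Fintype.one_lt_card (α := K)
  have hcR : (0 : ℝ) ≤ (Fintype.card K : ℝ) - 2 := by
    have : (2 : ℝ) ≤ (Fintype.card K : ℝ) := by exact_mod_cast hc
    linarith
  have hS : |∑ c ∈ Finset.univ.erase (1 : Kˣ), cf (CC K k n) c| ≤
      ((Fintype.card K : ℝ) - 2) * ∑ c ∈ Finset.univ.erase (1 : Kˣ), |cf (CC K k n) c| := by
    rcases Nat.lt_or_ge 2 (Fintype.card K) with h | h
    · have h4 : (1 : ℝ) ≤ (Fintype.card K : ℝ) - 2 := by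
        have : (3 : ℝ) ≤ (Fintype.card K : ℝ) := by exact_mod_cast h
        linarith
      have h5 : 0 ≤ ∑ c ∈ Finset.univ.erase (1 : Kˣ), |cf (CC K k n) c| :=
        Finset.sum_nonneg fun c _ => abs_nonneg _
      calc |∑ c ∈ Finset.univ.erase (1 : Kˣ), cf (CC K k n) c|
          ≤ ∑ c ∈ Finset.univ.erase (1 : Kˣ), |cf (CC K k n) c| :=
            Finset.abs_sum_le_sum_abs _ _
        _ ≤ _ := le_mul_of_one_le_left h5 h4
    · have h4 : Fintype.card Kˣ = 1 := by
        rw [Fintype.card_units]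
        omega
      have h5 : Finset.univ.erase (1 : Kˣ) = ∅ := by
        rw [Finset.eq_empty_iff_forall_notMem]
        intro c hcm
        have h6 := (Fintype.card_le_one_iff.1 h4.le) c 1
        exact (Finset.ne_of_mem_erase hcm) h6
      rw [h5]
      simp
  rw [h1]
  calc |((Fintype.card K : ℝ) - 2) * cf (CC K k n) 1 -
        ∑ c ∈ Finset.univ.erase (1 : Kˣ), cf (CC K k n) c|
      ≤ |((Fintype.card K : ℝ) - 2) * cf (CC K k n) 1| +
        |∑ c ∈ Finset.univ.erase (1 : Kˣ), cf (CC K k n) c| := abs_sub _ _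
    _ ≤ ((Fintype.card K : ℝ) - 2) * |cf (CC K k n) 1| +
        ((Fintype.card K : ℝ) - 2) * ∑ c ∈ Finset.univ.erase (1 : Kˣ), |cf (CC K k n) c| := by
        rw [abs_mul, abs_of_nonneg hcR]
        exact add_le_add (le_refl _) hS
    _ = ((Fintype.card K : ℝ) - 2) * l1 (CC K k n) := by rw [h3]; ring
    _ ≤ _ := mul_le_mul_of_nonneg_left (l1_CC_le K k n) hcR

theorem beta_isBeta (k : ℕ) : IsBeta k (eps K k) (beta K k) := by
  refine ⟨?_, fun n hn => ?_⟩
  · unfold beta
    rw [rseq_zero]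
  · rw [beta_rec]
    have hsub : Finset.Icc (k + 1) n ⊆ Finset.Icc 1 n := by
      intro r hr
      rw [Finset.mem_Icc] at hr ⊢
      omega
    rw [← Finset.sum_subset hsub]
    · refine Finset.sum_congr rfl fun r hr => ?_
      rw [Finset.mem_Icc] at hr
      rw [if_pos (by omega : k < r)]
    · intro r hr hr'
      rw [Finset.mem_Icc] at hr hr'
      rw [if_neg (by omega : ¬ k < r), zero_mul]

end Pool.Agent.PSD
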