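import Pool.Agent.PSD.XsCount

/-!
# PSD/F1: the first recursion

Count the pairs `(g, v)`, `g ∈ GS K (Fin n → K) k c`, `v ≠ 0`, according to
`i = dim cyc g v ∈ {1, ..., n}` (`cyc g v = ⊥` iff `v = 0`; `≤ n` by `Submodule.finrank_le`):
`NB K k n c * (q^n - 1) = ∑_{i=1}^n (XS K (Fin n → K) k i c).ncard`.  With `ncard_XS` (`m = n - i`)
divide by `gl K n` and `gl K (n - i)` (`gl_pos`).
-/

open Polynomial

namespace Pool.Agent.PSD

variable (K : Type) [Field K] [Fintype K] [DecidableEq K]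

omit [Fintype K] [DecidableEq K] in
private theorem cyc_pos (n : ℕ) (g : Module.End K (Fin n → K)) (v : Fin n → K) (hv : v ≠ 0) :
    1 ≤ Module.finrank K (cyc g v) := by
  rw [Submodule.one_le_finrank_iff]
  intro h
  apply hv
  have h1 : v ∈ cyc g v := Submodule.subset_span ⟨0, by simp⟩
  rw [h] at h1
  exact (Submodule.mem_bot K).mp h1

omit [Fintype K] [DecidableEq K] in
private theorem cyc_zero (n : ℕ) (g : Module.End K (Fin n → K)) :
    Module.finrank K (cyc g (0 : Fin n → K)) = 0 := by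
  have h1 : cyc g (0 : Fin n → K) = ⊥ := by
    unfold cyc
    rw [Submodule.span_eq_bot]
    rintro _ ⟨j, rfl⟩
    simp
  rw [h1]
  simp

theorem sum_XS (k n : ℕ) (c : Kˣ) :
    NB K k n c * (Fintype.card K ^ n - 1) =
      ∑ i ∈ Finset.Icc 1 n, (XS K (Fin n → K) k i c).ncard := by
  classical
  have : Fintype ((Fin n → K) ≃ₗ[K] (Fin n → K)) := Fintype.ofFinite _
  set P : Set (((Fin n → K) ≃ₗ[K] (Fin n → K)) × (Fin n → K)) :=
    (GS K (Fin n → K) k c) ×ˢ ({0}ᶜ : Set (Fin n → K)) with hP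
  have h1 : P.ncard = NB K k n c * (Fintype.card K ^ n - 1) := by
    rw [hP, Set.ncard_prod]
    congr 1
    rw [Set.ncard_compl, Set.ncard_singleton, Nat.card_eq_fintype_card]
    simp
  rw [← h1]
  have h2 : P.ncard = P.toFinset.card := by rw [Set.ncard_eq_toFinset_card' P]
  rw [h2, Finset.card_eq_sum_card_fiberwise
    (f := fun x => Module.finrank K (cyc x.1.toLinearMap x.2)) (t := Finset.Icc 1 n)]
  · refine Finset.sum_congr rfl fun i hi => ?_
    rw [Finset.mem_Icc] at hi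
    rw [← Set.ncard_coe_finset]
    congr 1
    ext x
    simp only [Finset.coe_filter, Set.mem_toFinset, hP, Set.mem_prod, Set.mem_compl_iff,
      Set.mem_singleton_iff, GS, XS, Set.mem_ofPred_eq]
    constructor
    · rintro ⟨⟨⟨a1, a2⟩, _⟩, a4⟩
      exact ⟨a1, a2, a4⟩
    · rintro ⟨a1, a2, a4⟩
      refine ⟨⟨⟨a1, a2⟩, ?_⟩, a4⟩
      intro h0
      rw [h0, cyc_zero] at a4
      omega
  · intro x hx
    have hx' : x ∈ P := by simpa using hx
    have hx0 : x.2 ≠ 0 := hx'.2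
    simp only [Finset.coe_Icc, Set.mem_Icc]
    refine ⟨cyc_pos K n _ _ hx0, ?_⟩
    refine (Submodule.finrank_le _).trans ?_
    simp

private theorem one_term (k n i : ℕ) (c : Kˣ) (h1 : 1 ≤ i) (h2 : i ≤ n) :
    ((XS K (Fin n → K) k i c).ncard : ℝ) / (gl K n : ℝ) = ∑ a : Kˣ,
        (PM K k i a : ℝ) * ((NB K k (n - i) (a⁻¹ * c) : ℝ) / (gl K (n - i) : ℝ)) := by
  obtain ⟨m, rfl⟩ := Nat.exists_eq_add_of_le h2
  rw [Nat.add_sub_cancel_left]
  have h3 := ncard_XS K (i := i) (m := m) h1 k c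
  have h4 : (gl K m : ℝ) ≠ 0 := by
    have := gl_pos K m
    positivity
  have h5 : (gl K (i + m) : ℝ) ≠ 0 := by
    have := gl_pos K (i + m)
    positivity
  have h6 : ((XS K (Fin (i + m) → K) k i c).ncard : ℝ) * (gl K m : ℝ) =
      (gl K (i + m) : ℝ) * ∑ a : Kˣ, (PM K k i a : ℝ) * (NB K k m (a⁻¹ * c) : ℝ) := by
    exact_mod_cast h3
  have h7 : ∑ a : Kˣ, (PM K k i a : ℝ) * ((NB K k m (a⁻¹ * c) : ℝ) / (gl K m : ℝ)) =
      (∑ a : Kˣ, (PM K k i a : ℝ) * (NB K k m (a⁻¹ * c) : ℝ)) / (gl K m : ℝ) := by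
    rw [Finset.sum_div]
    exact Finset.sum_congr rfl fun a _ => by rw [mul_div_assoc]
  rw [h7, div_eq_div_iff h5 h4, h6]
  ring

theorem F1 (k n : ℕ) (c : Kˣ) :
    ((Fintype.card K : ℝ) ^ n - 1) * ((NB K k n c : ℝ) / (gl K n : ℝ)) =
      ∑ i ∈ Finset.Icc 1 n, ∑ a : Kˣ,
        (PM K k i a : ℝ) * ((NB K k (n - i) (a⁻¹ * c) : ℝ) / (gl K (n - i) : ℝ)) := by
  have h1 : ∀ i ∈ Finset.Icc 1 n, ∑ a : Kˣ,
        (PM K k i a : ℝ) * ((NB K k (n - i) (a⁻¹ * c) : ℝ) / (gl K (n - i) : ℝ)) =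
      ((XS K (Fin n → K) k i c).ncard : ℝ) / (gl K n : ℝ) := by
    intro i hi
    rw [Finset.mem_Icc] at hi
    exact (one_term K k n i c hi.1 hi.2).symm
  rw [Finset.sum_congr rfl h1, ← Finset.sum_div, ← Nat.cast_sum, ← sum_XS K k n c]
  have h2 : 1 ≤ Fintype.card K ^ n := Nat.one_le_pow _ _ Fintype.card_pos
  rw [Nat.cast_mul, Nat.cast_sub h2]
  push_cast
  ring

end Pool.Agent.PSD
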