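import Pool.Agent.PSD.Defs

/-!
# PSD/Ins: the decomposition `V = S ⊕ T`

`IsDec k s f S T` : `V = S ⊕ T`, both invariant, `dim S = s`, `f` is `Big k` on `T`
(so `InS k s f` is `∃ S T, IsDec k s f S T`).

* `small_inv_eq_bot`: if `R ≤ T` is invariant and `dim R ≤ k` then the characteristic polynomial
  `χ` of `f` restricted to `R` (`LinearMap.restrict`, `LinearMap.aeval_self_charpoly`) has degree
  `dim R ≤ k` and kills `R`; so `R = ⊥`.
* `dec_poly`: let `χ` be the characteristic polynomial of `f` restricted to `S`, `deg χ = s ≤ k`.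
  It kills `S`, and is injective on `T`, which it maps into `T`; hence `ker χ(f) = S` and
  `range χ(f) = T` (dimension).
* `dec_not_inv`: `R` invariant with `s < dim R ≤ k`: `χ(f)(R) ≤ R ⊓ T` and
  `dim χ(f)(R) ≥ dim R - dim S > 0`, so `R ⊓ T` is a nonzero invariant subspace of `T` of dimension
  `≤ k`, contradiction to `small_inv_eq_bot`.
* `dec_unique`: let `S', T'` be another decomposition with the same `s ≤ k`.  `χ(f)(S') ≤ S' ⊓ T`,
  which is an invariant subspace of `T` of dimension `≤ s ≤ k`, so zero; hence `S' ≤ ker χ(f) = S`,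
  and `S' = S` by dimension.  Then `χ` kills `S' = S` and is injective on `T'`, so
  `T' = range χ(f) = T` as before.
-/

open Polynomial

namespace Pool.Agent.PSD

variable {K V : Type} [Field K] [AddCommGroup V] [Module K V]

/-- `V = S ⊕ T`, both invariant, `dim S = s` and `f` is `Big k` on `T` -/
def IsDec (k s : ℕ) (f : Module.End K V) (S T : Submodule K V) : Prop :=
  IsCompl S T ∧ Module.finrank K S = s ∧ S ≤ S.comap f ∧ T ≤ T.comap f ∧
    ∀ φ : K[X], φ ≠ 0 → φ.natDegree ≤ k → ∀ x ∈ T, aeval f φ x = 0 → x = 0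

theorem inS_iff (k s : ℕ) (f : Module.End K V) : InS k s f ↔ ∃ S T, IsDec k s f S T := Iff.rfl

private theorem aeval_mem {f : Module.End K V} {R : Submodule K V} (hR : R ≤ R.comap f)
    (φ : K[X]) : ∀ x ∈ R, aeval f φ x ∈ R := by
  induction φ using Polynomial.induction_on with
  | C a =>
    intro x hx
    rw [aeval_C, Module.algebraMap_end_apply]
    exact R.smul_mem a hx
  | add p q hp hq =>
    intro x hx
    rw [map_add, LinearMap.add_apply]
    exact R.add_mem (hp x hx) (hq x hx)
  | monomial n a ih =>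
    intro x hx
    have h1 : aeval f (C a * X ^ (n + 1)) x = aeval f (C a * X ^ n) (f x) := by
      rw [pow_succ, ← mul_assoc, map_mul, aeval_X, Module.End.mul_apply]
    rw [h1]
    exact ih _ (hR hx)

private theorem aeval_comm (f : Module.End K V) (φ : K[X]) (x : V) :
    f (aeval f φ x) = aeval f φ (f x) := by
  have h1 : f * aeval f φ = aeval f φ * f := by
    have h2 : aeval f (X * φ) = aeval f (φ * X) := by rw [mul_comm]
    rwa [map_mul, map_mul, aeval_X] at h2
  exact congrArg (fun g : Module.End K V => g x) h1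

private theorem aeval_restr {f : Module.End K V} {R : Submodule K V} (hR : ∀ x ∈ R, f x ∈ R)
    (φ : K[X]) : ∀ x : R, ((aeval (f.restrict hR) φ x : R) : V) = aeval f φ (x : V) := by
  induction φ using Polynomial.induction_on with
  | C a =>
    intro x
    rw [aeval_C, aeval_C, Module.algebraMap_end_apply, Module.algebraMap_end_apply]
    rfl
  | add p q hp hq =>
    intro x
    rw [map_add, map_add, LinearMap.add_apply, LinearMap.add_apply, Submodule.coe_add, hp, hq]
  | monomial n a ih =>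
    intro x
    have h1 : aeval f (C a * X ^ (n + 1)) (x : V) = aeval f (C a * X ^ n) (f x) := by
      rw [pow_succ, ← mul_assoc, map_mul, aeval_X, Module.End.mul_apply]
    have h2 : aeval (f.restrict hR) (C a * X ^ (n + 1)) x =
        aeval (f.restrict hR) (C a * X ^ n) (f.restrict hR x) := by
      rw [pow_succ, ← mul_assoc, map_mul, aeval_X, Module.End.mul_apply]
    rw [h1, h2, ih]
    rfl

variable [Module.Finite K V]

private theorem exists_char {f : Module.End K V} {R : Submodule K V} (hR : R ≤ R.comap f) :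
    ∃ χ : K[X], χ.Monic ∧ χ.natDegree = Module.finrank K R ∧ ∀ x ∈ R, aeval f χ x = 0 := by
  have hR' : ∀ x ∈ R, f x ∈ R := fun x hx => hR hx
  refine ⟨(f.restrict hR').charpoly, LinearMap.charpoly_monic _, LinearMap.charpoly_natDegree _, ?_⟩
  intro x hx
  have h := aeval_restr hR' (f.restrict hR').charpoly ⟨x, hx⟩
  rw [LinearMap.aeval_self_charpoly] at h
  exact h.symm

theorem small_inv_eq_bot {k : ℕ} {f : Module.End K V} {T : Submodule K V}
    (hT : ∀ φ : K[X], φ ≠ 0 → φ.natDegree ≤ k → ∀ x ∈ T, aeval f φ x = 0 → x = 0)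
    {R : Submodule K V} (hRT : R ≤ T) (hR : R ≤ R.comap f) (hk : Module.finrank K R ≤ k) :
    R = ⊥ := by
  obtain ⟨χ, hm, hd, hχ⟩ := exists_char hR
  rw [Submodule.eq_bot_iff]
  intro x hx
  exact hT χ hm.ne_zero (by rw [hd]; exact hk) x (hRT hx) (hχ x hx)

private theorem dec_poly' {k s : ℕ} {f : Module.End K V} {S T : Submodule K V}
    (h : IsDec k s f S T) {χ : K[X]} (hm : χ.Monic) (hd : χ.natDegree ≤ k)
    (hχ : ∀ x ∈ S, aeval f χ x = 0) :
    LinearMap.ker (aeval f χ) = S ∧ LinearMap.range (aeval f χ) = T := by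
  obtain ⟨hc, hs, hS, hT, hk⟩ := h
  have hdec : ∀ x : V, ∃ a ∈ S, ∃ b ∈ T, a + b = x := by
    intro x
    have hx : x ∈ S ⊔ T := by rw [hc.sup_eq_top]; trivial
    exact Submodule.mem_sup.1 hx
  have hker : LinearMap.ker (aeval f χ) = S := by
    apply le_antisymm
    · intro x hx
      rw [LinearMap.mem_ker] at hx
      obtain ⟨a, ha, b, hb, rfl⟩ := hdec x
      rw [map_add, hχ a ha, zero_add] at hx
      rw [hk χ hm.ne_zero hd b hb hx, add_zero]
      exact ha
    · intro x hx
      exact LinearMap.mem_ker.2 (hχ x hx)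
  refine ⟨hker, ?_⟩
  apply Submodule.eq_of_le_of_finrank_eq
  · rintro _ ⟨x, rfl⟩
    obtain ⟨a, ha, b, hb, rfl⟩ := hdec x
    rw [map_add, hχ a ha, zero_add]
    exact aeval_mem hT χ b hb
  · have h1 := LinearMap.finrank_range_add_finrank_ker (aeval f χ)
    have h2 := Submodule.finrank_add_eq_of_isCompl hc
    rw [hker] at h1
    omega

theorem dec_poly {k s : ℕ} {f : Module.End K V} {S T : Submodule K V} (h : IsDec k s f S T)
    (hsk : s ≤ k) :
    ∃ χ : K[X], χ.Monic ∧ χ.natDegree = s ∧ LinearMap.ker (aeval f χ) = S ∧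
      LinearMap.range (aeval f χ) = T := by
  obtain ⟨χ, hm, hd, hχ⟩ := exists_char h.2.2.1
  rw [h.2.1] at hd
  exact ⟨χ, hm, hd, dec_poly' h hm (by rw [hd]; exact hsk) hχ⟩

private theorem inv_le {k s : ℕ} {f : Module.End K V} {S T : Submodule K V}
    (h : IsDec k s f S T) (hsk : s ≤ k)
    {R : Submodule K V} (hR : R ≤ R.comap f) (h2 : Module.finrank K R ≤ k) : R ≤ S := by
  obtain ⟨χ, hm, hd, hker, hran⟩ := dec_poly h hsk
  have h3 : R.map (aeval f χ) = ⊥ := by
    apply small_inv_eq_bot h.2.2.2.2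
    · rintro _ ⟨x, _, rfl⟩
      rw [← hran]
      exact LinearMap.mem_range_self _ x
    · rintro _ ⟨x, hx, rfl⟩
      rw [Submodule.mem_comap, aeval_comm]
      exact Submodule.mem_map_of_mem (hR hx)
    · exact le_trans (Submodule.finrank_map_le _ _) h2
  rw [← hker]
  intro x hx
  rw [LinearMap.mem_ker, ← Submodule.mem_bot K, ← h3]
  exact Submodule.mem_map_of_mem hx

theorem dec_not_inv {k s : ℕ} {f : Module.End K V} {S T : Submodule K V} (h : IsDec k s f S T)
    {R : Submodule K V} (hR : R ≤ R.comap f) (h1 : s < Module.finrank K R)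
    (h2 : Module.finrank K R ≤ k) : False := by
  have h3 := Submodule.finrank_mono (inv_le h (by omega) hR h2)
  rw [h.2.1] at h3
  omega

theorem dec_unique {k s : ℕ} {f : Module.End K V} {S T S' T' : Submodule K V}
    (h : IsDec k s f S T) (h' : IsDec k s f S' T') (hsk : s ≤ k) : S = S' ∧ T = T' := by
  have h1 : S' ≤ S := inv_le h hsk h'.2.2.1 (by rw [h'.2.1]; exact hsk)
  have h2 : S' = S := Submodule.eq_of_le_of_finrank_eq h1 (by rw [h.2.1, h'.2.1])
  subst h2
  refine ⟨rfl, ?_⟩
  obtain ⟨χ, hm, hd, hχ⟩ := exists_char h.2.2.1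
  rw [h.2.1] at hd
  rw [← (dec_poly' h hm (by rw [hd]; exact hsk) hχ).2,
    ← (dec_poly' h' hm (by rw [hd]; exact hsk) hχ).2]

theorem inS_disjoint {k s s' : ℕ} {f : Module.End K V} (h : InS k s f) (h' : InS k s' f)
    (hss : s < s') (hs' : s' ≤ k) : False := by
  obtain ⟨S, T, hd⟩ := h
  obtain ⟨S', T', hd'⟩ := h'
  exact dec_not_inv hd hd'.2.2.1 (by rw [hd'.2.1]; exact hss) (by rw [hd'.2.1]; exact hs')

theorem inS_noInv {k s : ℕ} {f : Module.End K V} (h : InS k s f) (hsk : s < k) : NoInv k f := by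
  obtain ⟨S, T, hd⟩ := h
  intro R hRk hR
  exact dec_not_inv hd hR (by rw [hRk]; exact hsk) (le_of_eq hRk)

theorem big_iff_inS (k : ℕ) (f : Module.End K V) : Big k f ↔ InS k 0 f := by
  constructor
  · intro h
    refine ⟨⊥, ⊤, isCompl_bot_top, finrank_bot K V, bot_le, le_top, ?_⟩
    intro φ h0 hd x _ hx
    exact h φ h0 hd (by rw [hx, map_zero])
  · rintro ⟨S, T, hc, hs, -, -, hk⟩ φ h0 hd
    have hS : S = ⊥ := Submodule.finrank_eq_zero.1 hs
    subst hS
    have hT : T = ⊤ := by
      have := hc.sup_eq_top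
      rwa [bot_sup_eq] at this
    subst hT
    rw [injective_iff_map_eq_zero]
    intro x hx
    exact hk φ h0 hd x trivial hx

end Pool.Agent.PSD
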