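import Pool.Agent.PSD.Conj
import Pool.Agent.PSD.Orbit
import Pool.Agent.PSD.Grp
import Pool.Agent.PSD.Ins

/-!
# PSD/F2: the number of automorphisms with `InS k s`

Put `U = Fin s → K`, `W = Fin m → K`, `V = U × W` (`ncard_IS_congr` with an isomorphism
`(Fin (s + m) → K) ≃ₗ U × W`).  Apply `orbit_count` with `G = V ≃ₗ V` acting on `α = V ≃ₗ V` by
`act h g = cj h g` (`cj_eq_mul`), `X = IS K V k s c`, `Y = YD K k s m c`, `H = DS K s m`.
-/

open Polynomial

namespace Pool.Agent.PSD

section

variable {K V V' : Type} [Field K] [AddCommGroup V] [Module K V] [AddCommGroup V'] [Module K V']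

private theorem isDec_cj {k s : ℕ} (e : V ≃ₗ[K] V') {g : V ≃ₗ[K] V} {S T : Submodule K V}
    (h : IsDec k s g.toLinearMap S T) :
    IsDec k s (cj e g).toLinearMap (S.map e.toLinearMap) (T.map e.toLinearMap) := by
  obtain ⟨hc, hs, hS, hT, hb⟩ := h
  have hinj : Function.Injective e.toLinearMap := e.injective
  refine ⟨?_, ?_, ?_, ?_, ?_⟩
  · have := hc.map (Submodule.orderIsoMapComap e)
    exact this
  · rw [← hs]
    exact LinearEquiv.finrank_map_eq e S
  · rintro x ⟨y, hy, rfl⟩
    refine ⟨g y, hS hy, ?_⟩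
    show e (g y) = e (g (e.symm (e y)))
    rw [e.symm_apply_apply]
  · rintro x ⟨y, hy, rfl⟩
    refine ⟨g y, hT hy, ?_⟩
    show e (g y) = e (g (e.symm (e y)))
    rw [e.symm_apply_apply]
  · rintro φ hφ hk x ⟨y, hy, rfl⟩ h0
    have h1 : aeval (cj e g).toLinearMap φ (e y) = e (aeval g.toLinearMap φ y) := aeval_cj e g φ y
    have h2 : e (aeval g.toLinearMap φ y) = 0 := by rw [← h1]; exact h0
    have h3 : aeval g.toLinearMap φ y = 0 := by
      rwa [LinearEquiv.map_eq_zero_iff] at h2
    have h4 := hb φ hφ hk y hy h3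
    rw [h4, map_zero]

variable {U W : Type} [AddCommGroup U] [Module K U] [AddCommGroup W] [Module K W]

private theorem mem_SU {x : U × W} : x ∈ LinearMap.range (LinearMap.inl K U W) ↔ x.2 = 0 := by
  constructor
  · rintro ⟨u, rfl⟩; rfl
  · intro h; exact ⟨x.1, Prod.ext rfl h.symm⟩

private theorem mem_TW {x : U × W} : x ∈ LinearMap.range (LinearMap.inr K U W) ↔ x.1 = 0 := by
  constructor
  · rintro ⟨u, rfl⟩; rfl
  · intro h; exact ⟨x.2, Prod.ext h.symm rfl⟩

end

variable (K : Type) [Field K]

private theorem mem_DS_of {s m : ℕ}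
    (h : ((Fin s → K) × (Fin m → K)) ≃ₗ[K] ((Fin s → K) × (Fin m → K)))
    (h1 : ∀ u : Fin s → K, (h (u, 0)).2 = 0) (h2 : ∀ w : Fin m → K, (h (0, w)).1 = 0) :
    h ∈ DS K s m := by
  have split : ∀ x : ((Fin s → K) × (Fin m → K)), h x = ((h (x.1, 0)).1, (h (0, x.2)).2) := by
    intro x
    have hx : x = (x.1, 0) + (0, x.2) := by simp
    have : h x = h (x.1, 0) + h (0, x.2) := by
      rw [← map_add, ← hx]
    rw [this]
    ext1
    · show (h (x.1, 0)).1 + (h (0, x.2)).1 = _
      rw [h2, add_zero]
    · show (h (x.1, 0)).2 + (h (0, x.2)).2 = _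
      rw [h1, zero_add]
  have z1 : ∀ u : Fin s → K, (h (u, 0)).1 = 0 → u = 0 := by
    intro u hu
    have : h (u, 0) = 0 := Prod.ext hu (h1 u)
    have := (LinearEquiv.map_eq_zero_iff h).mp this
    exact congrArg Prod.fst this
  have z2 : ∀ w : Fin m → K, (h (0, w)).2 = 0 → w = 0 := by
    intro w hw
    have : h (0, w) = 0 := Prod.ext (h2 w) hw
    have := (LinearEquiv.map_eq_zero_iff h).mp this
    exact congrArg Prod.snd this
  refine ⟨h1, h2, ?_, ?_⟩
  · intro u
    have h3 : h (h⁻¹ (u, 0)) = (u, 0) := h.apply_symm_apply _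
    rw [split] at h3
    exact z2 _ (congrArg Prod.snd h3)
  · intro w
    have h3 : h (h⁻¹ (0, w)) = (0, w) := h.apply_symm_apply _
    rw [split] at h3
    exact z1 _ (congrArg Prod.fst h3)

private theorem mem_YD_iff {k s m : ℕ} {c : Kˣ}
    (g : ((Fin s → K) × (Fin m → K)) ≃ₗ[K] ((Fin s → K) × (Fin m → K))) :
    g ∈ YD K k s m c ↔
      IsDec k s g.toLinearMap (LinearMap.range (LinearMap.inl K (Fin s → K) (Fin m → K)))
        (LinearMap.range (LinearMap.inr K (Fin s → K) (Fin m → K))) ∧ LinearEquiv.det g = c := by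
  constructor
  · rintro ⟨hD, hb, hdet⟩
    refine ⟨⟨LinearMap.isCompl_range_inl_inr, ?_, ?_, ?_, ?_⟩, hdet⟩
    · rw [LinearMap.finrank_range_of_inj LinearMap.inl_injective, Module.finrank_fin_fun]
    · intro x hx
      rw [mem_SU] at hx
      have hx' : x = (x.1, 0) := Prod.ext rfl hx
      rw [Submodule.mem_comap, mem_SU, hx']
      exact hD.1 x.1
    · intro x hx
      rw [mem_TW] at hx
      have hx' : x = (0, x.2) := Prod.ext hx rfl
      rw [Submodule.mem_comap, mem_TW, hx']
      exact hD.2.1 x.2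
    · intro φ hφ hk x hx h0
      rw [mem_TW] at hx
      have hx' : x = (0, x.2) := Prod.ext hx rfl
      rw [hx'] at h0
      have := hb φ hφ hk x.2 h0
      rw [hx', this]
      rfl
  · rintro ⟨⟨_, _, hS, hT, hb⟩, hdet⟩
    refine ⟨mem_DS_of K g ?_ ?_, ?_, hdet⟩
    · intro u
      have := hS (mem_SU.mpr (rfl : ((u, 0) : (Fin s → K) × (Fin m → K)).2 = 0))
      exact mem_SU.mp this
    · intro w
      have := hT (mem_TW.mpr (rfl : ((0, w) : (Fin s → K) × (Fin m → K)).1 = 0))
      exact mem_TW.mp this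
    · intro φ hφ hk w h0
      have := hb φ hφ hk (0, w) (mem_TW.mpr rfl) h0
      exact congrArg Prod.snd this

variable [Fintype K] [DecidableEq K]

theorem ncard_IS {s m k : ℕ} (hs : 1 ≤ s) (hsk : s ≤ k) (c : Kˣ) :
    (IS K (Fin (s + m) → K) k s c).ncard * (gl K m * (Fintype.card K - 1)) =
      gl K (s + m) * ∑ a : Kˣ, NB K k m a := by
  have hfr : Module.finrank K (Fin (s + m) → K) =
      Module.finrank K ((Fin s → K) × (Fin m → K)) := by
    rw [Module.finrank_prod, Module.finrank_fin_fun, Module.finrank_fin_fun,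
      Module.finrank_fin_fun]
  have e0 : (Fin (s + m) → K) ≃ₗ[K] ((Fin s → K) × (Fin m → K)) :=
    LinearEquiv.ofFinrankEq _ _ hfr
  rw [ncard_IS_congr e0]
  set SU : Submodule K ((Fin s → K) × (Fin m → K)) :=
    LinearMap.range (LinearMap.inl K (Fin s → K) (Fin m → K)) with hSU
  set TW : Submodule K ((Fin s → K) × (Fin m → K)) :=
    LinearMap.range (LinearMap.inr K (Fin s → K) (Fin m → K)) with hTW
  have hcount := orbit_count
    (G := ((Fin s → K) × (Fin m → K)) ≃ₗ[K] ((Fin s → K) × (Fin m → K)))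
    (α := ((Fin s → K) × (Fin m → K)) ≃ₗ[K] ((Fin s → K) × (Fin m → K)))
    (fun h g => cj h g)
    (fun x => by rw [cj_eq_mul]; simp)
    (fun g h x => by rw [cj_eq_mul, cj_eq_mul, cj_eq_mul, mul_inv_rev]; simp only [mul_assoc])
    (IS K ((Fin s → K) × (Fin m → K)) k s c) (YD K k s m c) (DS K s m)
    (by
      intro g hg
      rw [mem_YD_iff] at hg
      exact ⟨⟨_, _, hg.1⟩, hg.2⟩)
    (by
      rintro g x ⟨h1, h2⟩
      exact ⟨(inS_cj k s g x).mpr h1, (det_cj g x).trans h2⟩)
    (by
      rintro g ⟨⟨S, T, hd⟩, hdet⟩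
      have hdimS : Module.finrank K S = Module.finrank K (Fin s → K) := by
        rw [hd.2.1, Module.finrank_fin_fun]
      have hdimT : Module.finrank K T = Module.finrank K (Fin m → K) := by
        have h1 := Submodule.finrank_add_eq_of_isCompl hd.1
        rw [hd.2.1, Module.finrank_prod, Module.finrank_fin_fun, Module.finrank_fin_fun] at h1
        rw [Module.finrank_fin_fun]
        omega
      have e1 : S ≃ₗ[K] (Fin s → K) := LinearEquiv.ofFinrankEq _ _ hdimS
      have e2 : T ≃ₗ[K] (Fin m → K) := LinearEquiv.ofFinrankEq _ _ hdimT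
      let e : ((Fin s → K) × (Fin m → K)) ≃ₗ[K] ((Fin s → K) × (Fin m → K)) :=
        (Submodule.prodEquivOfIsCompl S T hd.1).symm.trans (LinearEquiv.prodCongr e1 e2)
      have hmS : S.map e.toLinearMap = SU := by
        apply le_antisymm
        · rintro x ⟨y, hy, rfl⟩
          rw [hSU, mem_SU]
          show ((LinearEquiv.prodCongr e1 e2)
            ((Submodule.prodEquivOfIsCompl S T hd.1).symm y)).2 = 0
          rw [LinearEquiv.prodCongr_apply]
          have : ((Submodule.prodEquivOfIsCompl S T hd.1).symm y).2 = 0 :=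
            (Submodule.prodEquivOfIsCompl_symm_apply_snd_eq_zero S T hd.1).mpr hy
          show e2 _ = 0
          rw [this, map_zero]
        · intro x hx
          rw [hSU, mem_SU] at hx
          refine ⟨((e1.symm x.1 : S) : (Fin s → K) × (Fin m → K)), (e1.symm x.1).2, ?_⟩
          show (LinearEquiv.prodCongr e1 e2)
            ((Submodule.prodEquivOfIsCompl S T hd.1).symm _) = x
          rw [Submodule.prodEquivOfIsCompl_symm_apply_left, LinearEquiv.prodCongr_apply]
          apply Prod.ext
          · show e1 (e1.symm x.1) = x.1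
            simp
          · show e2 0 = x.2
            rw [map_zero, hx]
      have hmT : T.map e.toLinearMap = TW := by
        apply le_antisymm
        · rintro x ⟨y, hy, rfl⟩
          rw [hTW, mem_TW]
          show ((LinearEquiv.prodCongr e1 e2)
            ((Submodule.prodEquivOfIsCompl S T hd.1).symm y)).1 = 0
          rw [LinearEquiv.prodCongr_apply]
          have : ((Submodule.prodEquivOfIsCompl S T hd.1).symm y).1 = 0 :=
            (Submodule.prodEquivOfIsCompl_symm_apply_fst_eq_zero S T hd.1).mpr hy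
          show e1 _ = 0
          rw [this, map_zero]
        · intro x hx
          rw [hTW, mem_TW] at hx
          refine ⟨((e2.symm x.2 : T) : (Fin s → K) × (Fin m → K)), (e2.symm x.2).2, ?_⟩
          show (LinearEquiv.prodCongr e1 e2)
            ((Submodule.prodEquivOfIsCompl S T hd.1).symm _) = x
          rw [Submodule.prodEquivOfIsCompl_symm_apply_right, LinearEquiv.prodCongr_apply]
          apply Prod.ext
          · show e1 0 = x.1
            rw [map_zero, hx]
          · show e2 (e2.symm x.2) = x.2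
            simp
      refine ⟨e⁻¹, cj e g, ?_, ?_⟩
      · rw [mem_YD_iff]
        refine ⟨?_, (det_cj e g).trans hdet⟩
        have := isDec_cj e hd
        rwa [hmS, hmT] at this
      · show cj e⁻¹ (cj e g) = g
        rw [cj_eq_mul, cj_eq_mul]
        group)
    (by
      intro h g hg hhg
      rw [mem_YD_iff] at hg
      have hhg' : cj h g ∈ YD K k s m c := hhg
      rw [mem_YD_iff] at hhg'
      have h1 := isDec_cj h hg.1
      obtain ⟨h2, h3⟩ := dec_unique h1 hhg'.1 hsk
      apply mem_DS_of
      · intro u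
        have h4 : h (u, 0) ∈ SU.map h.toLinearMap := ⟨(u, 0), mem_SU.mpr rfl, rfl⟩
        have h5 : SU.map h.toLinearMap = SU := h2
        rw [h5] at h4
        exact mem_SU.mp h4
      · intro w
        have h4 : h (0, w) ∈ TW.map h.toLinearMap := ⟨(0, w), mem_TW.mpr rfl, rfl⟩
        have h5 : TW.map h.toLinearMap = TW := h3
        rw [h5] at h4
        exact mem_TW.mp h4)
    (by
      intro h hh g hg
      show cj h g ∈ YD K k s m c
      rw [mem_YD_iff] at hg ⊢
      refine ⟨?_, (det_cj h g).trans hg.2⟩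
      have h1 := isDec_cj h hg.1
      obtain ⟨a1, a2, a3, a4⟩ := hh
      have hmS : SU.map h.toLinearMap = SU := by
        apply le_antisymm
        · rintro x ⟨y, hy, rfl⟩
          have hy' := mem_SU.mp hy
          have : y = (y.1, 0) := Prod.ext rfl hy'
          rw [hSU, mem_SU, this]
          exact a1 _
        · intro x hx
          have hx' := mem_SU.mp hx
          have : x = (x.1, 0) := Prod.ext rfl hx'
          refine ⟨h⁻¹ x, ?_, h.apply_symm_apply x⟩
          rw [this]
          exact mem_SU.mpr (a3 _)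
      have hmT : TW.map h.toLinearMap = TW := by
        apply le_antisymm
        · rintro x ⟨y, hy, rfl⟩
          have hy' := mem_TW.mp hy
          have : y = (0, y.2) := Prod.ext hy' rfl
          rw [hTW, mem_TW, this]
          exact a2 _
        · intro x hx
          have hx' := mem_TW.mp hx
          have : x = (0, x.2) := Prod.ext hx' rfl
          refine ⟨h⁻¹ x, ?_, h.apply_symm_apply x⟩
          rw [this]
          exact mem_TW.mpr (a4 _)
      rwa [hmS, hmT] at h1)
  have hcardG : Nat.card (((Fin s → K) × (Fin m → K)) ≃ₗ[K] ((Fin s → K) × (Fin m → K))) =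
      gl K (s + m) := (card_aut_congr e0).symm
  rw [hcardG, card_DS] at hcount
  have hYD := ncard_YD K hs k m c
  have hpos := gl_pos K s
  apply Nat.eq_of_mul_eq_mul_left hpos
  calc gl K s * ((IS K ((Fin s → K) × (Fin m → K)) k s c).ncard *
        (gl K m * (Fintype.card K - 1)))
      = ((IS K ((Fin s → K) × (Fin m → K)) k s c).ncard * (gl K s * gl K m)) *
        (Fintype.card K - 1) := by ring
    _ = gl K (s + m) * ((YD K k s m c).ncard * (Fintype.card K - 1)) := by rw [hcount]; ring
    _ = gl K s * (gl K (s + m) * ∑ a : Kˣ, NB K k m a) := by rw [hYD]; ring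

end Pool.Agent.PSD
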