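import Pool.Agent.PSD.Est

/-!
# PSD/K1: exact values for `k = 1`, `n = 2, 3`

* `IR_one`: the monic polynomials of degree one with `- f(0) = c` are `X - c` only.
* `ZZ_one`, `eps_one`: only `d = 1` contributes.
* `CC K 1 0 = 1`, `CC K 1 1 = 0`, `CC K 1 2 = - (1/2) (q²-1)⁻¹ ∑_a [a²]`,
  `CC K 1 3 = - (1/3) (q³-1)⁻¹ ∑_a [a³]`; then `sl_two_eq`, `sl_three_eq` from `sl_eq`.
* `bb K 1 2 = (1 - eps 2)/2`, `bb K 1 3 = (1 - eps 3)/3` from `bb_isRec`.
* `sl_two_ge`: `#{a : a² = 1} ≤ 2`, so `sl K 1 2 ≥ (1 - 2 eps 2)/2 = (q-1)/(2(q+1)) ≥ 2/7` for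
  `q ≥ 4`; for `q = 2` the group `Kˣ` is trivial and `sl K 1 2 = 1/3`.
* `sl_three_ge`: `#{a : a³ = 1} ≤ 3`, so `sl K 1 3 ≥ (1 - 3 eps 3)/3 = 1/3 - 1/(q²+q+1) ≥ 2/7`
  for `q ≥ 4`; for `q = 2, 3` only `a = 1` has `a³ = 1` (group of order `1`, `2`), and
  `sl K 1 3 = bb K 1 3 = (1 - eps 3)/3 ≥ 2/7`.
-/

open Polynomial

namespace Pool.Agent.PSD

variable (K : Type) [Field K] [Fintype K] [DecidableEq K]

theorem IR_one (c : Kˣ) : IR K 1 c = 1 := by
  unfold IR
  rw [Set.ncard_eq_one]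
  refine ⟨X - C (c : K), ?_⟩
  ext f
  constructor
  · rintro ⟨h1, _, h3, h4⟩
    show f = X - C (c : K)
    have h5 : f = X + C (f.coeff 0) := h1.eq_X_add_C h3
    have h6 : f.coeff 0 = -(c : K) := by
      rw [← h4]
      ring
    rw [h5, h6, C_neg]
    ring
  · rintro rfl
    refine ⟨monic_X_sub_C _, irreducible_X_sub_C _, natDegree_X_sub_C _, ?_⟩
    rw [coeff_sub, coeff_X_zero, coeff_C_zero]
    ring

private theorem filt {r : ℕ} (hr : 1 ≤ r) : r.divisors.filter (fun d => d ≤ 1) = {1} := by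
  ext d
  rw [Finset.mem_filter, Nat.mem_divisors, Finset.mem_singleton]
  constructor
  · rintro ⟨⟨h1, h2⟩, h3⟩
    have : 0 < d := Nat.pos_of_dvd_of_pos h1 (by omega)
    omega
  · rintro rfl
    exact ⟨⟨one_dvd _, by omega⟩, le_refl _⟩

theorem ZZ_one {r : ℕ} (hr : 1 ≤ r) :
    ZZ K 1 r = ∑ a : Kˣ, MonoidAlgebra.single (a ^ r) (1 : ℝ) := by
  unfold ZZ
  rw [filt hr, Finset.sum_singleton]
  refine Finset.sum_congr rfl fun c _ => ?_
  rw [IR_one, Nat.div_one]
  norm_num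

theorem eps_one {r : ℕ} (hr : 1 ≤ r) :
    eps K 1 r = ((Fintype.card K : ℝ) - 1) / ((Fintype.card K : ℝ) ^ r - 1) := by
  unfold eps
  rw [filt hr, Finset.sum_singleton]
  congr 1
  unfold ID
  simp only [IR_one, Nat.cast_one, one_mul, Finset.sum_const, Finset.card_univ, nsmul_eq_mul,
    mul_one]
  rw [Fintype.card_units, Nat.cast_sub Fintype.card_pos, Nat.cast_one]

private theorem cf_ZZ {r : ℕ} (hr : 1 ≤ r) :
    cf (ZZ K 1 r) 1 = (Nat.card {a : Kˣ // a ^ r = 1} : ℝ) := by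
  rw [ZZ_one K hr, cf_sum]
  simp only [cf_single]
  rw [Finset.sum_boole, Nat.card_eq_fintype_card, Fintype.card_subtype]

private theorem CC_zero : CC K 1 0 = 1 := by
  unfold CC
  rw [rseq_zero]

private theorem CC_one : CC K 1 1 = 0 := by
  have h := CC_rec K 1 1
  rw [Nat.cast_one, one_smul] at h
  rw [h]
  simp

private theorem CC_two : (2 : ℝ) • CC K 1 2 = -(((Fintype.card K : ℝ) ^ 2 - 1)⁻¹ • ZZ K 1 2) := by
  have h := CC_rec K 1 2
  rw [show Finset.Icc 1 2 = {1, 2} from rfl, Finset.sum_pair (by norm_num), if_neg (by norm_num),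
    if_pos (by norm_num), zero_mul, zero_add, show 2 - 2 = 0 from rfl, CC_zero, mul_one] at h
  exact_mod_cast h

private theorem CC_three :
    (3 : ℝ) • CC K 1 3 = -(((Fintype.card K : ℝ) ^ 3 - 1)⁻¹ • ZZ K 1 3) := by
  have h := CC_rec K 1 3
  rw [show Finset.Icc 1 3 = {1, 2, 3} from rfl, Finset.sum_insert (by decide),
    Finset.sum_pair (by norm_num), if_neg (by norm_num),
    if_pos (by norm_num), if_pos (by norm_num), zero_mul, zero_add, show 3 - 3 = 0 from rfl,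
    show 3 - 2 = 1 from rfl, CC_zero, CC_one, mul_zero, zero_add, mul_one] at h
  exact_mod_cast h

private theorem key {n : ℕ} (hn : 2 ≤ n)
    (h : (n : ℝ) • CC K 1 n = -(((Fintype.card K : ℝ) ^ n - 1)⁻¹ • ZZ K 1 n)) :
    sl K 1 n = bb K 1 n - ((Nat.card {a : Kˣ // a ^ n = 1} : ℝ) - 1) * eps K 1 n / n := by
  have hn1 : 1 ≤ n := by omega
  have hn0 : (n : ℝ) ≠ 0 := by
    exact_mod_cast (by omega : n ≠ 0)
  have h1 := congrArg (fun x => cf x (1 : Kˣ)) h
  have h2 := congrArg (fun x => aug x) h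
  have hs : -(((Fintype.card K : ℝ) ^ n - 1)⁻¹ • ZZ K 1 n) =
      (-((Fintype.card K : ℝ) ^ n - 1)⁻¹) • ZZ K 1 n := by rw [neg_smul]
  simp only [hs, cf_smul, cf_ZZ K hn1] at h1
  simp only [hs, map_smul, smul_eq_mul, aug_ZZ K 1 hn1] at h2
  have h3 := pow_sub_pos K hn1
  rw [sl_eq, eps_one K hn1]
  rw [eps_one K hn1] at h2
  have h4 : cf (CC K 1 n) 1 = -((Fintype.card K : ℝ) ^ n - 1)⁻¹ *
      (Nat.card {a : Kˣ // a ^ n = 1} : ℝ) / n := by
    rw [← h1]
    field_simp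
  have h5 : aug (CC K 1 n) = -((Fintype.card K : ℝ) ^ n - 1)⁻¹ *
      (((Fintype.card K : ℝ) ^ n - 1) * (((Fintype.card K : ℝ) - 1) /
        ((Fintype.card K : ℝ) ^ n - 1))) / n := by
    rw [← h2]
    field_simp
  rw [h4, h5]
  field_simp
  ring

theorem sl_two_eq :
    sl K 1 2 = bb K 1 2 - ((Nat.card {a : Kˣ // a ^ 2 = 1} : ℝ) - 1) * eps K 1 2 / 2 := by
  have h := key K (n := 2) (le_refl _) (by exact_mod_cast CC_two K)
  exact_mod_cast h

theorem sl_three_eq :
    sl K 1 3 = bb K 1 3 - ((Nat.card {a : Kˣ // a ^ 3 = 1} : ℝ) - 1) * eps K 1 3 / 3 := by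
  have h := key K (n := 3) (by norm_num) (by exact_mod_cast CC_three K)
  exact_mod_cast h

private theorem bb_two : bb K 1 2 = (1 - eps K 1 2) / 2 := by
  have h := bb_isRec K 1
  have h2 := h.2 2 (by norm_num)
  rw [show Finset.Icc (1 + 1) 2 = {2} from rfl, Finset.sum_singleton,
    show 2 - 2 = 0 from rfl, h.1] at h2
  push_cast at h2
  linarith

private theorem bb_three : bb K 1 3 = (1 - eps K 1 3) / 3 := by
  have h := bb_isRec K 1
  have h1 := h.2 1 (by norm_num)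
  rw [show Finset.Icc (1 + 1) 1 = ∅ from rfl, Finset.sum_empty, Nat.cast_one, one_mul] at h1
  have h3 := h.2 3 (by norm_num)
  rw [show Finset.Icc (1 + 1) 3 = {2, 3} from rfl, Finset.sum_pair (by norm_num),
    show 3 - 2 = 1 from rfl, show 3 - 3 = 0 from rfl, h.1, h1] at h3
  push_cast at h3
  linarith

private theorem card_le {n : ℕ} (hn : 0 < n) : Nat.card {a : Kˣ // a ^ n = 1} ≤ n := by
  rw [Nat.card_eq_fintype_card, Fintype.card_subtype]
  exact IsCyclic.card_pow_eq_one_le hn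

private theorem card_one {n : ℕ} (h : ∀ a : Kˣ, a ^ n = 1 → a = 1) :
    Nat.card {a : Kˣ // a ^ n = 1} = 1 := by
  rw [Nat.card_eq_one_iff_unique]
  refine ⟨⟨fun a b => Subtype.ext ?_⟩, ⟨⟨1, one_pow n⟩⟩⟩
  rw [h a.1 a.2, h b.1 b.2]

theorem sl_two_ge (h3 : Fintype.card K ≠ 3) : 2 / 7 ≤ sl K 1 2 := by
  have hq : 2 ≤ Fintype.card K := Fintype.one_lt_card (α := K)
  have he : eps K 1 2 = 1 / ((Fintype.card K : ℝ) + 1) := by
    have h1 := one_lt_card_real K
    have h2 := pow_sub_pos K (r := 2) (by norm_num)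
    rw [eps_one K (by norm_num), div_eq_div_iff h2.ne' (by linarith)]
    ring
  rw [sl_two_eq, bb_two]
  by_cases h2 : Fintype.card K = 2
  · have h4 : Nat.card {a : Kˣ // a ^ 2 = 1} = 1 := by
      apply card_one
      intro a _
      have h5 : Fintype.card Kˣ ≤ 1 := by
        rw [Fintype.card_units]
        omega
      exact Fintype.card_le_one_iff.1 h5 a 1
    rw [h4, he, h2]
    norm_num
  · have h4 : (Nat.card {a : Kˣ // a ^ 2 = 1} : ℝ) ≤ 2 := by
      exact_mod_cast card_le K (n := 2) (by norm_num)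
    have h5 : (4 : ℝ) ≤ (Fintype.card K : ℝ) := by
      exact_mod_cast (by omega : 4 ≤ Fintype.card K)
    have h6 : eps K 1 2 ≤ 1 / 5 := by
      rw [he]
      apply one_div_le_one_div_of_le (by norm_num)
      linarith
    have h7 := eps_nonneg K 1 2
    nlinarith

theorem sl_three_ge : 2 / 7 ≤ sl K 1 3 := by
  have hq : 2 ≤ Fintype.card K := Fintype.one_lt_card (α := K)
  have he : eps K 1 3 = 1 / ((Fintype.card K : ℝ) ^ 2 + (Fintype.card K : ℝ) + 1) := by
    have h1 := one_lt_card_real K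
    have h2 := pow_sub_pos K (r := 3) (by norm_num)
    rw [eps_one K (by norm_num), div_eq_div_iff h2.ne' (by nlinarith)]
    ring
  rw [sl_three_eq, bb_three]
  by_cases h2 : Fintype.card K ≤ 3
  · have h4 : Nat.card {a : Kˣ // a ^ 3 = 1} = 1 := by
      apply card_one
      intro a ha
      have h5 : a ^ Fintype.card Kˣ = 1 := pow_card_eq_one
      rw [Fintype.card_units] at h5
      have h6 : Fintype.card K = 2 ∨ Fintype.card K = 3 := by omega
      rcases h6 with h6 | h6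
      · rw [h6] at h5
        simpa using h5
      · rw [h6] at h5
        have h7 : a ^ 2 = 1 := h5
        rw [pow_succ, h7, one_mul] at ha
        exact ha
    have h6 : Fintype.card K = 2 ∨ Fintype.card K = 3 := by omega
    rw [h4, he]
    rcases h6 with h6 | h6 <;> rw [h6] <;> norm_num
  · have h4 : (Nat.card {a : Kˣ // a ^ 3 = 1} : ℝ) ≤ 3 := by
      exact_mod_cast card_le K (n := 3) (by norm_num)
    have h5 : (4 : ℝ) ≤ (Fintype.card K : ℝ) := by
      exact_mod_cast (by omega : 4 ≤ Fintype.card K)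
    have h6 : eps K 1 3 ≤ 1 / 21 := by
      rw [he]
      apply one_div_le_one_div_of_le (by norm_num)
      nlinarith
    have h7 := eps_nonneg K 1 3
    nlinarith

end Pool.Agent.PSD
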