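import Pool.Agent.PSD.Defs

/-!
# PSD/NumB: numerical bounds for `eps`, `k ≥ 2`, `q ≥ 3`

All three statements are for `EpsSpec q k e` with `k ≥ 2`.

Case `q ≥ 3`.
* `k = 2`: `e 3 = 1/(q²+q+1) ≤ 1/13`, `e 4 ≤ 1/(q²+1) ≤ 1/10`, `e r ≤ q^(2-r) ≤ 3^(2-r)` for
  `r ≥ 5` (sum `≤ 1/18`).
* `k = 3`: `e 4 ≤ 1/10`, `e 5 ≤ 1/q⁴ ≤ 1/81`, `e r ≤ (q+1) q^(2-r) ≤ (4/3) 3^(3-r)` for `r ≥ 6`
  (sum `≤ 2/27`).
* `k ≥ 4`, `r ≥ 5`: `e r ≤ 2 (243/242) 3^(-⌈r/2⌉)` (sum `≤ .2232`).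
`B_sup`: for `k < m ≤ 2k+1` the sum is empty and `e m ≤ 1/10`; for `m ≥ 2k+2` add the tail bound:
`≤ 1/81 + (1/3)(1/13 + 1/10 + 1/18)` for `k = 2`, etc.; everything is `≤ 1/8`.
`B_term`: `e r ≤ 1/q²` for `r > k`: `(q-1)/(q³-1) = 1/(q²+q+1)`, `(q²-1)/(q⁴-1) = 1/(q²+1)`,
`(q²-1)(q+1)/(q⁶-1) = (q+1)/(q⁴+q²+1)`, `2 q^(r/2) q² ≤ q^r - 1` for `r ≥ 5`, `q ≥ 3`.

It helps to prove the tail sums in the form `∑_{r ∈ Icc a N} ... ≤ C - (remainder)` by induction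
on `N`.
-/

namespace Pool.Agent.PSD

private theorem nb_geo (a N : ℕ) :
    ∑ r ∈ Finset.Icc a N, (1 / 3 : ℝ) ^ r ≤ 3 / 2 * (1 / 3) ^ a := by
  by_cases h : a ≤ N + 1
  · have e1 : Finset.Icc a N = Finset.Ico a (N + 1) := by
      ext x
      simp only [Finset.mem_Icc, Finset.mem_Ico]
      omega
    rw [e1, geom_sum_Ico (by norm_num) h]
    have h1 : (0 : ℝ) < (1 / 3) ^ (N + 1) := by positivity
    rw [div_le_iff_of_neg (by norm_num)]
    nlinarith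
  · rw [Finset.Icc_eq_empty (by omega)]
    simp only [Finset.sum_empty]
    positivity

private theorem nb_geo2 (N : ℕ) :
    ∑ r ∈ Finset.Icc 5 N, (1 / 3 : ℝ) ^ (r - r / 2) ≤ 1 / 9 := by
  have key : ∀ t : ℕ, ∑ r ∈ Finset.Icc 5 (2 * (t + 2)), (1 / 3 : ℝ) ^ (r - r / 2) ≤
      1 / 9 - (1 / 3) ^ (t + 2) := by
    intro t
    induction t with
    | zero =>
      rw [Finset.Icc_eq_empty (by norm_num)]
      norm_num
    | succ t ih =>
      have e1 : 2 * (t + 1 + 2) = (2 * (t + 2) + 1) + 1 := by ring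
      rw [e1, Finset.sum_Icc_succ_top (by omega), Finset.sum_Icc_succ_top (by omega)]
      have e2 : 2 * (t + 2) + 1 - (2 * (t + 2) + 1) / 2 = t + 3 := by omega
      have e3 : 2 * (t + 2) + 1 + 1 - (2 * (t + 2) + 1 + 1) / 2 = t + 3 := by omega
      rw [e2, e3]
      have e4 : (1 / 3 : ℝ) ^ (t + 2) = 3 * (1 / 3) ^ (t + 3) := by
        rw [pow_succ (1 / 3 : ℝ) (t + 2)]
        ring
      have e5 : t + 1 + 2 = t + 3 := by ring
      rw [e5]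
      linarith
  have h1 := key N
  have h2 : ∑ r ∈ Finset.Icc 5 N, (1 / 3 : ℝ) ^ (r - r / 2) ≤
      ∑ r ∈ Finset.Icc 5 (2 * (N + 2)), (1 / 3 : ℝ) ^ (r - r / 2) := by
    refine Finset.sum_le_sum_of_subset_of_nonneg ?_ (fun _ _ _ => by positivity)
    intro x hx
    rw [Finset.mem_Icc] at hx ⊢
    omega
  have h3 : (0 : ℝ) < (1 / 3) ^ (N + 2) := by positivity
  linarith

private theorem nb_pow {q : ℝ} (hq : 3 ≤ q) (s : ℕ) : 1 / q ^ s ≤ (1 / 3) ^ s := by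
  rw [one_div_pow]
  exact one_div_le_one_div_of_le (by positivity) (pow_le_pow_left₀ (by norm_num) hq s)

private theorem nb_a {q : ℝ} (hq : 3 ≤ q) {r : ℕ} (hr : 3 ≤ r) :
    (q ^ 2 - 1) / (q ^ r - 1) ≤ 1 / q ^ (r - 2) := by
  obtain ⟨s, rfl⟩ : ∃ s, r = s + 3 := ⟨r - 3, by omega⟩
  have e : s + 3 - 2 = s + 1 := by omega
  rw [e]
  have h1 : (1 : ℝ) ≤ q ^ s := one_le_pow₀ (by linarith)
  have h2 : q ^ (s + 3) = q ^ (s + 1) * q ^ 2 := by ring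
  have h3 : (3 : ℝ) ≤ q ^ (s + 1) := by
    rw [pow_succ]
    nlinarith
  have h4 : (0 : ℝ) < q ^ (s + 3) - 1 := by
    rw [h2]
    nlinarith
  rw [div_le_div_iff₀ h4 (by positivity), h2]
  nlinarith

private theorem nb_b {q : ℝ} (hq : 3 ≤ q) {r : ℕ} (hr : 3 ≤ r) :
    (q ^ 2 - 1) * (q + 1) / (q ^ r - 1) ≤ (q + 1) / q ^ (r - 2) := by
  have h1 := nb_a hq hr
  have h2 := mul_le_mul_of_nonneg_right h1 (by linarith : (0 : ℝ) ≤ q + 1)
  calc (q ^ 2 - 1) * (q + 1) / (q ^ r - 1) = (q ^ 2 - 1) / (q ^ r - 1) * (q + 1) := by ring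
    _ ≤ 1 / q ^ (r - 2) * (q + 1) := h2
    _ = (q + 1) / q ^ (r - 2) := by ring

private theorem nb_c {q : ℝ} (hq : 3 ≤ q) {r : ℕ} (hr : 5 ≤ r) :
    2 * q ^ (r / 2) / (q ^ r - 1) ≤ 243 / 121 * (1 / 3) ^ (r - r / 2) := by
  have h0 : (0 : ℝ) < q := by linarith
  have h1 : q ^ r = q ^ (r / 2) * q ^ (r - r / 2) := by
    rw [← pow_add]
    congr 1
    omega
  have h2 : (243 : ℝ) ≤ q ^ r := by
    calc (243 : ℝ) = 3 ^ 5 := by norm_num
      _ ≤ q ^ 5 := pow_le_pow_left₀ (by norm_num) hq 5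
      _ ≤ q ^ r := pow_le_pow_right₀ (by linarith) hr
  have h3 : 2 * q ^ (r / 2) / (q ^ r - 1) ≤ 243 / 121 * (1 / q ^ (r - r / 2)) := by
    rw [mul_one_div, div_le_div_iff₀ (by linarith) (by positivity)]
    have h4 : 2 * q ^ (r / 2) * q ^ (r - r / 2) = 2 * q ^ r := by rw [h1]; ring
    rw [h4]
    linarith
  exact h3.trans (mul_le_mul_of_nonneg_left (nb_pow hq _) (by norm_num))

private theorem nb_1 {q : ℝ} (hq : 3 ≤ q) : (q - 1) / (q ^ 3 - 1) = 1 / (q ^ 2 + q + 1) := by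
  have h1 : q ^ 3 - 1 = (q - 1) * (q ^ 2 + q + 1) := by ring
  have h2 : q - 1 ≠ 0 := by
    have : 0 < q - 1 := by linarith
    exact this.ne'
  have h3 : q ^ 2 + q + 1 ≠ 0 := by positivity
  rw [h1]
  field_simp

private theorem nb_2 {q : ℝ} (hq : 3 ≤ q) : (q ^ 2 - 1) / (q ^ 4 - 1) = 1 / (q ^ 2 + 1) := by
  have h1 : q ^ 4 - 1 = (q ^ 2 - 1) * (q ^ 2 + 1) := by ring
  have h2 : q ^ 2 - 1 ≠ 0 := by
    have : 0 < q ^ 2 - 1 := by nlinarith
    exact this.ne'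
  have h3 : q ^ 2 + 1 ≠ 0 := by positivity
  rw [h1]
  field_simp

private theorem nb_5 {q : ℝ} (hq : 3 ≤ q) : (q - 1) / (q ^ 5 - 1) ≤ 1 / q ^ 4 := by
  have h1 : (243 : ℝ) ≤ q ^ 5 := by
    calc (243 : ℝ) = 3 ^ 5 := by norm_num
      _ ≤ q ^ 5 := pow_le_pow_left₀ (by norm_num) hq 5
  rw [div_le_div_iff₀ (by linarith) (by positivity)]
  have h2 : (1 : ℝ) ≤ q ^ 4 := one_le_pow₀ (by linarith)
  nlinarith

private theorem nb_four {q : ℝ} (hq : 3 ≤ q) : 1 / (q ^ 2 + 1) ≤ 1 / 10 :=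
  one_div_le_one_div_of_le (by norm_num) (by nlinarith)

private theorem nb_three {q : ℝ} (hq : 3 ≤ q) : 1 / (q ^ 2 + q + 1) ≤ 1 / 13 :=
  one_div_le_one_div_of_le (by norm_num) (by nlinarith)

private theorem nb_81 {q : ℝ} (hq : 3 ≤ q) : 1 / q ^ 4 ≤ 1 / 81 := by
  refine one_div_le_one_div_of_le (by norm_num) ?_
  calc (81 : ℝ) = 3 ^ 4 := by norm_num
    _ ≤ q ^ 4 := pow_le_pow_left₀ (by norm_num) hq 4

private theorem nb_d {q : ℝ} (hq : 3 ≤ q) {r : ℕ} (hr : 6 ≤ r) :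
    (q + 1) / q ^ (r - 2) ≤ 36 * (1 / 3) ^ r := by
  obtain ⟨s, rfl⟩ : ∃ s, r = s + 3 := ⟨r - 3, by omega⟩
  have e : s + 3 - 2 = s + 1 := by omega
  rw [e]
  have h1 : (q + 1) / q ^ (s + 1) ≤ 4 / 3 * (1 / q ^ s) := by
    rw [mul_one_div, div_le_div_iff₀ (by positivity) (by positivity), pow_succ]
    have : (0 : ℝ) < q ^ s := by positivity
    nlinarith
  refine h1.trans ((mul_le_mul_of_nonneg_left (nb_pow hq s) (by norm_num)).trans (le_of_eq ?_))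
  rw [pow_add]
  ring

/-- the tails -/
private theorem nb_sum2 {q : ℝ} (hq : 3 ≤ q) {e : ℕ → ℝ} (h0 : ∀ r, 0 ≤ e r)
    (h3 : e 3 = (q - 1) / (q ^ 3 - 1)) (h4 : ∀ r, 4 ≤ r → e r ≤ (q ^ 2 - 1) / (q ^ r - 1))
    (N : ℕ) : ∑ r ∈ Finset.Icc 3 N, e r ≤ 1 / 13 + 1 / 10 + 1 / 18 := by
  have b3 : e 3 ≤ 1 / 13 := by
    rw [h3, nb_1 hq]
    exact nb_three hq
  have b4 : e 4 ≤ 1 / 10 := by
    refine (h4 4 le_rfl).trans ?_
    rw [nb_2 hq]
    exact nb_four hq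
  have hsub : Finset.Icc 3 N ⊆ insert 3 (insert 4 (Finset.Icc 5 N)) := by
    intro x hx
    rw [Finset.mem_Icc] at hx
    rw [Finset.mem_insert, Finset.mem_insert, Finset.mem_Icc]
    omega
  have s1 : ∑ r ∈ Finset.Icc 3 N, e r ≤ ∑ r ∈ insert 3 (insert 4 (Finset.Icc 5 N)), e r :=
    Finset.sum_le_sum_of_subset_of_nonneg hsub (fun _ _ _ => h0 _)
  rw [Finset.sum_insert (by simp), Finset.sum_insert (by simp)] at s1
  have s2 : ∑ r ∈ Finset.Icc 5 N, e r ≤ ∑ r ∈ Finset.Icc 5 N, 9 * (1 / 3 : ℝ) ^ r := by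
    refine Finset.sum_le_sum (fun r hr => ?_)
    rw [Finset.mem_Icc] at hr
    refine (h4 r (by omega)).trans ((nb_a hq (by omega)).trans ((nb_pow hq _).trans ?_))
    obtain ⟨s, rfl⟩ : ∃ s, r = s + 2 := ⟨r - 2, by omega⟩
    rw [Nat.add_sub_cancel, pow_add]
    refine le_of_eq ?_
    ring
  rw [← Finset.mul_sum] at s2
  have s3 := nb_geo 5 N
  have s4 : (3 / 2 : ℝ) * (1 / 3) ^ 5 = 1 / 162 := by norm_num
  rw [s4] at s3
  linarith

private theorem nb_sum3 {q : ℝ} (hq : 3 ≤ q) {e : ℕ → ℝ} (h0 : ∀ r, 0 ≤ e r)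
    (h4 : e 4 ≤ (q ^ 2 - 1) / (q ^ 4 - 1)) (h5 : e 5 ≤ (q - 1) / (q ^ 5 - 1))
    (h6 : ∀ r, 6 ≤ r → e r ≤ (q ^ 2 - 1) * (q + 1) / (q ^ r - 1))
    (N : ℕ) : ∑ r ∈ Finset.Icc 4 N, e r ≤ 1 / 10 + 1 / 81 + 2 / 27 := by
  have b4 : e 4 ≤ 1 / 10 := by
    refine h4.trans ?_
    rw [nb_2 hq]
    exact nb_four hq
  have b5 : e 5 ≤ 1 / 81 := h5.trans ((nb_5 hq).trans (nb_81 hq))
  have hsub : Finset.Icc 4 N ⊆ insert 4 (insert 5 (Finset.Icc 6 N)) := by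
    intro x hx
    rw [Finset.mem_Icc] at hx
    rw [Finset.mem_insert, Finset.mem_insert, Finset.mem_Icc]
    omega
  have s1 : ∑ r ∈ Finset.Icc 4 N, e r ≤ ∑ r ∈ insert 4 (insert 5 (Finset.Icc 6 N)), e r :=
    Finset.sum_le_sum_of_subset_of_nonneg hsub (fun _ _ _ => h0 _)
  rw [Finset.sum_insert (by simp), Finset.sum_insert (by simp)] at s1
  have s2 : ∑ r ∈ Finset.Icc 6 N, e r ≤ ∑ r ∈ Finset.Icc 6 N, 36 * (1 / 3 : ℝ) ^ r := by
    refine Finset.sum_le_sum (fun r hr => ?_)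
    rw [Finset.mem_Icc] at hr
    exact (h6 r hr.1).trans ((nb_b hq (by omega)).trans (nb_d hq hr.1))
  rw [← Finset.mul_sum] at s2
  have s3 := nb_geo 6 N
  have s4 : (3 / 2 : ℝ) * (1 / 3) ^ 6 = 1 / 486 := by norm_num
  rw [s4] at s3
  linarith

private theorem nb_sum4 {q : ℝ} (hq : 3 ≤ q) {k : ℕ} (hk : 4 ≤ k) {e : ℕ → ℝ}
    (h0 : ∀ r, 0 ≤ e r)
    (h5 : ∀ r, k < r → e r ≤ 2 * q ^ (r / 2) / (q ^ r - 1))
    (N : ℕ) : ∑ r ∈ Finset.Icc (k + 1) N, e r ≤ 27 / 121 := by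
  have s2 : ∑ r ∈ Finset.Icc (k + 1) N, e r ≤
      ∑ r ∈ Finset.Icc (k + 1) N, 243 / 121 * (1 / 3 : ℝ) ^ (r - r / 2) := by
    refine Finset.sum_le_sum (fun r hr => ?_)
    rw [Finset.mem_Icc] at hr
    exact (h5 r (by omega)).trans (nb_c hq (by omega))
  have s3 : ∑ r ∈ Finset.Icc (k + 1) N, 243 / 121 * (1 / 3 : ℝ) ^ (r - r / 2) ≤
      ∑ r ∈ Finset.Icc 5 N, 243 / 121 * (1 / 3 : ℝ) ^ (r - r / 2) := by
    refine Finset.sum_le_sum_of_subset_of_nonneg ?_ (fun _ _ _ => by positivity)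
    intro x hx
    rw [Finset.mem_Icc] at hx ⊢
    omega
  have s5 : ∑ r ∈ Finset.Icc 5 N, 243 / 121 * (1 / 3 : ℝ) ^ (r - r / 2) =
      243 / 121 * ∑ r ∈ Finset.Icc 5 N, (1 / 3 : ℝ) ^ (r - r / 2) := by
    rw [Finset.mul_sum]
  have s4 := nb_geo2 N
  linarith

private theorem nb_cases {k : ℕ} (hk : 2 ≤ k) : k = 2 ∨ k = 3 ∨ 4 ≤ k := by omega

theorem B_sup {q k : ℕ} (hq : 3 ≤ q) (hk : 2 ≤ k) {e : ℕ → ℝ} (he : EpsSpec (q : ℝ) k e)
    {m : ℕ} (hm : k < m) :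
    e m + (∑ r ∈ Finset.Icc (k + 1) (m - k - 1), e r) / ((k : ℝ) + 1) ≤ 1 / 8 := by
  have hqR : (3 : ℝ) ≤ q := by exact_mod_cast hq
  obtain ⟨h0, -, -, hk2, hk3, hk4⟩ := he
  rcases nb_cases hk with h | h | h
  · subst h
    obtain ⟨e3, e4⟩ := hk2 rfl
    have hS := nb_sum2 hqR h0 e3 e4 (m - 2 - 1)
    have e1 : ((2 : ℕ) : ℝ) + 1 = 3 := by norm_num
    rw [e1]
    by_cases hm6 : 6 ≤ m
    · have b : e m ≤ 1 / 81 := by
        refine (e4 m (by omega)).trans ((nb_a hqR (by omega)).trans ((nb_pow hqR _).trans ?_))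
        calc (1 / 3 : ℝ) ^ (m - 2) ≤ (1 / 3) ^ 4 :=
              pow_le_pow_of_le_one (by norm_num) (by norm_num) (by omega)
          _ = 1 / 81 := by norm_num
      have : (∑ r ∈ Finset.Icc (2 + 1) (m - 2 - 1), e r) / 3 ≤ (1 / 13 + 1 / 10 + 1 / 18) / 3 :=
        div_le_div_of_nonneg_right hS (by norm_num)
      refine (add_le_add b this).trans ?_
      norm_num
    · rw [Finset.Icc_eq_empty (by omega), Finset.sum_empty, zero_div, add_zero]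
      have hmm : m = 3 ∨ m = 4 ∨ m = 5 := by omega
      rcases hmm with h | h | h
      · subst h
        rw [e3, nb_1 hqR]
        exact (nb_three hqR).trans (by norm_num)
      · subst h
        refine (e4 4 le_rfl).trans ?_
        rw [nb_2 hqR]
        exact (nb_four hqR).trans (by norm_num)
      · subst h
        refine (e4 5 (by norm_num)).trans ((nb_a hqR (by norm_num)).trans
          ((nb_pow hqR _).trans ?_))
        norm_num
  · subst h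
    obtain ⟨e4, e5, e6⟩ := hk3 rfl
    have hS := nb_sum3 hqR h0 e4 e5 e6 (m - 3 - 1)
    have e1 : ((3 : ℕ) : ℝ) + 1 = 4 := by norm_num
    rw [e1]
    by_cases hm6 : 6 ≤ m
    · have b : e m ≤ 4 / 81 := by
        refine (e6 m hm6).trans ((nb_b hqR (by omega)).trans ((nb_d hqR hm6).trans ?_))
        calc (36 : ℝ) * (1 / 3 : ℝ) ^ m ≤ 36 * (1 / 3) ^ 6 :=
              mul_le_mul_of_nonneg_left
                (pow_le_pow_of_le_one (by norm_num) (by norm_num) hm6) (by norm_num)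
          _ = 4 / 81 := by norm_num
      have : (∑ r ∈ Finset.Icc (3 + 1) (m - 3 - 1), e r) / 4 ≤ (1 / 10 + 1 / 81 + 2 / 27) / 4 :=
        div_le_div_of_nonneg_right hS (by norm_num)
      refine (add_le_add b this).trans ?_
      norm_num
    · rw [Finset.Icc_eq_empty (by omega), Finset.sum_empty, zero_div, add_zero]
      have hmm : m = 4 ∨ m = 5 := by omega
      rcases hmm with h | h
      · subst h
        refine e4.trans ?_
        rw [nb_2 hqR]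
        exact (nb_four hqR).trans (by norm_num)
      · subst h
        exact (e5.trans ((nb_5 hqR).trans (nb_81 hqR))).trans (by norm_num)
  · have hS := nb_sum4 hqR h h0 (hk4 h) (m - k - 1)
    have b : e m ≤ 9 / 121 := by
      refine (hk4 h m hm).trans ((nb_c hqR (by omega)).trans ?_)
      calc (243 / 121 : ℝ) * (1 / 3 : ℝ) ^ (m - m / 2) ≤ 243 / 121 * (1 / 3) ^ 3 :=
            mul_le_mul_of_nonneg_left
              (pow_le_pow_of_le_one (by norm_num) (by norm_num) (by omega)) (by norm_num)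
        _ = 9 / 121 := by norm_num
    have hkR : (5 : ℝ) ≤ (k : ℝ) + 1 := by
      have : (4 : ℝ) ≤ k := by exact_mod_cast h
      linarith
    have h1 : (∑ r ∈ Finset.Icc (k + 1) (m - k - 1), e r) / ((k : ℝ) + 1) ≤ (27 / 121) / 5 :=
      div_le_div₀ (by norm_num) hS (by norm_num) hkR
    refine (add_le_add b h1).trans ?_
    norm_num

theorem B_term {q k : ℕ} (hq : 3 ≤ q) (hk : 2 ≤ k) {e : ℕ → ℝ} (he : EpsSpec (q : ℝ) k e)
    {r : ℕ} (hr : k < r) : e r ≤ 1 / (q : ℝ) ^ 2 := by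
  have hqR : (3 : ℝ) ≤ q := by exact_mod_cast hq
  have hq0 : (0 : ℝ) < q := by linarith
  obtain ⟨h0, -, -, hk2, hk3, hk4⟩ := he
  rcases nb_cases hk with h | h | h
  · subst h
    obtain ⟨e3, e4⟩ := hk2 rfl
    by_cases h3 : r = 3
    · subst h3
      rw [e3, nb_1 hqR]
      exact one_div_le_one_div_of_le (by positivity) (by nlinarith)
    · refine (e4 r (by omega)).trans ((nb_a hqR (by omega)).trans ?_)
      exact one_div_le_one_div_of_le (by positivity) (pow_le_pow_right₀ (by linarith) (by omega))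
  · subst h
    obtain ⟨e4, e5, e6⟩ := hk3 rfl
    by_cases h4 : r = 4
    · subst h4
      refine e4.trans ?_
      rw [nb_2 hqR]
      exact one_div_le_one_div_of_le (by positivity) (by linarith)
    · by_cases h5 : r = 5
      · subst h5
        refine e5.trans ((nb_5 hqR).trans ?_)
        exact one_div_le_one_div_of_le (by positivity)
          (pow_le_pow_right₀ (by linarith) (by norm_num))
      · refine (e6 r (by omega)).trans ((nb_b hqR (by omega)).trans ?_)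
        rw [div_le_div_iff₀ (by positivity) (by positivity), one_mul]
        have h1 : (q : ℝ) ^ 4 ≤ (q : ℝ) ^ (r - 2) := pow_le_pow_right₀ (by linarith) (by omega)
        have h2 : (q : ℝ) ^ 4 = (q : ℝ) ^ 2 * (q : ℝ) ^ 2 := by ring
        have h3 : (q : ℝ) + 1 ≤ (q : ℝ) ^ 2 := by nlinarith
        have h4 : ((q : ℝ) + 1) * (q : ℝ) ^ 2 ≤ (q : ℝ) ^ 2 * (q : ℝ) ^ 2 :=
          mul_le_mul_of_nonneg_right h3 (by positivity)
        linarith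
  · refine (hk4 h r hr).trans ?_
    have h5 : 5 ≤ r := by omega
    have h1 : (243 : ℝ) ≤ (q : ℝ) ^ r := by
      calc (243 : ℝ) = 3 ^ 5 := by norm_num
        _ ≤ (q : ℝ) ^ 5 := pow_le_pow_left₀ (by norm_num) hqR 5
        _ ≤ (q : ℝ) ^ r := pow_le_pow_right₀ (by linarith) h5
    rw [div_le_div_iff₀ (by linarith) (by positivity), one_mul]
    have h2 : 2 * (q : ℝ) ^ (r / 2) * (q : ℝ) ^ 2 = 2 * (q : ℝ) ^ (r / 2 + 2) := by
      rw [pow_add]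
      ring
    have h3 : (q : ℝ) ^ (r / 2 + 2) ≤ (q : ℝ) ^ (r - 1) :=
      pow_le_pow_right₀ (by linarith) (by omega)
    have h4 : (q : ℝ) ^ r = (q : ℝ) ^ (r - 1) * q := by
      rw [← pow_succ]
      congr 1
      omega
    have h6 : (1 : ℝ) ≤ (q : ℝ) ^ (r - 1) := one_le_pow₀ (by linarith)
    rw [h2, h4]
    nlinarith

theorem B_sum {q k : ℕ} (hq : 3 ≤ q) (hk : 2 ≤ k) {e : ℕ → ℝ} (he : EpsSpec (q : ℝ) k e)
    (N : ℕ) : ∑ r ∈ Finset.Icc (k + 1) N, e r ≤ 1 / 2 := by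
  have hqR : (3 : ℝ) ≤ q := by exact_mod_cast hq
  obtain ⟨h0, -, -, hk2, hk3, hk4⟩ := he
  rcases nb_cases hk with h | h | h
  · subst h
    obtain ⟨e3, e4⟩ := hk2 rfl
    exact (nb_sum2 hqR h0 e3 e4 N).trans (by norm_num)
  · subst h
    obtain ⟨e4, e5, e6⟩ := hk3 rfl
    exact (nb_sum3 hqR h0 e4 e5 e6 N).trans (by norm_num)
  · exact (nb_sum4 hqR h h0 (hk4 h) N).trans (by norm_num)

end Pool.Agent.PSD
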