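import Pool.Agent.PSD.Defs

/-!
# PSD/NumC: numerical bound for `eps`, `k ≥ 2`, `q = 2`

`EpsSpec 2 k e`, `k ≥ 2`.  For `k < m ≤ 2k+1` the sum is empty.
* `k = 2`: `e 3 = 1/7`, `e r ≤ 3/(2^r - 1)` for `r ≥ 4`; `m = 3, 4, 5`: `≤ 1/5`; `m ≥ 6`:
  `≤ 3/63 + (1/3)(1/7 + 1/5 + 3 * 2/31) < 2/7` (`∑_{r ≥ 5} 1/(2^r - 1) ≤ 2/31`, because
  `1/(2^(r+1) - 1) ≤ (1/2) 1/(2^r - 1)`).
* `k = 3`: `e 4 ≤ 1/5`, `e 5 ≤ 1/31`, `e r ≤ 9/(2^r - 1)` for `r ≥ 6` (sum `≤ 9 * 2/63`);
  `m ≤ 7`: `≤ 1/5`; `m ≥ 8`: `≤ 9/255 + (1/4)(1/5 + 1/31 + 2/7) < 2/7`.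
* `k ≥ 4`, `r ≥ 5`: `e r ≤ 2 * 2^(r/2)/(2^r - 1) ≤ (64/31) 2^(-⌈r/2⌉)` (sum `≤ 32/31`);
  `m ≤ 2k+1`: `≤ 8/31`; `m ≥ 2k+2 ≥ 10`: `≤ 2/31 + (1/5)(32/31) < 2/7`.
It helps to prove the tail sums in the form `∑_{r ∈ Icc a N} ... ≤ C - (remainder)` by induction
on `N`.
-/

namespace Pool.Agent.PSD

private theorem C_tail (a N : ℕ) (ha : 1 ≤ a) :
    ∑ r ∈ Finset.Icc a N, (1 : ℝ) / (2 ^ r - 1) ≤ 2 / (2 ^ a - 1) := by
  have hpos : ∀ r : ℕ, 1 ≤ r → (0 : ℝ) < 2 ^ r - 1 := by
    intro r hr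
    have h1 : (2 : ℝ) ^ 1 ≤ 2 ^ r := pow_le_pow_right₀ (by norm_num) hr
    rw [pow_one] at h1
    linarith
  by_cases hN : a ≤ N
  · have key : ∑ r ∈ Finset.Icc a N, (1 : ℝ) / (2 ^ r - 1) ≤
        2 / (2 ^ a - 1) - 1 / (2 ^ N - 1) := by
      induction N, hN using Nat.le_induction with
      | base =>
        rw [Finset.Icc_self, Finset.sum_singleton]
        apply le_of_eq
        ring
      | succ n hn ih =>
        rw [Finset.sum_Icc_succ_top (by omega)]
        have h1 := hpos n (by omega)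
        have h2 := hpos (n + 1) (by omega)
        have h3 : (2 : ℝ) / (2 ^ (n + 1) - 1) ≤ 1 / (2 ^ n - 1) := by
          rw [div_le_div_iff₀ h2 h1]
          rw [pow_succ]
          linarith
        have h4 : (2 : ℝ) / (2 ^ (n + 1) - 1) = 1 / (2 ^ (n + 1) - 1) + 1 / (2 ^ (n + 1) - 1) := by
          ring
        linarith
    have h5 : (0 : ℝ) ≤ 1 / (2 ^ N - 1) := by
      have := hpos N (by omega)
      positivity
    linarith
  · rw [Finset.Icc_eq_empty hN, Finset.sum_empty]
    have := hpos a ha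
    positivity

private theorem C_half (N : ℕ) :
    ∑ r ∈ Finset.Icc 5 N, (1 / 2 : ℝ) ^ ((r + 1) / 2) ≤ 1 / 2 := by
  have key : ∀ s : ℕ, ∑ r ∈ Finset.Icc 5 (2 * (s + 2)), (1 / 2 : ℝ) ^ ((r + 1) / 2) ≤
      1 / 2 - 2 * (1 / 2) ^ (s + 2) := by
    intro s
    induction s with
    | zero =>
      rw [Finset.Icc_eq_empty (by norm_num), Finset.sum_empty]
      norm_num
    | succ s ih =>
      have e1 : 2 * (s + 1 + 2) = 2 * (s + 2) + 1 + 1 := by ring
      rw [e1, Finset.sum_Icc_succ_top (by omega), Finset.sum_Icc_succ_top (by omega)]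
      have e2 : (2 * (s + 2) + 1 + 1) / 2 = s + 3 := by omega
      have e3 : (2 * (s + 2) + 1 + 1 + 1) / 2 = s + 3 := by omega
      rw [e2, e3]
      have e4 : (1 / 2 : ℝ) ^ (s + 3) = (1 / 2) * (1 / 2) ^ (s + 2) := by
        rw [pow_succ]
        ring
      have e5 : s + 1 + 2 = s + 3 := by ring
      rw [e5, e4]
      linarith
  have h1 := key N
  have h2 : ∑ r ∈ Finset.Icc 5 N, (1 / 2 : ℝ) ^ ((r + 1) / 2) ≤
      ∑ r ∈ Finset.Icc 5 (2 * (N + 2)), (1 / 2 : ℝ) ^ ((r + 1) / 2) := by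
    apply Finset.sum_le_sum_of_subset_of_nonneg
    · exact Finset.Icc_subset_Icc le_rfl (by omega)
    · intro i _ _
      positivity
  have h3 : (0 : ℝ) ≤ 2 * (1 / 2) ^ (N + 2) := by positivity
  linarith

private theorem C_term {r : ℕ} (hr : 5 ≤ r) :
    2 * (2 : ℝ) ^ (r / 2) / (2 ^ r - 1) ≤ 64 / 31 * (1 / 2) ^ ((r + 1) / 2) := by
  have h32 : (32 : ℝ) ≤ 2 ^ r := by
    have h1 : (2 : ℝ) ^ 5 ≤ 2 ^ r := pow_le_pow_right₀ (by norm_num) hr
    norm_num at h1
    exact h1
  have hpos : (0 : ℝ) < 2 ^ r - 1 := by linarith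
  have hp : (2 : ℝ) ^ r = 2 ^ (r / 2) * 2 ^ ((r + 1) / 2) := by
    rw [← pow_add]
    congr 1
    omega
  have hq : (1 / 2 : ℝ) ^ ((r + 1) / 2) = 1 / 2 ^ ((r + 1) / 2) := by
    rw [one_div, inv_pow, one_div]
  have h0 : (0 : ℝ) < 2 ^ ((r + 1) / 2) := by positivity
  rw [hq, div_mul_div_comm, mul_one, div_le_div_iff₀ hpos (by positivity)]
  have e : 2 * (2 : ℝ) ^ (r / 2) * (31 * 2 ^ ((r + 1) / 2)) = 62 * 2 ^ r := by
    rw [hp]
    ring
  rw [e]
  linarith

private theorem C_mono {a b : ℕ} (hab : a ≤ b) (ha : 1 ≤ a) {c : ℝ} (hc : 0 ≤ c) :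
    c / ((2 : ℝ) ^ b - 1) ≤ c / (2 ^ a - 1) := by
  have h1 : (2 : ℝ) ^ 1 ≤ 2 ^ a := pow_le_pow_right₀ (by norm_num) ha
  have h2 : (2 : ℝ) ^ a ≤ 2 ^ b := pow_le_pow_right₀ (by norm_num) hab
  rw [pow_one] at h1
  apply div_le_div_of_nonneg_left hc
  · linarith
  · linarith

theorem C_sup {k : ℕ} (hk : 2 ≤ k) {e : ℕ → ℝ} (he : EpsSpec 2 k e) {m : ℕ} (hm : k < m) :
    e m + (∑ r ∈ Finset.Icc (k + 1) (m - k - 1), e r) / ((k : ℝ) + 1) ≤ 2 / 7 := by
  obtain ⟨h0, _, _, hs2, hs3, hs4⟩ := he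
  rcases Nat.lt_or_ge k 4 with hk4 | hk4
  · have hk23 : k = 2 ∨ k = 3 := by omega
    rcases hk23 with rfl | rfl
    · obtain ⟨h3, h4⟩ := hs2 rfl
      have e3 : e 3 = 1 / 7 := by
        rw [h3]
        norm_num
      have hle : ∀ r : ℕ, 4 ≤ r → e r ≤ 3 / (2 ^ r - 1) := by
        intro r hr
        have := h4 r hr
        norm_num at this
        exact this
      have e4 : e 4 ≤ 1 / 5 := by
        have := hle 4 le_rfl
        norm_num at this
        linarith
      rcases Nat.lt_or_ge m 6 with hm6 | hm6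
      · have hemp : Finset.Icc (2 + 1) (m - 2 - 1) = ∅ := Finset.Icc_eq_empty (by omega)
        rw [hemp, Finset.sum_empty, zero_div, add_zero]
        have hmm : m = 3 ∨ m = 4 ∨ m = 5 := by omega
        rcases hmm with rfl | rfl | rfl
        · rw [e3]
          norm_num
        · linarith
        · have := hle 5 (by norm_num)
          norm_num at this
          linarith
      · have hm1 : e m ≤ 3 / 63 := by
          refine (hle m (by omega)).trans ?_
          have := C_mono (a := 6) (b := m) hm6 (by norm_num) (c := 3) (by norm_num)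
          norm_num at this ⊢
          exact this
        have hsum : ∑ r ∈ Finset.Icc (2 + 1) (m - 2 - 1), e r ≤ 1 / 7 + 1 / 5 + 6 / 31 := by
          have h1 : ∑ r ∈ Finset.Icc (2 + 1) (m - 2 - 1), e r ≤
              ∑ r ∈ insert 3 (insert 4 (Finset.Icc 5 (m - 2 - 1))), e r := by
            apply Finset.sum_le_sum_of_subset_of_nonneg
            · intro r hr
              rw [Finset.mem_Icc] at hr
              rw [Finset.mem_insert, Finset.mem_insert, Finset.mem_Icc]
              omega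
            · intro i _ _
              exact h0 i
          rw [Finset.sum_insert (by
            rw [Finset.mem_insert, Finset.mem_Icc]; omega),
            Finset.sum_insert (by rw [Finset.mem_Icc]; omega)] at h1
          have h2 : ∑ r ∈ Finset.Icc 5 (m - 2 - 1), e r ≤ 3 * (2 / (2 ^ 5 - 1)) := by
            refine le_trans ?_ (mul_le_mul_of_nonneg_left (C_tail 5 (m - 2 - 1) (by norm_num))
              (by norm_num : (0 : ℝ) ≤ 3))
            rw [Finset.mul_sum]
            apply Finset.sum_le_sum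
            intro r hr
            rw [Finset.mem_Icc] at hr
            refine (hle r (by omega)).trans (le_of_eq ?_)
            ring
          norm_num at h2
          linarith
        have hdiv : (∑ r ∈ Finset.Icc (2 + 1) (m - 2 - 1), e r) / (((2 : ℕ) : ℝ) + 1) ≤
            (1 / 7 + 1 / 5 + 6 / 31) / 3 := by
          have e' : ((2 : ℕ) : ℝ) + 1 = 3 := by norm_num
          rw [e']
          exact div_le_div_of_nonneg_right hsum (by norm_num)
        have hnum : (3 / 63 : ℝ) + (1 / 7 + 1 / 5 + 6 / 31) / 3 ≤ 2 / 7 := by norm_num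
        linarith
    · obtain ⟨h4, h5, h6⟩ := hs3 rfl
      have e4 : e 4 ≤ 1 / 5 := by
        norm_num at h4
        linarith
      have e5 : e 5 ≤ 1 / 31 := by
        norm_num at h5
        linarith
      have hle : ∀ r : ℕ, 6 ≤ r → e r ≤ 9 / (2 ^ r - 1) := by
        intro r hr
        have := h6 r hr
        norm_num at this
        exact this
      rcases Nat.lt_or_ge m 8 with hm8 | hm8
      · have hemp : Finset.Icc (3 + 1) (m - 3 - 1) = ∅ := Finset.Icc_eq_empty (by omega)
        rw [hemp, Finset.sum_empty, zero_div, add_zero]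
        have hmm : m = 4 ∨ m = 5 ∨ m = 6 ∨ m = 7 := by omega
        rcases hmm with rfl | rfl | rfl | rfl
        · linarith
        · linarith
        · have := hle 6 (by norm_num)
          norm_num at this
          linarith
        · have := hle 7 (by norm_num)
          norm_num at this
          linarith
      · have hm1 : e m ≤ 9 / 255 := by
          refine (hle m (by omega)).trans ?_
          have := C_mono (a := 8) (b := m) hm8 (by norm_num) (c := 9) (by norm_num)
          norm_num at this ⊢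
          exact this
        have hsum : ∑ r ∈ Finset.Icc (3 + 1) (m - 3 - 1), e r ≤ 1 / 5 + 1 / 31 + 2 / 7 := by
          have h1 : ∑ r ∈ Finset.Icc (3 + 1) (m - 3 - 1), e r ≤
              ∑ r ∈ insert 4 (insert 5 (Finset.Icc 6 (m - 3 - 1))), e r := by
            apply Finset.sum_le_sum_of_subset_of_nonneg
            · intro r hr
              rw [Finset.mem_Icc] at hr
              rw [Finset.mem_insert, Finset.mem_insert, Finset.mem_Icc]
              omega
            · intro i _ _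
              exact h0 i
          rw [Finset.sum_insert (by
            rw [Finset.mem_insert, Finset.mem_Icc]; omega),
            Finset.sum_insert (by rw [Finset.mem_Icc]; omega)] at h1
          have h2 : ∑ r ∈ Finset.Icc 6 (m - 3 - 1), e r ≤ 9 * (2 / (2 ^ 6 - 1)) := by
            refine le_trans ?_ (mul_le_mul_of_nonneg_left (C_tail 6 (m - 3 - 1) (by norm_num))
              (by norm_num : (0 : ℝ) ≤ 9))
            rw [Finset.mul_sum]
            apply Finset.sum_le_sum
            intro r hr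
            rw [Finset.mem_Icc] at hr
            refine (hle r (by omega)).trans (le_of_eq ?_)
            ring
          norm_num at h2
          linarith
        have hdiv : (∑ r ∈ Finset.Icc (3 + 1) (m - 3 - 1), e r) / (((3 : ℕ) : ℝ) + 1) ≤
            (1 / 5 + 1 / 31 + 2 / 7) / 4 := by
          have e' : ((3 : ℕ) : ℝ) + 1 = 4 := by norm_num
          rw [e']
          exact div_le_div_of_nonneg_right hsum (by norm_num)
        have hnum : (9 / 255 : ℝ) + (1 / 5 + 1 / 31 + 2 / 7) / 4 ≤ 2 / 7 := by norm_num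
        linarith
  · have h4 := hs4 hk4
    have hle : ∀ r : ℕ, k < r → e r ≤ 64 / 31 * (1 / 2) ^ ((r + 1) / 2) := fun r hr =>
      (h4 r hr).trans (C_term (by omega))
    have hpw : ∀ a b : ℕ, a ≤ b → (1 / 2 : ℝ) ^ b ≤ (1 / 2) ^ a := fun a b hab =>
      pow_le_pow_of_le_one (by norm_num) (by norm_num) hab
    rcases Nat.lt_or_ge m (2 * k + 2) with hm2 | hm2
    · have hemp : Finset.Icc (k + 1) (m - k - 1) = ∅ := Finset.Icc_eq_empty (by omega)
      rw [hemp, Finset.sum_empty, zero_div, add_zero]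
      have h1 := hle m hm
      have h2 := hpw 3 ((m + 1) / 2) (by omega)
      have h3 : (1 / 2 : ℝ) ^ 3 = 1 / 8 := by norm_num
      rw [h3] at h2
      linarith
    · have h1 := hle m hm
      have h2 := hpw 5 ((m + 1) / 2) (by omega)
      have h3 : (1 / 2 : ℝ) ^ 5 = 1 / 32 := by norm_num
      rw [h3] at h2
      have hsum : ∑ r ∈ Finset.Icc (k + 1) (m - k - 1), e r ≤ 32 / 31 := by
        have h5 : ∑ r ∈ Finset.Icc (k + 1) (m - k - 1), e r ≤
            ∑ r ∈ Finset.Icc (k + 1) (m - k - 1), 64 / 31 * (1 / 2 : ℝ) ^ ((r + 1) / 2) := by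
          apply Finset.sum_le_sum
          intro r hr
          rw [Finset.mem_Icc] at hr
          exact hle r (by omega)
        have h6 : ∑ r ∈ Finset.Icc (k + 1) (m - k - 1), 64 / 31 * (1 / 2 : ℝ) ^ ((r + 1) / 2) ≤
            ∑ r ∈ Finset.Icc 5 (m - k - 1), 64 / 31 * (1 / 2 : ℝ) ^ ((r + 1) / 2) := by
          apply Finset.sum_le_sum_of_subset_of_nonneg
          · exact Finset.Icc_subset_Icc (by omega) le_rfl
          · intro i _ _
            positivity
        rw [← Finset.mul_sum, ← Finset.mul_sum] at h6; rw [← Finset.mul_sum] at h5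
        have h7 := C_half (m - k - 1)
        linarith
      have hk5 : (5 : ℝ) ≤ (k : ℝ) + 1 := by
        have : (4 : ℝ) ≤ k := by exact_mod_cast hk4
        linarith
      have hS0 : 0 ≤ ∑ r ∈ Finset.Icc (k + 1) (m - k - 1), e r :=
        Finset.sum_nonneg fun i _ => h0 i
      have hdiv : (∑ r ∈ Finset.Icc (k + 1) (m - k - 1), e r) / ((k : ℝ) + 1) ≤ (32 / 31) / 5 :=
        div_le_div₀ (by norm_num) hsum (by norm_num) hk5
      have hnum : (64 / 31 : ℝ) * (1 / 32) + (32 / 31) / 5 ≤ 2 / 7 := by norm_num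
      linarith

end Pool.Agent.PSD
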