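import Pool.Agent.PSD.NumA

/-!
# PSD/NumD: `k = 1`, `q = 2`

`b 0 = 1`, `b 1 = 0`, `n b n = ∑_{r=2}^n (1 - θ r) b (n - r)` with `θ r = 1/(2^r - 1)`; claim
`b n ≥ 2/7` for `n ≥ 2`.

`b 2 = 1/3`, `b 3 = 2/7`.  For `n ≥ 4`, by strong induction (`b j ≥ 2/7` for `3 ≤ j < n`; the term
`r = n - 1` vanishes, `r = n` has `b 0 = 1`, `r = n - 2` has `b 2 = 1/3`):
`n b n ≥ (1 - θ n) + (1 - θ (n-2))/3 + (2/7) ∑_{r=2}^{n-3} (1 - θ r)
= 4/3 + (2/7)(n - 4) - F n`, `F n = θ n + θ (n-2)/3 + (2/7) ∑_{r=2}^{n-3} θ r`,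
and this is `≥ (2/7) n` iff `F n ≤ 4/21 = .1904..`.  Indeed `F 4 = .1778`, `F 5 = .1751`,
`F 6 = .1742`, `F 7 = .1738`, and for `n ≥ 8`: `θ n ≤ 1/255`, `θ (n-2) ≤ 1/63`,
`∑_{r ≥ 2} θ r ≤ 1/3 + 1/7 + 1/15 + 1/31 + 2/63 < .6073` (as `θ (r+1) ≤ θ r / 2`), so
`F n ≤ .0040 + .0053 + .1736 < .183`.
(Alternatively one can show `(2^n - 1)(b n - b (n-1)) = -(b (n-1) - b (n-2))`.)
-/

namespace Pool.Agent.PSD

private theorem numD_step {y a2 a3 a4 a5 : ℝ} (hy : 1 ≤ y) (h2 : a2 = 1 / (4 * y - 1))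
    (h3 : a3 = 1 / (8 * y - 1)) (h4 : a4 = 1 / (16 * y - 1)) (h5 : a5 = 1 / (32 * y - 1)) :
    a5 + a3 / 3 + 2 / 7 * a2 ≤ a4 + a2 / 3 := by
  have p2 : (0 : ℝ) < 4 * y - 1 := by linarith
  have p3 : (0 : ℝ) < 8 * y - 1 := by linarith
  have p4 : (0 : ℝ) < 16 * y - 1 := by linarith
  have p5 : (0 : ℝ) < 32 * y - 1 := by linarith
  have key : a4 + a2 / 3 - (a5 + a3 / 3 + 2 / 7 * a2)
      = (512 * y ^ 3 + 28 * y + 6) / (21 * ((4 * y - 1) * (8 * y - 1) * (16 * y - 1) * (32 * y - 1))) := by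
    subst h2 h3 h4 h5
    have n2 : y * 4 - 1 ≠ 0 := by
      intro h0
      linarith
    have n3 : y * 8 - 1 ≠ 0 := by
      intro h0
      linarith
    have n4 : y * 16 - 1 ≠ 0 := by
      intro h0
      linarith
    have n5 : y * 32 - 1 ≠ 0 := by
      intro h0
      linarith
    have n4' := p4.ne'
    field_simp
    ring
  have hpos : 0 ≤ (512 * y ^ 3 + 28 * y + 6) /
      (21 * ((4 * y - 1) * (8 * y - 1) * (16 * y - 1) * (32 * y - 1))) := by
    apply div_nonneg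
    · positivity
    · exact mul_nonneg (by norm_num) (mul_pos (mul_pos (mul_pos p2 p3) p4) p5).le
  linarith

private theorem numD_G {e : ℕ → ℝ} (he : ∀ r : ℕ, 1 ≤ r → e r = 1 / ((2 : ℝ) ^ r - 1)) (m : ℕ) :
    e (m + 4) + e (m + 2) / 3 + 2 / 7 * (∑ r ∈ Finset.Icc 2 (m + 1), e r) ≤ 8 / 45 := by
  induction m with
  | zero =>
    have h4 := he 4 (by norm_num)
    have h2 := he 2 (by norm_num)
    have hs : (∑ r ∈ Finset.Icc 2 (0 + 1), e r) = 0 := by
      rw [Finset.Icc_eq_empty (by norm_num)]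
      simp
    rw [hs]
    simp only [Nat.zero_add]
    rw [h4, h2]
    norm_num
  | succ m ih =>
    have hy : (1 : ℝ) ≤ 2 ^ m := one_le_pow₀ (by norm_num)
    have h2 : e (m + 2) = 1 / (4 * (2 : ℝ) ^ m - 1) := by
      rw [he (m + 2) (by omega)]
      ring
    have h3 : e (m + 3) = 1 / (8 * (2 : ℝ) ^ m - 1) := by
      rw [he (m + 3) (by omega)]
      ring
    have h4 : e (m + 4) = 1 / (16 * (2 : ℝ) ^ m - 1) := by
      rw [he (m + 4) (by omega)]
      ring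
    have h5 : e (m + 5) = 1 / (32 * (2 : ℝ) ^ m - 1) := by
      rw [he (m + 5) (by omega)]
      ring
    have hst := numD_step hy h2 h3 h4 h5
    have hs : (∑ r ∈ Finset.Icc 2 (m + 1 + 1), e r) = (∑ r ∈ Finset.Icc 2 (m + 1), e r) + e (m + 2) := by
      rw [Finset.sum_Icc_succ_top (by omega)]
    have e1 : m + 1 + 4 = m + 5 := by omega
    have e2 : m + 1 + 2 = m + 3 := by omega
    rw [hs, e1, e2]
    linarith

private theorem numD_le_one {e : ℕ → ℝ} (he : ∀ r : ℕ, 1 ≤ r → e r = 1 / ((2 : ℝ) ^ r - 1)) {r : ℕ}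
    (hr : 1 ≤ r) : e r ≤ 1 := by
  rw [he r hr]
  have h : (2 : ℝ) ^ 1 ≤ 2 ^ r := pow_le_pow_right₀ (by norm_num) hr
  rw [div_le_one (by linarith)]
  linarith

private theorem numD_b1 {e b : ℕ → ℝ} (h : IsRec 1 e b) : b 1 = 0 := by
  have h1 := h.2 1 (le_refl 1)
  rw [Finset.Icc_eq_empty (by norm_num)] at h1
  simpa using h1

private theorem numD_b2 {e b : ℕ → ℝ} (he : ∀ r : ℕ, 1 ≤ r → e r = 1 / ((2 : ℝ) ^ r - 1))
    (h : IsRec 1 e b) : b 2 = 1 / 3 := by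
  have h2 := h.2 2 (by norm_num)
  have e2 := he 2 (by norm_num)
  have hs : (∑ r ∈ Finset.Icc (1 + 1) 2, (1 - e r) * b (2 - r)) = (1 - e 2) * b 0 := by
    simp
  rw [hs, e2, h.1] at h2
  norm_num at h2
  linarith

private theorem numD_b3 {e b : ℕ → ℝ} (he : ∀ r : ℕ, 1 ≤ r → e r = 1 / ((2 : ℝ) ^ r - 1))
    (h : IsRec 1 e b) : b 3 = 2 / 7 := by
  have h3 := h.2 3 (by norm_num)
  have e3 := he 3 (by norm_num)
  have hs : (∑ r ∈ Finset.Icc (1 + 1) 3, (1 - e r) * b (3 - r))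
      = (1 - e 2) * b 1 + (1 - e 3) * b 0 := by
    rw [Finset.sum_Icc_succ_top (by norm_num)]
    simp
  rw [hs, e3, h.1, numD_b1 h] at h3
  norm_num at h3
  linarith

theorem D_ge {e b : ℕ → ℝ} (he : ∀ r : ℕ, 1 ≤ r → e r = 1 / ((2 : ℝ) ^ r - 1))
    (h : IsRec 1 e b) {n : ℕ} (hn : 2 ≤ n) : 2 / 7 ≤ b n := by
  induction n using Nat.strong_induction_on with
  | _ n ih =>
    rcases Nat.lt_or_ge n 4 with hn4 | hn4
    · have hc : n = 2 ∨ n = 3 := by omega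
      rcases hc with rfl | rfl
      · rw [numD_b2 he h]
        norm_num
      · rw [numD_b3 he h]
    · obtain ⟨m, rfl⟩ : ∃ m, n = m + 4 := ⟨n - 4, by omega⟩
      have hrec := h.2 (m + 4) (by omega)
      have hG := numD_G he m
      have hsplit : (∑ r ∈ Finset.Icc (1 + 1) (m + 4), (1 - e r) * b (m + 4 - r))
          = (∑ r ∈ Finset.Icc 2 (m + 1), (1 - e r) * b (m + 4 - r))
            + (1 - e (m + 2)) * b 2 + (1 - e (m + 3)) * b 1 + (1 - e (m + 4)) * b 0 := by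
        rw [Finset.sum_Icc_succ_top (by omega), Finset.sum_Icc_succ_top (by omega),
          Finset.sum_Icc_succ_top (by omega)]
        have a1 : m + 4 - (m + 1 + 1) = 2 := by omega
        have a2 : m + 4 - (m + 2 + 1) = 1 := by omega
        have a3 : m + 4 - (m + 3 + 1) = 0 := by omega
        rw [a1, a2, a3]
      have hlow : (∑ r ∈ Finset.Icc 2 (m + 1), (1 - e r) * (2 / 7 : ℝ))
          ≤ ∑ r ∈ Finset.Icc 2 (m + 1), (1 - e r) * b (m + 4 - r) := by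
        apply Finset.sum_le_sum
        intro r hr
        rw [Finset.mem_Icc] at hr
        apply mul_le_mul_of_nonneg_left
        · exact ih (m + 4 - r) (by omega) (by omega)
        · have := numD_le_one he (r := r) (by omega)
          linarith
      have hval : (∑ r ∈ Finset.Icc 2 (m + 1), (1 - e r) * (2 / 7 : ℝ))
          = 2 / 7 * (m : ℝ) - 2 / 7 * (∑ r ∈ Finset.Icc 2 (m + 1), e r) := by
        rw [← Finset.sum_mul, Finset.sum_sub_distrib]
        have hc : (∑ _r ∈ Finset.Icc 2 (m + 1), (1 : ℝ)) = (m : ℝ) := by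
          rw [Finset.sum_const, Nat.card_Icc]
          have : m + 1 + 1 - 2 = m := by omega
          rw [this]
          simp
        rw [hc]
        ring
      rw [hsplit, numD_b1 h, numD_b2 he h, h.1] at hrec
      have hm : (0 : ℝ) < (m : ℝ) + 4 := by positivity
      have hcast : (((m + 4 : ℕ) : ℝ)) = (m : ℝ) + 4 := by push_cast; ring
      rw [hcast] at hrec
      have hfin : (2 / 7 : ℝ) * ((m : ℝ) + 4) ≤ ((m : ℝ) + 4) * b (m + 4) := by
        rw [hrec]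
        linarith
      have : ((m : ℝ) + 4) * (2 / 7) ≤ ((m : ℝ) + 4) * b (m + 4) := by linarith
      exact le_of_mul_le_mul_left this hm

end Pool.Agent.PSD
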