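import Pool.Agent.PSD.NumA

/-!
# PSD/NumE: `k = 1`, `q ≥ 3`

`θ r = (q - 1)/(q^r - 1)`; `b 0 = 1`, `b 1 = 0`, `n b n = ∑_{r=2}^n (1 - θ r) b (n - r)`;
`β 0 = 1`, `β 1 = 0`, `n β n = ∑_{r=2}^n θ r β (n - r)`.  Claim: `b n - (q - 2) β n ≥ 2/7` for
`n ≥ 4`.

* `θ r` is decreasing in `q`: `θ r ≤ 2/(3^r - 1)` (`1/θ r = 1 + q + ... + q^(r-1)`); also
  `θ r ≤ q^(1-r)`.
* lower bound for `b`: `b n ≥ b0 n`, where `b0` is the sequence for `q = 3` (the coefficients
  `1 - θ r ≥ 0` increase with `q`).  `b0 2 = 3/8`, `b0 3 = 4/13`, `b0 4 = .3140625`, and by strong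
  induction `b0 n ≥ .305` for `n ≥ 3`: `n b n ≥ (1 - θ n) + (1 - θ (n-2)) 3/8
  + .305 ∑_{r=2}^{n-3} (1 - θ r) ≥ 1.375 + .305 (n - 4) - [θ n + .375 θ (n-2)
  + .305 ∑_{r=2}^{n-3} θ r] ≥ .305 n` since the bracket is `≤ .155` for `n ≥ 5`
  (`n = 5`: `1/121 + .375/13 + .305/4 = .1134`; `n = 6`: `.1119`; in general
  `∑_{r ≥ 2} θ r ≤ 1/4 + 1/13 + 1/40 + (3/2)/121 ≤ .3645`).  (Do this directly for `b`.)
* `n = 4`: `β 4 = (θ 2 ^2/2 + θ 4)/4`, `θ 2 = 1/(q+1)`, `θ 4 = 1/((q+1)(q²+1))`;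
  `(q - 2) β 4 ≤ .0235` and `b 4 ≥ .314`, so the difference is `≥ .2905`.
* `n ≥ 5`: `β j ≤ 1/(2(q+1))` for `j ≥ 1` (equality at `j = 2`), so
  `n β n ≤ θ n + ∑_{r=2}^{n-2} θ r /(2(q+1)) ≤ q^(-4) + 1/(2(q² - 1))` and
  `(q - 2) β n ≤ (q-2)/(10 (q² - 1)) + (q-2)/(5 q⁴) ≤ 1/60`; `.305 - 1/60 > 2/7`.
-/

namespace Pool.Agent.PSD

section aux

variable {Q : ℝ}

private theorem ne_pow_ge (hQ : 3 ≤ Q) (r : ℕ) : 1 ≤ Q ^ r := one_le_pow₀ (by linarith)

private theorem ne_den_pos (hQ : 3 ≤ Q) {r : ℕ} (hr : 1 ≤ r) : 0 < Q ^ r - 1 := by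
  obtain ⟨s, rfl⟩ : ∃ s, r = s + 1 := ⟨r - 1, by omega⟩
  have := ne_pow_ge hQ s
  rw [pow_succ]
  nlinarith

private theorem ne_nonneg (hQ : 3 ≤ Q) {r : ℕ} (hr : 1 ≤ r) : 0 ≤ (Q - 1) / (Q ^ r - 1) :=
  div_nonneg (by linarith) (ne_den_pos hQ hr).le

private theorem ne_le_one (hQ : 3 ≤ Q) {r : ℕ} (hr : 1 ≤ r) : (Q - 1) / (Q ^ r - 1) ≤ 1 := by
  rw [div_le_one (ne_den_pos hQ hr)]
  obtain ⟨s, rfl⟩ : ∃ s, r = s + 1 := ⟨r - 1, by omega⟩
  have := ne_pow_ge hQ s
  rw [pow_succ]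
  nlinarith

private theorem ne_le_pow (hQ : 3 ≤ Q) (s : ℕ) : (Q - 1) / (Q ^ (s + 1) - 1) ≤ 1 / Q ^ s := by
  have h1 := ne_pow_ge hQ s
  rw [div_le_div_iff₀ (ne_den_pos hQ (by omega)) (by linarith), pow_succ]
  nlinarith

private theorem ne_le_tau (hQ : 3 ≤ Q) {r : ℕ} (hr : 1 ≤ r) :
    (Q - 1) / (Q ^ r - 1) ≤ 2 / ((3 : ℝ) ^ r - 1) := by
  rw [div_le_div_iff₀ (ne_den_pos hQ hr) (ne_den_pos le_rfl hr)]
  induction r, hr using Nat.le_induction with
  | base => norm_num; linarith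
  | succ r hr ih =>
    have h1 := ne_pow_ge hQ r
    have h2 : 0 ≤ (Q - 3) * (Q ^ r - 1) := mul_nonneg (by linarith) (by linarith)
    rw [pow_succ, pow_succ]
    nlinarith

private theorem ne_tau_step {r : ℕ} (hr : 1 ≤ r) :
    2 / ((3 : ℝ) ^ (r + 1) - 1) ≤ 2 / ((3 : ℝ) ^ r - 1) / 3 := by
  have h1 : (0 : ℝ) < (3 : ℝ) ^ r - 1 := ne_den_pos le_rfl hr
  have h2 : (0 : ℝ) < (3 : ℝ) ^ (r + 1) - 1 := ne_den_pos le_rfl (by omega)
  rw [div_div, div_le_div_iff₀ h2 (by positivity), pow_succ]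
  nlinarith

private theorem ne_tau_mono {r s : ℕ} (hr : 1 ≤ r) (hrs : r ≤ s) :
    2 / ((3 : ℝ) ^ s - 1) ≤ 2 / ((3 : ℝ) ^ r - 1) := by
  have h1 : (0 : ℝ) < (3 : ℝ) ^ r - 1 := ne_den_pos le_rfl hr
  have h2 : (3 : ℝ) ^ r ≤ (3 : ℝ) ^ s := pow_le_pow_right₀ (by norm_num) hrs
  exact div_le_div_of_nonneg_left (by norm_num) h1 (by linarith)

private theorem ne_sum_four (hQ : 3 ≤ Q) (n : ℕ) (hn : 4 ≤ n) :
    ∑ r ∈ Finset.Icc 2 n, (Q - 1) / (Q ^ r - 1) ≤
      1 / 4 + 1 / 13 + 1 / 40 + 1 / 80 - 2 / ((3 : ℝ) ^ n - 1) / 2 := by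
  induction n, hn using Nat.le_induction with
  | base =>
    have e : Finset.Icc 2 4 = {2, 3, 4} := rfl
    rw [e, Finset.sum_insert (by decide), Finset.sum_insert (by decide), Finset.sum_singleton]
    have h2 := ne_le_tau hQ (r := 2) (by norm_num)
    have h3 := ne_le_tau hQ (r := 3) (by norm_num)
    have h4 := ne_le_tau hQ (r := 4) (by norm_num)
    norm_num at h2 h3 h4 ⊢
    linarith
  | succ n hn ih =>
    rw [Finset.sum_Icc_succ_top (by omega)]
    have h1 := ne_le_tau hQ (r := n + 1) (by omega)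
    have h2 := ne_tau_step (r := n) (by omega)
    linarith

private theorem ne_sum_S (hQ : 3 ≤ Q) (n : ℕ) :
    ∑ r ∈ Finset.Icc 2 n, (Q - 1) / (Q ^ r - 1) ≤ 1 / 4 + 1 / 13 + 1 / 40 + 1 / 80 := by
  have h1 := ne_sum_four hQ (n + 4) (by omega)
  have h2 : ∑ r ∈ Finset.Icc 2 n, (Q - 1) / (Q ^ r - 1) ≤
      ∑ r ∈ Finset.Icc 2 (n + 4), (Q - 1) / (Q ^ r - 1) := by
    refine Finset.sum_le_sum_of_subset_of_nonneg
      (Finset.Icc_subset_Icc le_rfl (by omega)) (fun r hr _ => ?_)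
    exact ne_nonneg hQ (by have := (Finset.mem_Icc.1 hr).1; omega)
  have h3 : (0 : ℝ) ≤ 2 / ((3 : ℝ) ^ (n + 4) - 1) / 2 := by
    have : (0 : ℝ) < (3 : ℝ) ^ (n + 4) - 1 := ne_den_pos le_rfl (by omega)
    positivity
  linarith

private theorem ne_sum_geom (hQ : 3 ≤ Q) (n : ℕ) :
    ∑ r ∈ Finset.Icc 2 (n + 1), (Q - 1) / (Q ^ r - 1) ≤ (1 - 1 / Q ^ n) / (Q - 1) := by
  induction n with
  | zero => simp
  | succ n ih =>
    rw [Finset.sum_Icc_succ_top (by omega)]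
    have h1 := ne_le_pow hQ (n + 1)
    have h2 : (1 - 1 / Q ^ n) / (Q - 1) + 1 / Q ^ (n + 1) = (1 - 1 / Q ^ (n + 1)) / (Q - 1) := by
      have h3 : Q - 1 ≠ 0 := by linarith
      have h4 : Q ≠ 0 := by linarith
      field_simp
      ring
    linarith

private theorem ne_sum_le (hQ : 3 ≤ Q) (n : ℕ) :
    ∑ r ∈ Finset.Icc 2 n, (Q - 1) / (Q ^ r - 1) ≤ 1 / (Q - 1) := by
  rcases n with _ | n
  · simp
    linarith
  · have h1 := ne_sum_geom hQ n
    have h2 : (1 - 1 / Q ^ n) / (Q - 1) ≤ 1 / (Q - 1) := by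
      have h3 := ne_pow_ge hQ n
      apply div_le_div_of_nonneg_right _ (by linarith)
      have : 0 ≤ 1 / Q ^ n := by positivity
      linarith
    linarith

variable {e b β : ℕ → ℝ}

private theorem ne_sum_e (he : ∀ r : ℕ, 1 ≤ r → e r = (Q - 1) / (Q ^ r - 1)) (n : ℕ) :
    ∑ r ∈ Finset.Icc 2 n, e r = ∑ r ∈ Finset.Icc 2 n, (Q - 1) / (Q ^ r - 1) :=
  Finset.sum_congr rfl fun r hr => he r (by have := (Finset.mem_Icc.1 hr).1; omega)

private theorem ne_b1 (h : IsRec 1 e b) : b 1 = 0 := by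
  have := h.2 1 le_rfl
  simpa using this

private theorem ne_beta1 (h : IsBeta 1 e β) : β 1 = 0 := by
  have := h.2 1 le_rfl
  simpa using this

private theorem ne_b2 (h : IsRec 1 e b) : 2 * b 2 = 1 - e 2 := by
  have := h.2 2 (by norm_num)
  have h0 := h.1
  norm_num at this
  rw [h0] at this
  linarith

private theorem ne_b3 (h : IsRec 1 e b) : 3 * b 3 = 1 - e 3 := by
  have := h.2 3 (by norm_num)
  have h0 := h.1
  have h1 := ne_b1 h
  have e3 : Finset.Icc (1 + 1) 3 = {2, 3} := rfl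
  rw [e3, Finset.sum_insert (by decide), Finset.sum_singleton] at this
  norm_num at this
  rw [h0, h1] at this
  linarith

private theorem ne_b4 (h : IsRec 1 e b) : 4 * b 4 = (1 - e 2) * b 2 + (1 - e 4) := by
  have := h.2 4 (by norm_num)
  have h0 := h.1
  have h1 := ne_b1 h
  have e3 : Finset.Icc (1 + 1) 4 = {2, 3, 4} := rfl
  rw [e3, Finset.sum_insert (by decide), Finset.sum_insert (by decide),
    Finset.sum_singleton] at this
  norm_num at this
  rw [h0, h1] at this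
  linarith

private theorem ne_b_ge (hQ : 3 ≤ Q) (he : ∀ r : ℕ, 1 ≤ r → e r = (Q - 1) / (Q ^ r - 1))
    (h : IsRec 1 e b) (n : ℕ) (hn : 3 ≤ n) : 61 / 200 ≤ b n := by
  have he0 : ∀ r, 1 ≤ r → 0 ≤ e r := fun r hr => by rw [he r hr]; exact ne_nonneg hQ hr
  have he1 : ∀ r, 1 ≤ r → e r ≤ 1 := fun r hr => by rw [he r hr]; exact ne_le_one hQ hr
  have htau : ∀ r, 1 ≤ r → e r ≤ 2 / ((3 : ℝ) ^ r - 1) := fun r hr => by
    rw [he r hr]; exact ne_le_tau hQ hr
  have t2 : e 2 ≤ 1 / 4 := by have := htau 2 (by norm_num); norm_num at this; linarith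
  have t3 : e 3 ≤ 1 / 13 := by have := htau 3 (by norm_num); norm_num at this; linarith
  have t4 : e 4 ≤ 1 / 40 := by have := htau 4 (by norm_num); norm_num at this; linarith
  have b2 : 3 / 8 ≤ b 2 := by have := ne_b2 h; linarith
  induction n using Nat.strong_induction_on with
  | _ n ih =>
    rcases Nat.lt_or_ge n 5 with hn5 | hn5
    · have : n = 3 ∨ n = 4 := by omega
      rcases this with rfl | rfl
      · have := ne_b3 h; linarith
      · have := ne_b4 h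
        have h2 : 3 / 4 * (3 / 8) ≤ (1 - e 2) * b 2 :=
          mul_le_mul (by linarith) b2 (by norm_num) (by linarith)
        linarith
    · obtain ⟨m, rfl⟩ : ∃ m, n = m + 3 := ⟨n - 3, by omega⟩
      have hm : 2 ≤ m := by omega
      have hrec := h.2 (m + 3) (by omega)
      have h0 := h.1
      have h1 := ne_b1 h
      rw [show (1 : ℕ) + 1 = 2 from rfl, Finset.sum_Icc_succ_top (by omega),
        Finset.sum_Icc_succ_top (by omega), Finset.sum_Icc_succ_top (by omega)] at hrec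
      have i1 : m + 3 - (m + 1) = 2 := by omega
      have i2 : m + 3 - (m + 1 + 1) = 1 := by omega
      have i3 : m + 3 - (m + 2 + 1) = 0 := by omega
      rw [i1, i2, i3, h0, h1] at hrec
      have hs : ∑ r ∈ Finset.Icc 2 m, (1 - e r) * (61 / 200) ≤
          ∑ r ∈ Finset.Icc 2 m, (1 - e r) * b (m + 3 - r) := by
        refine Finset.sum_le_sum fun r hr => ?_
        have hr' := Finset.mem_Icc.1 hr
        exact mul_le_mul_of_nonneg_left (ih (m + 3 - r) (by omega) (by omega))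
          (by have := he1 r (by omega); linarith)
      have hs2 : ∑ r ∈ Finset.Icc 2 m, (1 - e r) * (61 / 200) =
          ((m : ℝ) - 1) * (61 / 200) - (∑ r ∈ Finset.Icc 2 m, e r) * (61 / 200) := by
        rw [← Finset.sum_mul, Finset.sum_sub_distrib]
        have hcard : (∑ r ∈ Finset.Icc 2 m, (1 : ℝ)) = (m : ℝ) - 1 := by
          rw [Finset.sum_const, Nat.card_Icc, nsmul_eq_mul, mul_one]
          rw [Nat.cast_sub (by omega)]
          push_cast
          ring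
        rw [hcard]
        ring
      have hS := ne_sum_S hQ m
      rw [← ne_sum_e he] at hS
      have hA : e (m + 1) ≤ 1 / 13 := by
        have h3 := htau (m + 1) (by omega)
        have h4 := ne_tau_mono (r := 3) (s := m + 1) (by norm_num) (by omega)
        norm_num at h4
        linarith
      have hB : e (m + 3) ≤ 1 / 121 := by
        have h3 := htau (m + 3) (by omega)
        have h4 := ne_tau_mono (r := 5) (s := m + 3) (by norm_num) (by omega)
        norm_num at h4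
        linarith
      have hC : (1 - e (m + 1)) * (3 / 8) ≤ (1 - e (m + 1)) * b 2 :=
        mul_le_mul_of_nonneg_left b2 (by have := he1 (m + 1) (by omega); linarith)
      have i4 : m + 2 + 1 = m + 3 := rfl
      rw [i4] at hrec
      push_cast at hrec
      have hpos : (0 : ℝ) < (m : ℝ) + 3 := by positivity
      have key : 61 / 200 * ((m : ℝ) + 3) ≤ ((m : ℝ) + 3) * b (m + 3) := by
        rw [hrec]
        linarith
      by_contra hcon
      push Not at hcon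
      nlinarith

private theorem ne_beta2 (h : IsBeta 1 e β) : 2 * β 2 = e 2 := by
  have := h.2 2 (by norm_num)
  have h0 := h.1
  norm_num at this
  rw [h0] at this
  linarith

private theorem ne_beta4 (h : IsBeta 1 e β) : 4 * β 4 = e 2 * β 2 + e 4 := by
  have := h.2 4 (by norm_num)
  have h0 := h.1
  have h1 := ne_beta1 h
  have e3 : Finset.Icc (1 + 1) 4 = {2, 3, 4} := rfl
  rw [e3, Finset.sum_insert (by decide), Finset.sum_insert (by decide),
    Finset.sum_singleton] at this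
  norm_num at this
  rw [h0, h1] at this
  linarith

private theorem ne_e2 (hQ : 3 ≤ Q) (he : ∀ r : ℕ, 1 ≤ r → e r = (Q - 1) / (Q ^ r - 1)) :
    e 2 = 1 / (Q + 1) := by
  rw [he 2 (by norm_num)]
  have h1 : Q - 1 ≠ 0 := by linarith
  have h2 : Q + 1 ≠ 0 := by linarith
  have h3 : Q ^ 2 - 1 ≠ 0 := (ne_den_pos hQ (by norm_num)).ne'
  rw [div_eq_div_iff h3 h2]
  ring

private theorem ne_e3 (hQ : 3 ≤ Q) (he : ∀ r : ℕ, 1 ≤ r → e r = (Q - 1) / (Q ^ r - 1))
    {r : ℕ} (hr : 3 ≤ r) : e r ≤ 1 / (Q + 1) * (1 / 3) := by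
  rw [he r (by omega)]
  have h3 : 0 < Q ^ 3 - 1 := ne_den_pos hQ (by norm_num)
  have h4 : Q ^ 3 ≤ Q ^ r := pow_le_pow_right₀ (by linarith) hr
  have h5 : (Q - 1) / (Q ^ r - 1) ≤ (Q - 1) / (Q ^ 3 - 1) :=
    div_le_div_of_nonneg_left (by linarith) h3 (by linarith)
  have h6 : (Q - 1) / (Q ^ 3 - 1) ≤ 1 / (Q + 1) * (1 / 3) := by
    rw [div_mul_div_comm, div_le_div_iff₀ h3 (by linarith)]
    nlinarith [mul_nonneg (by linarith : (0 : ℝ) ≤ Q - 1) (by linarith : (0 : ℝ) ≤ Q - 3),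
      mul_nonneg (mul_nonneg (by linarith : (0 : ℝ) ≤ Q - 1) (by linarith : (0 : ℝ) ≤ Q - 3))
        (by linarith : (0 : ℝ) ≤ Q)]
  linarith

private theorem ne_beta_le (hQ : 3 ≤ Q) (he : ∀ r : ℕ, 1 ≤ r → e r = (Q - 1) / (Q ^ r - 1))
    (h : IsBeta 1 e β) (n : ℕ) (hn : 1 ≤ n) : β n ≤ 1 / (Q + 1) * (1 / 2) := by
  have he0 : ∀ r, 1 ≤ r → 0 ≤ e r := fun r hr => by rw [he r hr]; exact ne_nonneg hQ hr
  have hu : 0 < 1 / (Q + 1) := by
    have : 0 < Q + 1 := by linarith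
    positivity
  induction n using Nat.strong_induction_on with
  | _ n ih =>
    rcases Nat.lt_or_ge n 3 with hn3 | hn3
    · have : n = 1 ∨ n = 2 := by omega
      rcases this with rfl | rfl
      · rw [ne_beta1 h]; linarith
      · have h2 := ne_beta2 h
        rw [ne_e2 hQ he] at h2
        linarith
    · obtain ⟨m, rfl⟩ : ∃ m, n = m + 1 := ⟨n - 1, by omega⟩
      have hrec := h.2 (m + 1) (by omega)
      rw [show (1 : ℕ) + 1 = 2 from rfl, Finset.sum_Icc_succ_top (by omega), Nat.sub_self,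
        h.1] at hrec
      have hs : ∑ r ∈ Finset.Icc 2 m, e r * β (m + 1 - r) ≤
          ∑ r ∈ Finset.Icc 2 m, e r * (1 / (Q + 1) * (1 / 2)) := by
        refine Finset.sum_le_sum fun r hr => ?_
        have hr' := Finset.mem_Icc.1 hr
        exact mul_le_mul_of_nonneg_left (ih (m + 1 - r) (by omega) (by omega))
          (he0 r (by omega))
      rw [← Finset.sum_mul] at hs
      have hS := ne_sum_S hQ m
      rw [← ne_sum_e he] at hS
      have h3 := ne_e3 hQ he hn3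
      push_cast at hrec
      have hm : (2 : ℝ) ≤ m := by
        have : 2 ≤ m := by omega
        exact_mod_cast this
      have h5 : (∑ r ∈ Finset.Icc 2 m, e r) * (1 / (Q + 1) * (1 / 2)) ≤
          1 * (1 / (Q + 1) * (1 / 2)) :=
        mul_le_mul_of_nonneg_right (by linarith) (by positivity)
      by_contra hcon
      push Not at hcon
      have h6 : 3 * (1 / (Q + 1) * (1 / 2)) ≤ ((m : ℝ) + 1) * β (m + 1) := by
        have h7 : (3 : ℝ) ≤ (m : ℝ) + 1 := by linarith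
        have h8 : 0 ≤ β (m + 1) := by
          have : 0 < 1 / (Q + 1) * (1 / 2) := by positivity
          linarith
        calc 3 * (1 / (Q + 1) * (1 / 2)) ≤ 3 * β (m + 1) := by linarith
          _ ≤ _ := mul_le_mul_of_nonneg_right h7 h8
      linarith

end aux

theorem E_ge {q : ℕ} (hq : 3 ≤ q) {e b β : ℕ → ℝ}
    (he : ∀ r : ℕ, 1 ≤ r → e r = ((q : ℝ) - 1) / ((q : ℝ) ^ r - 1))
    (h : IsRec 1 e b) (hβ : IsBeta 1 e β) {n : ℕ} (hn : 4 ≤ n) :
    2 / 7 ≤ b n - ((q : ℝ) - 2) * β n := by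
  have hQ : (3 : ℝ) ≤ q := by exact_mod_cast hq
  generalize (q : ℝ) = Q at *
  have htau : ∀ r, 1 ≤ r → e r ≤ 2 / ((3 : ℝ) ^ r - 1) := fun r hr => by
    rw [he r hr]; exact ne_le_tau hQ hr
  have he0 : ∀ r, 1 ≤ r → 0 ≤ e r := fun r hr => by rw [he r hr]; exact ne_nonneg hQ hr
  have hE2 := ne_e2 hQ he
  have hu : 0 < 1 / (Q + 1) := by
    have : 0 < Q + 1 := by linarith
    positivity
  rcases Nat.lt_or_ge n 5 with hn5 | hn5
  · obtain rfl : n = 4 := by omega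
    have t2 : e 2 ≤ 1 / 4 := by have := htau 2 (by norm_num); norm_num at this; linarith
    have t4 : e 4 ≤ 1 / 40 := by have := htau 4 (by norm_num); norm_num at this; linarith
    have b2 : 3 / 8 ≤ b 2 := by have := ne_b2 h; linarith
    have b4 := ne_b4 h
    have h2 : 3 / 4 * (3 / 8) ≤ (1 - e 2) * b 2 :=
      mul_le_mul (by linarith) b2 (by norm_num) (by linarith)
    have hb4 : 201 / 640 ≤ b 4 := by linarith
    have c2 := ne_beta2 hβ
    have c4 := ne_beta4 hβ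
    have d1 : (Q - 2) * (e 2 * β 2) ≤ 1 / 24 := by
      have : β 2 = e 2 / 2 := by linarith
      rw [this, hE2]
      have h3 : (Q - 2) * (1 / (Q + 1) * (1 / (Q + 1) / 2)) = (Q - 2) / (2 * (Q + 1) ^ 2) := by
        have : Q + 1 ≠ 0 := by linarith
        field_simp
      rw [h3, div_le_div_iff₀ (by positivity) (by norm_num)]
      nlinarith [sq_nonneg (Q - 5)]
    have d2 : (Q - 2) * e 4 ≤ 1 / 30 := by
      rw [he 4 (by norm_num), ← mul_div_assoc,
        div_le_div_iff₀ (ne_den_pos hQ (by norm_num)) (by norm_num)]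
      have h5 : 0 ≤ (Q - 1) * (Q ^ 3 + Q ^ 2 + Q + 1 - 30 * (Q - 2)) := by
        apply mul_nonneg (by linarith)
        nlinarith [mul_nonneg (by linarith : (0 : ℝ) ≤ Q - 3) (by linarith : (0 : ℝ) ≤ Q),
          mul_nonneg (mul_nonneg (by linarith : (0 : ℝ) ≤ Q - 3) (by linarith : (0 : ℝ) ≤ Q))
            (by linarith : (0 : ℝ) ≤ Q)]
      nlinarith
    have d3 : (Q - 2) * β 4 ≤ 1 / 96 + 1 / 120 := by
      have h6 : 4 * ((Q - 2) * β 4) = (Q - 2) * (e 2 * β 2) + (Q - 2) * e 4 := by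
        rw [← mul_add, ← c4]; ring
      linarith
    linarith
  · have hb := ne_b_ge hQ he h n (by omega)
    obtain ⟨m, rfl⟩ : ∃ m, n = m + 1 := ⟨n - 1, by omega⟩
    have hrec := hβ.2 (m + 1) (by omega)
    rw [show (1 : ℕ) + 1 = 2 from rfl, Finset.sum_Icc_succ_top (by omega), Nat.sub_self,
      hβ.1] at hrec
    have hs : ∑ r ∈ Finset.Icc 2 m, e r * β (m + 1 - r) ≤
        ∑ r ∈ Finset.Icc 2 m, e r * (1 / (Q + 1) * (1 / 2)) := by
      refine Finset.sum_le_sum fun r hr => ?_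
      have hr' := Finset.mem_Icc.1 hr
      exact mul_le_mul_of_nonneg_left (ne_beta_le hQ he hβ (m + 1 - r) (by omega))
        (he0 r (by omega))
    rw [← Finset.sum_mul] at hs
    have hS := ne_sum_le hQ m
    rw [← ne_sum_e he] at hS
    have h4 : e (m + 1) ≤ 1 / Q ^ 4 := by
      have h5 : e (m + 1) ≤ 1 / Q ^ m := by
        rw [he (m + 1) (by omega)]
        exact ne_le_pow hQ m
      have h6 : 1 / Q ^ m ≤ 1 / Q ^ 4 := by
        apply div_le_div_of_nonneg_left (by norm_num) (by positivity)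
        exact pow_le_pow_right₀ (by linarith) (by omega)
      linarith
    have h7 : (∑ r ∈ Finset.Icc 2 m, e r) * (1 / (Q + 1) * (1 / 2)) ≤
        1 / (Q - 1) * (1 / (Q + 1) * (1 / 2)) :=
      mul_le_mul_of_nonneg_right hS (by positivity)
    have h8 : ((m : ℝ) + 1) * β (m + 1) ≤ 1 / Q ^ 4 + 1 / (Q - 1) * (1 / (Q + 1) * (1 / 2)) := by
      push_cast at hrec
      linarith
    have h9 : (Q - 2) * (1 / Q ^ 4) ≤ 1 / 81 := by
      rw [mul_one_div, div_le_div_iff₀ (by positivity) (by norm_num)]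
      have h10 : 0 ≤ (Q - 3) * (Q ^ 3 + 3 * Q ^ 2 + 9 * Q - 54) := by
        apply mul_nonneg (by linarith)
        nlinarith [mul_nonneg (by linarith : (0 : ℝ) ≤ Q - 3) (by linarith : (0 : ℝ) ≤ Q),
          mul_nonneg (mul_nonneg (by linarith : (0 : ℝ) ≤ Q - 3) (by linarith : (0 : ℝ) ≤ Q))
            (by linarith : (0 : ℝ) ≤ Q)]
      nlinarith
    have h11 : (Q - 2) * (1 / (Q - 1) * (1 / (Q + 1) * (1 / 2))) ≤ 1 / 14 := by
      have h12 : (Q - 2) * (1 / (Q - 1) * (1 / (Q + 1) * (1 / 2))) =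
          (Q - 2) / (2 * ((Q - 1) * (Q + 1))) := by
        have : Q + 1 ≠ 0 := by linarith
        have : Q - 1 ≠ 0 := by linarith
        field_simp
      have h13 : 0 < 2 * ((Q - 1) * (Q + 1)) := by
        have : 0 < Q - 1 := by linarith
        positivity
      rw [h12, div_le_div_iff₀ h13 (by norm_num)]
      nlinarith [sq_nonneg (2 * Q - 7)]
    have h14 : ((m : ℝ) + 1) * ((Q - 2) * β (m + 1)) ≤ 1 / 81 + 1 / 14 := by
      have h15 : (Q - 2) * (((m : ℝ) + 1) * β (m + 1)) ≤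
          (Q - 2) * (1 / Q ^ 4 + 1 / (Q - 1) * (1 / (Q + 1) * (1 / 2))) :=
        mul_le_mul_of_nonneg_left h8 (by linarith)
      nlinarith
    have hm : (4 : ℝ) ≤ m := by
      have : 4 ≤ m := by omega
      exact_mod_cast this
    have h16 : (Q - 2) * β (m + 1) ≤ 17 / 1000 := by
      by_contra hcon
      push Not at hcon
      have h17 : 5 * (17 / 1000) ≤ ((m : ℝ) + 1) * ((Q - 2) * β (m + 1)) := by
        calc (5 : ℝ) * (17 / 1000) ≤ 5 * ((Q - 2) * β (m + 1)) := by linarith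
          _ ≤ _ := mul_le_mul_of_nonneg_right (by linarith) (by linarith)
      norm_num at h14 h17
      linarith
    linarith

end Pool.Agent.PSD
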