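import Pool.Agent.PSD.K1
import Pool.Agent.PSD.Eps
import Pool.Agent.PSD.NumB
import Pool.Agent.PSD.NumC
import Pool.Agent.PSD.NumD
import Pool.Agent.PSD.NumE

/-!
# PSD/Num: the numerical inequality

Assembly of the numerical modules (done by the architect).
-/

open Polynomial

namespace Pool.Agent.PSD

variable (K : Type) [Field K] [Fintype K] [DecidableEq K]

theorem ID_nonneg (d : ℕ) : 0 ≤ ID K d := Finset.sum_nonneg fun _ _ => Nat.cast_nonneg _

theorem eps_spec {k : ℕ} (hk : 1 ≤ k) : EpsSpec (Fintype.card K : ℝ) k (eps K k) := by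
  have hq : (2 : ℝ) ≤ (Fintype.card K : ℝ) := by
    exact_mod_cast (Fintype.one_lt_card : 1 < Fintype.card K)
  exact epsSpec_of hq (ID K) (ID_nonneg K) (fun r hr => sum_ID K hr) hk

theorem total_ge_big {k n : ℕ} (hk : 2 ≤ k) (hkn : 2 * k ≤ n) :
    2 / 7 ≤ sl K k n + ∑ s ∈ Finset.Icc 1 (k - 1), bb K k (n - s) := by
  have hspec := eps_spec K (show 1 ≤ k by omega)
  have hrec := bb_isRec K k
  have he0 : ∀ r, 0 ≤ eps K k r := hspec.1
  have he1 : ∀ r, 1 ≤ r → eps K k r ≤ 1 := hspec.2.1
  have hcard : 2 ≤ Fintype.card K := (Fintype.one_lt_card : 1 < Fintype.card K)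
  -- general lower bound with E
  have main : ∀ E : ℝ, E ≤ 1 → (∀ m : ℕ, k < m →
      eps K k m + (∑ r ∈ Finset.Icc (k + 1) (m - k - 1), eps K k r) / ((k : ℝ) + 1) ≤ E) →
      2 / 5 * (1 - E) ≤ bb K k n + ∑ s ∈ Finset.Icc 1 (k - 1), bb K k (n - s) := by
    intro E hE1 hE
    have h1 : ∀ m : ℕ, k < m → (1 - E) / (2 * (k : ℝ) + 1) ≤ bb K k m := fun m hm =>
      isRec_ge hrec he0 he1 hE1 hE hm
    have h2 : ∑ s ∈ Finset.Icc 1 (k - 1), (1 - E) / (2 * (k : ℝ) + 1) ≤
        ∑ s ∈ Finset.Icc 1 (k - 1), bb K k (n - s) := by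
      apply Finset.sum_le_sum
      intro s hs
      rw [Finset.mem_Icc] at hs
      exact h1 _ (by omega)
    have h3 := h1 n (by omega)
    rw [Finset.sum_const, Nat.card_Icc, nsmul_eq_mul] at h2
    have h4 : ((k - 1 + 1 - 1 : ℕ) : ℝ) = (k : ℝ) - 1 := by
      have : k - 1 + 1 - 1 = k - 1 := by omega
      rw [this, Nat.cast_sub (by omega)]; simp
    rw [h4] at h2
    have hk' : (2 : ℝ) ≤ k := by exact_mod_cast hk
    have h5 : 2 / 5 * (1 - E) ≤ (1 - E) / (2 * (k : ℝ) + 1) +
        ((k : ℝ) - 1) * ((1 - E) / (2 * (k : ℝ) + 1)) := by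
      have h6 : (1 - E) / (2 * (k : ℝ) + 1) + ((k : ℝ) - 1) * ((1 - E) / (2 * (k : ℝ) + 1)) =
          (k / (2 * (k : ℝ) + 1)) * (1 - E) := by
        field_simp
        ring
      rw [h6]
      apply mul_le_mul_of_nonneg_right _ (by linarith)
      rw [div_le_div_iff₀ (by norm_num) (by linarith)]
      linarith
    linarith
  have hsl := sl_bb K k n
  rcases Nat.eq_or_lt_of_le hcard with h2 | h3
  · -- q = 2
    have hq2 : (Fintype.card K : ℝ) = 2 := by exact_mod_cast h2.symm
    rw [hq2] at hspec hsl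
    have h1 := main (2 / 7) (by norm_num) (fun m hm => C_sup hk hspec hm)
    have h4 : sl K k n = bb K k n := by
      have : |sl K k n - bb K k n| ≤ 0 := by
        have := hsl
        norm_num at this
        rw [this]; simp
      have := abs_nonpos_iff.mp this
      linarith
    rw [h4]
    linarith
  · -- q ≥ 3
    have hq3 : 3 ≤ Fintype.card K := h3
    have hq3' : (3 : ℝ) ≤ (Fintype.card K : ℝ) := by exact_mod_cast hq3
    have h1 := main (1 / 8) (by norm_num) (fun m hm => B_sup hq3 hk hspec hm)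
    have h4 := isBeta_le hk (beta_isBeta K k) he0 (fun r hr => B_term hq3 hk hspec hr)
      (fun N => B_sum hq3 hk hspec N) (n := n) (by omega)
    have h5 := (abs_le.mp hsl).1
    have h6 : ((Fintype.card K : ℝ) - 2) * beta K k n ≤ 5 / 128 := by
      have h7 : ((Fintype.card K : ℝ) - 2) * beta K k n ≤
          ((Fintype.card K : ℝ) - 2) * (5 / 16 * (1 / (Fintype.card K : ℝ) ^ 2)) :=
        mul_le_mul_of_nonneg_left h4 (by linarith)
      have h8 : ((Fintype.card K : ℝ) - 2) * (5 / 16 * (1 / (Fintype.card K : ℝ) ^ 2)) ≤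
          5 / 128 := by
        have hpos : (0 : ℝ) < (Fintype.card K : ℝ) ^ 2 := by positivity
        have h9 : ((Fintype.card K : ℝ) - 2) * (5 / 16 * (1 / (Fintype.card K : ℝ) ^ 2)) =
            (5 / 16 * ((Fintype.card K : ℝ) - 2)) / (Fintype.card K : ℝ) ^ 2 := by
          field_simp
        rw [h9, div_le_iff₀ hpos]
        nlinarith [sq_nonneg ((Fintype.card K : ℝ) - 4)]
      linarith
    linarith

theorem total_ge_one {n : ℕ} (hn : 2 ≤ n) (h23 : ¬ (n = 2 ∧ Fintype.card K = 3)) :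
    2 / 7 ≤ sl K 1 n := by
  have hspec := eps_spec K (le_refl 1)
  have hcard : 2 ≤ Fintype.card K := (Fintype.one_lt_card : 1 < Fintype.card K)
  rcases Nat.eq_or_lt_of_le hn with h | h
  · subst h
    exact sl_two_ge K fun h3 => h23 ⟨rfl, h3⟩
  · rcases Nat.eq_or_lt_of_le (show 3 ≤ n from h) with h' | h'
    · subst h'
      exact sl_three_ge K
    · have hn4 : 4 ≤ n := h'
      have hsl := sl_bb K 1 n
      rcases Nat.eq_or_lt_of_le hcard with h2 | h3
      · have hq2 : (Fintype.card K : ℝ) = 2 := by exact_mod_cast h2.symm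
        rw [hq2] at hsl
        have h4 : sl K 1 n = bb K 1 n := by
          have : |sl K 1 n - bb K 1 n| ≤ 0 := by
            have := hsl
            norm_num at this
            rw [this]; simp
          have := abs_nonpos_iff.mp this
          linarith
        rw [h4]
        refine D_ge (e := eps K 1) ?_ (bb_isRec K 1) (by omega)
        intro r hr
        rw [eps_one K hr, hq2]
        norm_num
      · have h5 := (abs_le.mp hsl).1
        have h6 := E_ge (q := Fintype.card K) h3 (fun r hr => eps_one K hr) (bb_isRec K 1)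
          (beta_isBeta K 1) hn4
        linarith

theorem total_ge {k n : ℕ} (hk : 1 ≤ k) (hkn : 2 * k ≤ n)
    (h23 : ¬ (n = 2 ∧ Fintype.card K = 3)) :
    2 / 7 ≤ sl K k n + ∑ s ∈ Finset.Icc 1 (k - 1), bb K k (n - s) := by
  rcases Nat.eq_or_lt_of_le hk with h | h
  · subst h
    simpa using total_ge_one K (by omega) h23
  · exact total_ge_big K h hkn

end Pool.Agent.PSD
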