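import Pool.Agent.PSD.Defs

/-!
# PSD/NumA: general estimates for the recursions

`IsRec k e b`: `b 0 = 1`, `n b n = ∑_{r=k+1}^n (1 - e r) b (n - r)`, with `0 ≤ e r ≤ 1`.
* `b j = 0` for `1 ≤ j ≤ k` (empty sum), `b ≥ 0`;
* `b j ≤ 1/(k+1)` for `j ≥ 1`: `n b n ≤ ∑_{j=0}^{n-k-1} b j ≤ 1 + (n - 2k - 1)⁺/(k+1)`, and for
  `n ≤ 2k + 1` this gives `b n ≤ 1/n ≤ 1/(k+1)`, for `n > 2k+1` the right side is
  `(n - k)/(k + 1) ≤ n/(k+1)`.
* lower bound: if `e m + (1/(k+1)) ∑_{r=k+1}^{m-k-1} e r ≤ E` for all `m > k` then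
  `b m ≥ (1 - E)/(2k+1)` for all `m > k`: by strong induction
  `m b m = [1 + ∑_{j=k+1}^{m-k-1} b j] - [e m + ∑_{r=k+1}^{m-k-1} e r b (m - r)]
  ≥ 1 + (m-2k-1)⁺ (1-E)/(2k+1) - E = (1 - E)(1 + (m-2k-1)⁺/(2k+1)) ≥ (1-E) m/(2k+1)`
  (the terms `r` with `m - k ≤ r < m` vanish as `b (m - r) = 0`; `r = m` gives `b 0 = 1`).
* `IsBeta k e b` with `k ≥ 2`, `e r ≤ A` for `r > k`, `∑_{r=k+1}^N e r ≤ 1/2`: `b n ≥ 0`,
  `b j ≤ A/2` for `j ≥ 1` (zero for `j ≤ k`; else `j b j ≤ e j + ∑_{k<r<j} e r b (j-r)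
  ≤ A + A/4`, `j ≥ 3`), and then `b n ≤ 5A/16` for `n ≥ 4`.
-/

namespace Pool.Agent.PSD

private theorem numA_split {k n : ℕ} {b w : ℕ → ℝ} (hb0 : b 0 = 1)
    (hb : ∀ j, 1 ≤ j → j ≤ k → b j = 0) (hn : k < n) :
    ∑ r ∈ Finset.Icc (k + 1) n, w r * b (n - r) =
      w n + ∑ r ∈ Finset.Icc (k + 1) (n - k - 1), w r * b (n - r) := by
  have h1 : Finset.Icc (k + 1) n = insert n (Finset.Icc (k + 1) (n - 1)) := by
    ext r
    rw [Finset.mem_insert, Finset.mem_Icc, Finset.mem_Icc]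
    omega
  have h2 : n ∉ Finset.Icc (k + 1) (n - 1) := by
    rw [Finset.mem_Icc]
    omega
  rw [h1, Finset.sum_insert h2, Nat.sub_self, hb0, mul_one]
  congr 1
  refine (Finset.sum_subset ?_ ?_).symm
  · intro r hr
    rw [Finset.mem_Icc] at hr ⊢
    omega
  · intro r hr hr2
    rw [Finset.mem_Icc] at hr hr2
    rw [hb (n - r) (by omega) (by omega), mul_zero]

private theorem numA_card {k n : ℕ} :
    (Finset.Icc (k + 1) (n - k - 1)).card = n - (2 * k + 1) := by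
  rw [Nat.card_Icc]
  omega

theorem isRec_small {k : ℕ} {e b : ℕ → ℝ} (h : IsRec k e b) {j : ℕ} (h1 : 1 ≤ j) (h2 : j ≤ k) :
    b j = 0 := by
  have h3 := h.2 j h1
  rw [Finset.Icc_eq_empty (by omega), Finset.sum_empty] at h3
  have h4 : (j : ℝ) ≠ 0 := Nat.cast_ne_zero.2 (by omega)
  exact (mul_eq_zero.1 h3).resolve_left h4

theorem isRec_nonneg {k : ℕ} {e b : ℕ → ℝ} (h : IsRec k e b) (he : ∀ r, 1 ≤ r → e r ≤ 1) (n : ℕ) :
    0 ≤ b n := by
  induction n using Nat.strong_induction_on with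
  | _ n ih =>
    rcases Nat.eq_zero_or_pos n with h0 | h0
    · rw [h0, h.1]
      exact zero_le_one
    · have h1 := h.2 n h0
      have h2 : 0 ≤ (n : ℝ) * b n := by
        rw [h1]
        refine Finset.sum_nonneg fun r hr => ?_
        rw [Finset.mem_Icc] at hr
        exact mul_nonneg (sub_nonneg.2 (he r (by omega))) (ih (n - r) (by omega))
      exact nonneg_of_mul_nonneg_right h2 (Nat.cast_pos.2 h0)

theorem isRec_le {k : ℕ} {e b : ℕ → ℝ} (h : IsRec k e b) (he0 : ∀ r, 0 ≤ e r)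
    (he : ∀ r, 1 ≤ r → e r ≤ 1) {j : ℕ} (hj : 1 ≤ j) : b j ≤ 1 / ((k : ℝ) + 1) := by
  induction j using Nat.strong_induction_on with
  | _ n ih =>
    have hk : (0 : ℝ) < (k : ℝ) + 1 := by positivity
    by_cases hnk : n ≤ k
    · rw [isRec_small h hj hnk]
      positivity
    · have h1 := h.2 n hj
      rw [numA_split h.1 (fun i hi1 hi2 => isRec_small h hi1 hi2) (not_le.1 hnk)] at h1
      have h2 : ∑ r ∈ Finset.Icc (k + 1) (n - k - 1), (1 - e r) * b (n - r) ≤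
          ∑ r ∈ Finset.Icc (k + 1) (n - k - 1), 1 / ((k : ℝ) + 1) := by
        refine Finset.sum_le_sum fun r hr => ?_
        rw [Finset.mem_Icc] at hr
        have h3 := ih (n - r) (by omega) (by omega)
        have h4 := isRec_nonneg h he (n - r)
        have h5 := he0 r
        nlinarith
      rw [Finset.sum_const, numA_card, nsmul_eq_mul] at h2
      have h3 := he0 n
      have hn : (0 : ℝ) < n := Nat.cast_pos.2 hj
      have h4 : (n : ℝ) * b n ≤ 1 + ((n - (2 * k + 1) : ℕ) : ℝ) * (1 / ((k : ℝ) + 1)) := by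
        linarith
      have h5 : 1 + ((n - (2 * k + 1) : ℕ) : ℝ) * (1 / ((k : ℝ) + 1)) ≤
          (n : ℝ) * (1 / ((k : ℝ) + 1)) := by
        rw [mul_one_div, mul_one_div, ← sub_nonneg]
        have h6 : ((n - (2 * k + 1) : ℕ) : ℝ) + ((k : ℝ) + 1) ≤ n := by
          have h7 : (n - (2 * k + 1)) + (k + 1) ≤ n := by omega
          exact_mod_cast h7
        have h8 : (n : ℝ) / ((k : ℝ) + 1) - (1 + ((n - (2 * k + 1) : ℕ) : ℝ) / ((k : ℝ) + 1)) =
            ((n : ℝ) - (((n - (2 * k + 1) : ℕ) : ℝ) + ((k : ℝ) + 1))) / ((k : ℝ) + 1) := by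
          field_simp
          ring
        rw [h8]
        exact div_nonneg (sub_nonneg.2 h6) hk.le
      exact le_of_mul_le_mul_left (h4.trans h5) hn

theorem isRec_ge {k : ℕ} {e b : ℕ → ℝ} (h : IsRec k e b) (he0 : ∀ r, 0 ≤ e r)
    (he : ∀ r, 1 ≤ r → e r ≤ 1) {E : ℝ} (hE1 : E ≤ 1)
    (hE : ∀ m : ℕ, k < m →
      e m + (∑ r ∈ Finset.Icc (k + 1) (m - k - 1), e r) / ((k : ℝ) + 1) ≤ E)
    {m : ℕ} (hm : k < m) : (1 - E) / (2 * (k : ℝ) + 1) ≤ b m := by
  induction m using Nat.strong_induction_on with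
  | _ n ih =>
    have hk : (0 : ℝ) < 2 * (k : ℝ) + 1 := by positivity
    have hn : (0 : ℝ) < n := Nat.cast_pos.2 (by omega)
    have h1 := h.2 n (by omega)
    rw [numA_split h.1 (fun i hi1 hi2 => isRec_small h hi1 hi2) hm] at h1
    have h2 : ∑ r ∈ Finset.Icc (k + 1) (n - k - 1), ((1 - E) / (2 * (k : ℝ) + 1) -
        e r / ((k : ℝ) + 1)) ≤ ∑ r ∈ Finset.Icc (k + 1) (n - k - 1), (1 - e r) * b (n - r) := by
      refine Finset.sum_le_sum fun r hr => ?_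
      rw [Finset.mem_Icc] at hr
      have h3 := ih (n - r) (by omega) (by omega)
      have h4 := isRec_le h he0 he (j := n - r) (by omega)
      have h5 := mul_le_mul_of_nonneg_left h4 (he0 r)
      rw [mul_one_div] at h5
      linarith
    rw [Finset.sum_sub_distrib, Finset.sum_const, numA_card, nsmul_eq_mul, ← Finset.sum_div] at h2
    have h3 := hE n hm
    have h4 : (1 - E) + ((n - (2 * k + 1) : ℕ) : ℝ) * ((1 - E) / (2 * (k : ℝ) + 1)) ≤
        (n : ℝ) * b n := by linarith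
    have h6 : (n : ℝ) ≤ ((n - (2 * k + 1) : ℕ) : ℝ) + (2 * (k : ℝ) + 1) := by
      have h7 : n ≤ (n - (2 * k + 1)) + (2 * k + 1) := by omega
      exact_mod_cast h7
    have h7 : (0 : ℝ) ≤ (1 - E) / (2 * (k : ℝ) + 1) := div_nonneg (by linarith) hk.le
    have h8 : (1 - E) / (2 * (k : ℝ) + 1) * (2 * (k : ℝ) + 1) = 1 - E :=
      div_mul_cancel₀ _ hk.ne'
    have h9 : (n : ℝ) * ((1 - E) / (2 * (k : ℝ) + 1)) ≤
        (1 - E) + ((n - (2 * k + 1) : ℕ) : ℝ) * ((1 - E) / (2 * (k : ℝ) + 1)) := by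
      have h10 := mul_le_mul_of_nonneg_right h6 h7
      linarith
    exact le_of_mul_le_mul_left (h9.trans h4) hn

theorem isBeta_nonneg {k : ℕ} {e b : ℕ → ℝ} (h : IsBeta k e b) (he0 : ∀ r, 0 ≤ e r) (n : ℕ) :
    0 ≤ b n := by
  induction n using Nat.strong_induction_on with
  | _ n ih =>
    rcases Nat.eq_zero_or_pos n with h0 | h0
    · rw [h0, h.1]
      exact zero_le_one
    · have h1 := h.2 n h0
      have h2 : 0 ≤ (n : ℝ) * b n := by
        rw [h1]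
        refine Finset.sum_nonneg fun r hr => ?_
        rw [Finset.mem_Icc] at hr
        exact mul_nonneg (he0 r) (ih (n - r) (by omega))
      exact nonneg_of_mul_nonneg_right h2 (Nat.cast_pos.2 h0)

private theorem numA_beta_small {k : ℕ} {e b : ℕ → ℝ} (h : IsBeta k e b) {j : ℕ} (h1 : 1 ≤ j)
    (h2 : j ≤ k) : b j = 0 := by
  have h3 := h.2 j h1
  rw [Finset.Icc_eq_empty (by omega), Finset.sum_empty] at h3
  have h4 : (j : ℝ) ≠ 0 := Nat.cast_ne_zero.2 (by omega)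
  exact (mul_eq_zero.1 h3).resolve_left h4

private theorem numA_beta_step {k : ℕ} {e b : ℕ → ℝ} (h : IsBeta k e b)
    (he0 : ∀ r, 0 ≤ e r) {A : ℝ} (hA0 : 0 ≤ A) (hA : ∀ r, k < r → e r ≤ A)
    (hsum : ∀ N : ℕ, ∑ r ∈ Finset.Icc (k + 1) N, e r ≤ 1 / 2) {n : ℕ} (hn : k < n)
    (hb : ∀ j, 1 ≤ j → j < n → b j ≤ A / 2) : (n : ℝ) * b n ≤ 5 / 4 * A := by
  have h1 := h.2 n (by omega)
  rw [numA_split h.1 (fun i hi1 hi2 => numA_beta_small h hi1 hi2) hn] at h1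
  have h2 : ∑ r ∈ Finset.Icc (k + 1) (n - k - 1), e r * b (n - r) ≤
      ∑ r ∈ Finset.Icc (k + 1) (n - k - 1), e r * (A / 2) := by
    refine Finset.sum_le_sum fun r hr => ?_
    rw [Finset.mem_Icc] at hr
    exact mul_le_mul_of_nonneg_left (hb (n - r) (by omega) (by omega)) (he0 r)
  rw [← Finset.sum_mul] at h2
  have h3 := mul_le_mul_of_nonneg_right (hsum (n - k - 1)) (by linarith : 0 ≤ A / 2)
  have h4 := hA n hn
  linarith

theorem isBeta_le {k : ℕ} (hk : 2 ≤ k) {e b : ℕ → ℝ} (h : IsBeta k e b) (he0 : ∀ r, 0 ≤ e r)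
    {A : ℝ} (hA : ∀ r, k < r → e r ≤ A)
    (hsum : ∀ N : ℕ, ∑ r ∈ Finset.Icc (k + 1) N, e r ≤ 1 / 2) {n : ℕ} (hn : 4 ≤ n) :
    b n ≤ 5 / 16 * A := by
  have hA0 : 0 ≤ A := (he0 (k + 1)).trans (hA (k + 1) (by omega))
  have key : ∀ j, 1 ≤ j → b j ≤ A / 2 := by
    intro j
    induction j using Nat.strong_induction_on with
    | _ j ih =>
      intro hj
      by_cases hjk : j ≤ k
      · rw [numA_beta_small h hj hjk]
        linarith
      · have h1 := numA_beta_step h he0 hA0 hA hsum (not_le.1 hjk) fun i hi1 hi2 => ih i hi2 hi1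
        have h2 : (3 : ℝ) ≤ j := by
          have h3 : 3 ≤ j := by omega
          exact_mod_cast h3
        have h3 := isBeta_nonneg h he0 j
        have h4 := mul_le_mul_of_nonneg_right h2 h3
        linarith
  by_cases hnk : n ≤ k
  · rw [numA_beta_small h (by omega) hnk]
    linarith
  · have h1 := numA_beta_step h he0 hA0 hA hsum (not_le.1 hnk) fun i hi1 _ => key i hi1
    have h2 : (4 : ℝ) ≤ n := by exact_mod_cast hn
    have h3 := isBeta_nonneg h he0 n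
    have h4 := mul_le_mul_of_nonneg_right h2 h3
    linarith

end Pool.Agent.PSD
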