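import Pool.Agent.PSD.Defs

/-!
# PSD/Ser: the series lemma

`R` a commutative `ℝ`-algebra, `q > 1`.  If `M` is the exponential-type sequence of `A`
(`i M_i = ∑_{r=1}^i A_r M_{i-r}`, `M_0 = 1`) and `(q^n - 1) B_n = ∑_{i=1}^n M_i B_{n-i}`, `B_0 = 1`,
then `n B_n = ∑_{r=1}^n (q^r - 1)⁻¹ A_r B_{n-r}`.

Proof.  Let `w_r = (q^r - 1)⁻¹ • A_r` and `E = rseq w`, i.e. `E_0 = 1`,
`n E_n = ∑_{r=1}^n w_r E_{n-r}`.  Put `P_n = q^n E_n`, `Q_n = ∑_{i=0}^n M_i E_{n-i}`.  Then
`n P_n = ∑_r q^r w_r P_{n-r}` and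
`n Q_n = ∑_i (i M_i) E_{n-i} + ∑_i M_i ((n-i) E_{n-i}) = ∑_r (A_r + w_r) Q_{n-r}
= ∑_r q^r w_r Q_{n-r}`, `P_0 = Q_0 = 1`, so `P = Q` by strong induction.  This says
`(q^n - 1) E_n = ∑_{i=1}^n M_i E_{n-i}`, so `E = B` by strong induction (`q^n - 1 ≠ 0`).
-/

open Polynomial

namespace Pool.Agent.PSD

section

variable {R : Type} [CommRing R] [Algebra ℝ R]

theorem rseq_zero (w : ℕ → R) : rseq w 0 = 1 := by
  rw [rseq]

theorem rseq_rec (w : ℕ → R) (n : ℕ) :
    (n : ℝ) • rseq w n = ∑ r ∈ Finset.Icc 1 n, w r * rseq w (n - r) := by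
  rcases n with _ | n
  · simp
  · rw [rseq, smul_smul]
    have h0 : ((n + 1 : ℕ) : ℝ) * (n + 1 : ℝ)⁻¹ = 1 := by
      push_cast
      exact mul_inv_cancel₀ (by positivity)
    rw [h0, one_smul]
    have h1 := Fin.sum_univ_eq_sum_range (fun j => w (n + 1 - j) * rseq w j) (n + 1)
    rw [h1]
    refine Finset.sum_nbij' (fun j => n + 1 - j) (fun r => n + 1 - r) ?_ ?_ ?_ ?_ ?_
    · intro j hj
      simp only [Finset.mem_range, Finset.mem_Icc] at hj ⊢
      omega
    · intro j hj
      simp only [Finset.mem_range, Finset.mem_Icc] at hj ⊢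
      omega
    · intro j hj
      simp only [Finset.mem_range] at hj
      omega
    · intro j hj
      simp only [Finset.mem_Icc] at hj
      omega
    · intro j hj
      simp only [Finset.mem_range] at hj
      have h2 : n + 1 - (n + 1 - j) = j := by omega
      rw [h2]

/-- uniqueness -/
theorem eq_rseq (w b : ℕ → R) (h0 : b 0 = 1)
    (h : ∀ n : ℕ, 1 ≤ n → (n : ℝ) • b n = ∑ r ∈ Finset.Icc 1 n, w r * b (n - r)) :
    ∀ n : ℕ, b n = rseq w n := by
  intro n
  induction n using Nat.strong_induction_on with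
  | _ n ih =>
    rcases Nat.eq_zero_or_pos n with hn | hn
    · rw [hn, h0, rseq_zero]
    · have h1 : (n : ℝ) • b n = (n : ℝ) • rseq w n := by
        rw [h n hn, rseq_rec]
        refine Finset.sum_congr rfl fun r hr => ?_
        rw [Finset.mem_Icc] at hr
        rw [ih (n - r) (by omega)]
      have h2 : (n : ℝ) ≠ 0 := by
        have : n ≠ 0 := by omega
        exact_mod_cast this
      have h3 := congrArg (fun x => (n : ℝ)⁻¹ • x) h1
      simp only [smul_smul, inv_mul_cancel₀ h2, one_smul] at h3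
      exact h3

private theorem sum_coeff (a b : ℕ → R) (n : ℕ) :
    ∑ r ∈ Finset.Icc 1 n, a r * b (n - r) = PowerSeries.coeff n
      (PowerSeries.mk (fun r => if r = 0 then 0 else a r) * PowerSeries.mk b) := by
  rw [PowerSeries.coeff_mul]
  have h1 := Finset.Nat.sum_antidiagonal_eq_sum_range_succ
    (fun i j => (if i = 0 then 0 else a i) * b j) n
  have h2 : (∑ p ∈ Finset.HasAntidiagonal.antidiagonal n, (PowerSeries.coeff p.1
      (PowerSeries.mk fun r => if r = 0 then 0 else a r)) *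
      (PowerSeries.coeff p.2 (PowerSeries.mk b)) : R) =
      ∑ p ∈ Finset.HasAntidiagonal.antidiagonal n, (if p.1 = 0 then 0 else a p.1) * b p.2 := by
    refine Finset.sum_congr rfl fun p _ => ?_
    rw [PowerSeries.coeff_mk, PowerSeries.coeff_mk]
  rw [h2, h1]
  refine Finset.sum_subset_zero_on_sdiff ?_ ?_ ?_
  · intro r hr
    rw [Finset.mem_Icc] at hr
    rw [Finset.mem_range]
    omega
  · intro r hr
    rw [Finset.mem_sdiff, Finset.mem_range, Finset.mem_Icc] at hr
    have h3 : r = 0 := by omega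
    rw [if_pos h3, zero_mul]
  · intro r hr
    rw [Finset.mem_Icc] at hr
    rw [if_neg (by omega)]

/-- Euler operator -/
private noncomputable def th (F : PowerSeries R) : PowerSeries R :=
  PowerSeries.mk fun n => (n : ℝ) • PowerSeries.coeff n F

private theorem th_mul (F G : PowerSeries R) : th (F * G) = th F * G + F * th G := by
  ext n
  unfold th
  rw [map_add, PowerSeries.coeff_mk, PowerSeries.coeff_mul, PowerSeries.coeff_mul,
    PowerSeries.coeff_mul, Finset.smul_sum, ← Finset.sum_add_distrib]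
  refine Finset.sum_congr rfl fun p hp => ?_
  rw [Finset.HasAntidiagonal.mem_antidiagonal] at hp
  rw [PowerSeries.coeff_mk, PowerSeries.coeff_mk, ← hp, Nat.cast_add, add_smul,
    smul_mul_assoc, mul_smul_comm]

theorem series (q : ℝ) (hq : 1 < q) (A M B : ℕ → R) (hM0 : M 0 = 1) (hB0 : B 0 = 1)
    (hM : ∀ i : ℕ, 1 ≤ i → (i : ℝ) • M i = ∑ r ∈ Finset.Icc 1 i, A r * M (i - r))
    (hB : ∀ n : ℕ, 1 ≤ n → (q ^ n - 1) • B n = ∑ i ∈ Finset.Icc 1 n, M i * B (n - i)) :
    ∀ n : ℕ, 1 ≤ n →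
      (n : ℝ) • B n = ∑ r ∈ Finset.Icc 1 n, ((q ^ r - 1)⁻¹ • A r) * B (n - r) := by
  have hq1 : ∀ n : ℕ, 1 ≤ n → q ^ n - 1 ≠ 0 := by
    intro n hn
    have := one_lt_pow₀ hq (by omega : n ≠ 0)
    linarith
  obtain ⟨w, hw⟩ : ∃ w : ℕ → R, w = fun r => (q ^ r - 1)⁻¹ • A r := ⟨_, rfl⟩
  obtain ⟨E, hE⟩ : ∃ E : ℕ → R, E = rseq w := ⟨_, rfl⟩
  have hE0 : E 0 = 1 := by rw [hE, rseq_zero]
  have hErec : ∀ n : ℕ, (n : ℝ) • E n = ∑ r ∈ Finset.Icc 1 n, w r * E (n - r) := by
    intro n
    rw [hE]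
    exact rseq_rec w n
  have hMrec : ∀ n : ℕ, (n : ℝ) • M n = ∑ r ∈ Finset.Icc 1 n, A r * M (n - r) := by
    intro n
    rcases Nat.eq_zero_or_pos n with hn | hn
    · rw [hn]; simp
    · exact hM n hn
  -- power series
  have e1 : th (PowerSeries.mk E) =
      PowerSeries.mk (fun r => if r = 0 then 0 else w r) * PowerSeries.mk E := by
    ext n
    rw [← sum_coeff, ← hErec, th, PowerSeries.coeff_mk, PowerSeries.coeff_mk]
  have e2 : th (PowerSeries.mk M) =
      PowerSeries.mk (fun r => if r = 0 then 0 else A r) * PowerSeries.mk M := by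
    ext n
    rw [← sum_coeff, ← hMrec, th, PowerSeries.coeff_mk, PowerSeries.coeff_mk]
  obtain ⟨Q, hQ⟩ : ∃ Q : ℕ → R, PowerSeries.mk M * PowerSeries.mk E = PowerSeries.mk Q :=
    ⟨fun n => PowerSeries.coeff n (PowerSeries.mk M * PowerSeries.mk E), by
      ext n; rw [PowerSeries.coeff_mk]⟩
  have hQ0 : Q 0 = 1 := by
    have h := congrArg (PowerSeries.coeff 0) hQ
    rw [PowerSeries.coeff_mul, PowerSeries.coeff_mk, Finset.Nat.antidiagonal_zero,
      Finset.sum_singleton, PowerSeries.coeff_mk, PowerSeries.coeff_mk, hM0, hE0, one_mul] at h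
    exact h.symm
  have e3 : th (PowerSeries.mk Q) = PowerSeries.mk (fun r => if r = 0 then 0 else q ^ r • w r) *
      PowerSeries.mk Q := by
    rw [← hQ, th_mul, e1, e2]
    have h : PowerSeries.mk (fun r => if r = 0 then (0 : R) else q ^ r • w r) =
        PowerSeries.mk (fun r => if r = 0 then 0 else A r) +
          PowerSeries.mk (fun r => if r = 0 then 0 else w r) := by
      ext n
      rw [map_add, PowerSeries.coeff_mk, PowerSeries.coeff_mk, PowerSeries.coeff_mk]
      split_ifs with h0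
      · rw [add_zero]
      · have h1 : A n = (q ^ n - 1) • w n := by
          rw [hw]
          simp only [smul_smul]
          rw [mul_inv_cancel₀ (hq1 n (by omega)), one_smul]
        rw [h1, sub_smul, one_smul, sub_add_cancel]
    rw [h]
    ring
  have hQr : ∀ n : ℕ, Q n = rseq (fun r => q ^ r • w r) n := by
    refine eq_rseq _ Q hQ0 fun n hn => ?_
    have h := congrArg (PowerSeries.coeff n) e3
    rw [← sum_coeff, th, PowerSeries.coeff_mk, PowerSeries.coeff_mk] at h
    exact h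
  have hPr : ∀ n : ℕ, q ^ n • E n = rseq (fun r => q ^ r • w r) n := by
    refine eq_rseq _ (fun n => q ^ n • E n) ?_ fun n hn => ?_
    · simp only [pow_zero, one_smul, hE0]
    · change (n : ℝ) • (q ^ n • E n) = ∑ r ∈ Finset.Icc 1 n, (q ^ r • w r) * (q ^ (n - r) • E (n - r))
      rw [smul_comm, hErec, Finset.smul_sum]
      refine Finset.sum_congr rfl fun r hr => ?_
      rw [Finset.mem_Icc] at hr
      rw [smul_mul_assoc, mul_smul_comm, smul_smul, ← pow_add,
        show r + (n - r) = n by omega]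
  have hEeq : ∀ n : ℕ, 1 ≤ n → (q ^ n - 1) • E n = ∑ i ∈ Finset.Icc 1 n, M i * E (n - i) := by
    intro n hn
    have h := congrArg (PowerSeries.coeff n) hQ
    rw [PowerSeries.coeff_mul, PowerSeries.coeff_mk, hQr, ← hPr] at h
    have h1 := Finset.Nat.sum_antidiagonal_eq_sum_range_succ (fun i j => M i * E j) n
    have h2 : (∑ p ∈ Finset.HasAntidiagonal.antidiagonal n, (PowerSeries.coeff p.1 (PowerSeries.mk M)) *
        (PowerSeries.coeff p.2 (PowerSeries.mk E)) : R) =
        ∑ p ∈ Finset.HasAntidiagonal.antidiagonal n, M p.1 * E p.2 := by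
      refine Finset.sum_congr rfl fun p _ => ?_
      rw [PowerSeries.coeff_mk, PowerSeries.coeff_mk]
    rw [h2, h1, Finset.range_eq_Ico, Finset.sum_eq_sum_Ico_succ_bot (by omega), hM0, one_mul,
      Nat.sub_zero] at h
    rw [sub_smul, one_smul, ← h, add_sub_cancel_left]
    rfl
  have hBE : ∀ n : ℕ, B n = E n := by
    intro n
    induction n using Nat.strong_induction_on with
    | _ n ih =>
      rcases Nat.eq_zero_or_pos n with hn | hn
      · rw [hn, hB0, hE0]
      · have h1 : (q ^ n - 1) • B n = (q ^ n - 1) • E n := by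
          rw [hB n hn, hEeq n hn]
          refine Finset.sum_congr rfl fun r hr => ?_
          rw [Finset.mem_Icc] at hr
          rw [ih (n - r) (by omega)]
        have h3 := congrArg (fun x => (q ^ n - 1)⁻¹ • x) h1
        simp only [smul_smul, inv_mul_cancel₀ (hq1 n hn), one_smul] at h3
        exact h3
  intro n hn
  have h := hErec n
  rw [hw] at h
  rw [hBE n, h]
  refine Finset.sum_congr rfl fun r _ => ?_
  rw [hBE (n - r)]

end

end Pool.Agent.PSD
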