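import Pool.Agent.PSD.F1
import Pool.Agent.PSD.Tot
import Pool.Agent.PSD.Ser

/-!
# PSD/Rec: the recursion for `BB` and for `bb`

* `BB_zero`: `NB_zero`, `gl_zero`, `one_eq_sg`.
* `BB_F1`: `F1` read in the group algebra (`sg_mul`; compare coefficients).
* `BB_rec`: `series` with `A = AA K k`, `M = MM K k`, `B = BB K k`, `q = Fintype.card K`
  (`MM_rec`, `MM_zero_zero`, `BB_F1`).
* `aug_AA`: `aug (AA K k r) = ∑_{d | r, d > k} d ID d = (q^r - 1) - ∑_{d | r, d ≤ k} d ID d`
  (`sum_ID`).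
* `AA_small`: a divisor of `r ≤ k` is `≤ k`.
* `bb_isRec`: augmentation of `BB_rec`; the terms `r ≤ k` vanish.
-/

open Polynomial

namespace Pool.Agent.PSD

variable (K : Type) [Field K] [Fintype K] [DecidableEq K]

private theorem rec_one_lt : (1 : ℝ) < (Fintype.card K : ℝ) := by
  have h := Fintype.one_lt_card (α := K)
  exact_mod_cast h

private theorem rec_ne {r : ℕ} (hr : 1 ≤ r) : ((Fintype.card K : ℝ) ^ r - 1) ≠ 0 := by
  have h := one_lt_pow₀ (rec_one_lt K) (n := r) (by omega)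
  exact ne_of_gt (sub_pos.mpr h)

theorem BB_zero (k : ℕ) : BB K k 0 = 1 := by
  unfold BB
  rw [one_eq_sg]
  congr 1
  funext c
  rw [NB_zero, gl_zero]
  by_cases h : c = 1
  · simp [h]
  · simp [h]

theorem BB_F1 (k n : ℕ) :
    ((Fintype.card K : ℝ) ^ n - 1) • BB K k n =
      ∑ i ∈ Finset.Icc 1 n, MM K k i * BB K k (n - i) := by
  apply eq_of_cf
  intro c
  rw [cf_smul, cf_sum]
  simp only [BB, MM, sg_mul, cf_sg]
  exact F1 K k n c

theorem BB_rec (k : ℕ) {n : ℕ} (hn : 1 ≤ n) :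
    (n : ℝ) • BB K k n =
      ∑ r ∈ Finset.Icc 1 n, (((Fintype.card K : ℝ) ^ r - 1)⁻¹ • AA K k r) * BB K k (n - r) := by
  exact series (Fintype.card K : ℝ) (rec_one_lt K) (AA K k) (MM K k) (BB K k) (MM_zero_zero K k)
    (BB_zero K k) (fun i _ => MM_rec K k i) (fun m _ => BB_F1 K k m) n hn

theorem aug_BB (k n : ℕ) : aug (BB K k n) = bb K k n := by
  unfold BB bb
  rw [aug_sg, Finset.sum_div]

theorem aug_ZZ (k : ℕ) {r : ℕ} (hr : 1 ≤ r) :
    aug (ZZ K k r) = ((Fintype.card K : ℝ) ^ r - 1) * eps K k r := by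
  unfold eps ZZ
  rw [mul_div_cancel₀ _ (rec_ne K hr), map_sum]
  refine Finset.sum_congr rfl fun d _ => ?_
  rw [map_sum, ID, Finset.mul_sum]
  exact Finset.sum_congr rfl fun c _ => aug_single _ _

theorem aug_AA (k : ℕ) {r : ℕ} (hr : 1 ≤ r) :
    aug (AA K k r) = ((Fintype.card K : ℝ) ^ r - 1) * (1 - eps K k r) := by
  have h1 := congrArg aug (AA_add_ZZ K k hr)
  rw [map_add, aug_ZZ K k hr, AA_tot K hr, map_smul, aug_SS, smul_eq_mul,
    div_mul_cancel₀ _ (ne_of_gt (sub_pos.mpr (rec_one_lt K)))] at h1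
  linarith

theorem AA_small {k r : ℕ} (hr : r ≤ k) : AA K k r = 0 := by
  unfold AA
  have h1 : r.divisors.filter (fun d => k < d) = ∅ := by
    rw [Finset.filter_eq_empty_iff]
    intro d hd
    have h2 := Nat.divisor_le hd
    omega
  rw [h1, Finset.sum_empty]

theorem bb_isRec (k : ℕ) : IsRec k (eps K k) (bb K k) := by
  refine ⟨?_, fun n hn => ?_⟩
  · rw [← aug_BB, BB_zero, map_one]
  · have h1 := congrArg aug (BB_rec K k hn)
    rw [map_smul, map_sum, aug_BB, smul_eq_mul] at h1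
    rw [h1]
    have h2 : Finset.Icc (k + 1) n ⊆ Finset.Icc 1 n := by
      intro r hr
      rw [Finset.mem_Icc] at hr ⊢
      omega
    rw [← Finset.sum_subset h2]
    · refine Finset.sum_congr rfl fun r hr => ?_
      have hr1 : 1 ≤ r := by
        rw [Finset.mem_Icc] at hr
        omega
      rw [map_mul, map_smul, aug_BB, aug_AA K k hr1, smul_eq_mul,
        inv_mul_cancel_left₀ (rec_ne K hr1)]
    · intro r hr hr2
      have hr3 : r ≤ k := by
        rw [Finset.mem_Icc] at hr hr2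
        omega
      rw [AA_small K hr3, smul_zero, zero_mul, map_zero]

end Pool.Agent.PSD
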