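import Pool.Agent.PSD.K1

/-!
# PSD/Sharp: the value `2/7` is attained by `PSL_3(2)` and `PSL_3(4)` on points
-/

open Polynomial
open scoped LinearAlgebra.Projectivization

namespace Pool.Agent.PSD

private theorem big_one_iff {K V : Type} [Field K] [AddCommGroup V] [Module K V]
    (f : Module.End K V) : Big 1 f ↔ ∀ v : V, v ≠ 0 → ∀ c : K, f v ≠ c • v := by
  constructor
  · intro h v hv c hfv
    have h1 := h (X - C c) (X_sub_C_ne_zero c) (by rw [natDegree_X_sub_C])
    have h2 : aeval f (X - C c) v = aeval f (X - C c) 0 := by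
      rw [map_zero, map_sub, aeval_X, aeval_C, LinearMap.sub_apply,
        Module.algebraMap_end_apply, hfv, sub_self]
    exact hv (h1 h2)
  · intro h φ hφ hdeg
    rw [injective_iff_map_eq_zero]
    intro v hv
    by_contra hne
    have hφ' : φ = C (φ.coeff 1) * X + C (φ.coeff 0) := eq_X_add_C_of_natDegree_le_one hdeg
    have h2 : aeval f φ v = φ.coeff 1 • f v + φ.coeff 0 • v := by
      conv_lhs => rw [hφ']
      rw [map_add, map_mul, aeval_X, aeval_C, aeval_C, LinearMap.add_apply,
        Module.End.mul_apply, Module.algebraMap_end_apply, Module.algebraMap_end_apply]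
    rw [h2] at hv
    by_cases h1 : φ.coeff 1 = 0
    · rw [h1, zero_smul, zero_add] at hv
      rcases smul_eq_zero.mp hv with h0 | h0
      · apply hφ
        rw [hφ', h1, h0]
        simp
      · exact hne h0
    · apply h v hne (-(φ.coeff 1)⁻¹ * φ.coeff 0)
      have h3 : φ.coeff 1 • f v = -(φ.coeff 0 • v) := eq_neg_of_add_eq_zero_left hv
      have h4 : f v = (φ.coeff 1)⁻¹ • (φ.coeff 1 • f v) := by
        rw [smul_smul, inv_mul_cancel₀ h1, one_smul]
      rw [h4, h3, smul_neg, smul_smul, neg_mul, neg_smul]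

private theorem smul_eq_iff {K : Type} [Field K] {n : ℕ}
    (A : Matrix.SpecialLinearGroup (Fin n) K) :
    (∀ x : ℙ K (Fin n → K), A • x ≠ x) ↔ Big 1 (Matrix.toLin' A.1) := by
  rw [big_one_iff]
  constructor
  · intro h v hv c hc
    apply h (Projectivization.mk K v hv)
    rw [Projectivization.smul_mk, Projectivization.mk_eq_mk_iff']
    exact ⟨c, hc.symm⟩
  · intro h x
    induction x using Projectivization.ind with
    | _ v hv =>
      intro hx
      rw [Projectivization.smul_mk, Projectivization.mk_eq_mk_iff'] at hx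
      obtain ⟨c, hc⟩ := hx
      exact h v hv c hc.symm

private theorem card_eq {K : Type} [Field K] [Finite K] {n : ℕ} :
    Nat.card {A : Matrix.SpecialLinearGroup (Fin n) K // Big 1 (Matrix.toLin' A.1)} *
        Nat.card (Matrix.ProjectiveSpecialLinearGroup (Fin n) K) =
      Nat.card {g : Matrix.ProjectiveSpecialLinearGroup (Fin n) K //
          ∀ x : ℙ K (Fin n → K), g • x ≠ x} *
        Nat.card (Matrix.SpecialLinearGroup (Fin n) K) := by
  have : Finite (Matrix.SpecialLinearGroup (Fin n) K) := by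
    have : Finite (Matrix (Fin n) (Fin n) K) := inferInstanceAs (Finite (Fin n → Fin n → K))
    exact Subtype.finite
  set Z := Subgroup.center (Matrix.SpecialLinearGroup (Fin n) K) with hZ
  let Q := Matrix.SpecialLinearGroup (Fin n) K ⧸ Z
  have hcard : Nat.card (Matrix.SpecialLinearGroup (Fin n) K) =
      Nat.card (Matrix.ProjectiveSpecialLinearGroup (Fin n) K) * Nat.card Z :=
    Subgroup.card_eq_card_quotient_mul_card_subgroup Z
  have hcard2 : Nat.card {A : Matrix.SpecialLinearGroup (Fin n) K //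
      Big 1 (Matrix.toLin' A.1)} =
      Nat.card {g : Matrix.ProjectiveSpecialLinearGroup (Fin n) K //
          ∀ x : ℙ K (Fin n → K), g • x ≠ x} * Nat.card Z := by
    rw [← Nat.card_prod]
    apply Nat.card_congr
    -- `(groupEquivQuotientProdSubgroup)` restricted
    refine Equiv.trans (Equiv.subtypeEquivRight
      (q := fun A : Matrix.SpecialLinearGroup (Fin n) K =>
        ∀ x : ℙ K (Fin n → K), (QuotientGroup.mk A :
          Matrix.ProjectiveSpecialLinearGroup (Fin n) K) • x ≠ x) ?_) ?_
    · intro A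
      exact (smul_eq_iff A).symm
    · refine Equiv.trans ((Subgroup.groupEquivQuotientProdSubgroup (s := Z)).subtypeEquiv
        (q := fun y => ∀ x : ℙ K (Fin n → K),
          (y.1 : Matrix.ProjectiveSpecialLinearGroup (Fin n) K) • x ≠ x) ?_) ?_
      · intro A
        have : ((Subgroup.groupEquivQuotientProdSubgroup (s := Z)) A).1 = QuotientGroup.mk A :=
          rfl
        rw [this]
      · exact (Equiv.prodSubtypeFstEquivSubtypeProd
          (p := fun g : Matrix.ProjectiveSpecialLinearGroup (Fin n) K =>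
            ∀ x : ℙ K (Fin n → K), g • x ≠ x))
  rw [hcard, hcard2]
  ring

/-- the derangement proportion of `PSL_3(2)` and `PSL_3(4)` acting on points is `2/7` -/
theorem sharp {K : Type} [Field K] [Finite K] (hK : Nat.card K = 2 ∨ Nat.card K = 4) :
    (Nat.card {g : Matrix.ProjectiveSpecialLinearGroup (Fin 3) K //
          ∀ x : ℙ K (Fin 3 → K), g • x ≠ x} : ℝ) =
      2 / 7 * (Nat.card (Matrix.ProjectiveSpecialLinearGroup (Fin 3) K) : ℝ) := by
  classical
  have := Fintype.ofFinite K
  have hcardK : Nat.card K = Fintype.card K := Nat.card_eq_fintype_card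
  rw [hcardK] at hK
  have : Finite (Matrix.SpecialLinearGroup (Fin 3) K) := by
    have : Finite (Matrix (Fin 3) (Fin 3) K) := inferInstanceAs (Finite (Fin 3 → Fin 3 → K))
    exact Subtype.finite
  have h1 := card_eq (K := K) (n := 3)
  have h2 := SL_ncard K (n := 3) (Big 1)
  have h3 := card_SL K (n := 3) (by norm_num)
  have hNB : Nat.card {A : Matrix.SpecialLinearGroup (Fin 3) K // Big 1 (Matrix.toLin' A.1)} =
      NB K 1 3 1 := h2
  -- value of sl
  have hrec := bb_isRec K 1
  have hb1 : bb K 1 1 = 0 := by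
    have := hrec.2 1 le_rfl
    simpa using this
  have hb3 : 3 * bb K 1 3 = 1 - eps K 1 3 := by
    have h := hrec.2 3 (by norm_num)
    have : Finset.Icc (1 + 1) 3 = {2, 3} := by decide
    rw [this, Finset.sum_pair (by norm_num)] at h
    norm_num at h
    rw [hb1, hrec.1] at h
    linarith
  have he := eps_one K (r := 3) (by norm_num)
  have hsl := sl_three_eq K
  have hcardU : Nat.card Kˣ = Fintype.card K - 1 := by
    rw [Nat.card_eq_fintype_card, Fintype.card_units]
  have hval : sl K 1 3 = 2 / 7 := by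
    rcases hK with hK | hK
    · have hN : Nat.card {a : Kˣ // a ^ 3 = 1} = 1 := by
        have hU : Nat.card Kˣ = 1 := by rw [hcardU, hK]
        have : Subsingleton Kˣ := (Nat.card_eq_one_iff_unique.mp hU).1
        rw [Nat.card_eq_one_iff_unique]
        exact ⟨⟨fun a b => Subtype.ext (Subsingleton.elim _ _)⟩, ⟨⟨1, one_pow 3⟩⟩⟩
      rw [hsl, hN]
      rw [he, hK] at hb3
      norm_num at hb3
      norm_num
      linarith
    · have hN : Nat.card {a : Kˣ // a ^ 3 = 1} = 3 := by
        have hU : Nat.card Kˣ = 3 := by rw [hcardU, hK]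
        rw [← hU]
        apply Nat.card_congr
        refine Equiv.subtypeUnivEquiv ?_
        intro a
        exact pow_card_eq_one'
      rw [hsl, hN, he, hK]
      rw [he, hK] at hb3
      norm_num at hb3 ⊢
      linarith
  have hsl2 : sl K 1 3 = ((Fintype.card K : ℝ) - 1) * (NB K 1 3 1 : ℝ) / (gl K 3 : ℝ) := rfl
  have hq : (2 : ℝ) ≤ (Fintype.card K : ℝ) := by
    exact_mod_cast (Fintype.one_lt_card : 1 < Fintype.card K)
  have h3' : (Nat.card (Matrix.SpecialLinearGroup (Fin 3) K) : ℝ) *
      ((Fintype.card K : ℝ) - 1) = (gl K 3 : ℝ) := by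
    rw [← h3]
    push_cast [Nat.cast_sub (show 1 ≤ Fintype.card K from Fintype.card_pos)]
    ring
  have hglpos : (0 : ℝ) < (gl K 3 : ℝ) := by exact_mod_cast gl_pos K 3
  have h1' : (NB K 1 3 1 : ℝ) *
        (Nat.card (Matrix.ProjectiveSpecialLinearGroup (Fin 3) K) : ℝ) =
      (Nat.card {g : Matrix.ProjectiveSpecialLinearGroup (Fin 3) K //
          ∀ x : ℙ K (Fin 3 → K), g • x ≠ x} : ℝ) *
        (Nat.card (Matrix.SpecialLinearGroup (Fin 3) K) : ℝ) := by
    rw [← hNB]
    exact_mod_cast h1
  have hSLpos : (0 : ℝ) < (Nat.card (Matrix.SpecialLinearGroup (Fin 3) K) : ℝ) := by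
    exact_mod_cast Nat.card_pos
  have h5 : (NB K 1 3 1 : ℝ) =
      2 / 7 * (Nat.card (Matrix.SpecialLinearGroup (Fin 3) K) : ℝ) := by
    rw [hsl2, ← h3', div_eq_iff (by rw [h3']; exact ne_of_gt hglpos)] at hval
    have hq1 : ((Fintype.card K : ℝ) - 1) ≠ 0 := by linarith
    have : ((Fintype.card K : ℝ) - 1) * (NB K 1 3 1 : ℝ) = ((Fintype.card K : ℝ) - 1) *
        (2 / 7 * (Nat.card (Matrix.SpecialLinearGroup (Fin 3) K) : ℝ)) := by
      rw [hval]; ring
    exact mul_left_cancel₀ hq1 this
  rw [h5] at h1'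
  have h6 : (2 / 7 * (Nat.card (Matrix.ProjectiveSpecialLinearGroup (Fin 3) K) : ℝ)) *
      (Nat.card (Matrix.SpecialLinearGroup (Fin 3) K) : ℝ) =
      (Nat.card {g : Matrix.ProjectiveSpecialLinearGroup (Fin 3) K //
          ∀ x : ℙ K (Fin 3 → K), g • x ≠ x} : ℝ) *
        (Nat.card (Matrix.SpecialLinearGroup (Fin 3) K) : ℝ) := by
    rw [← h1']; ring
  exact (mul_right_cancel₀ (ne_of_gt hSLpos) h6).symm

end Pool.Agent.PSD
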